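import Pool.Agent.J6H8.CDim.BlocksP

/-!
A level is good unless it is spoiled by some block.
-/

set_option autoImplicit false

namespace Pool.Agent.J6H8.CDim

open MeasureTheory ProbabilityTheory
open scoped NNReal ENNReal
open Pool.Agent.R966.CD (Par E gam S S_zero Q OE Small osc_cell near)
open Pool.Agent.R966.CD.Par (pm pm_of pm_zero small_pm)

/-- a chain which does not jump over a cell has a point inside the cell -/
theorem chain_hits (c : ℕ → ℤ) (t : ℕ) (A B : ℤ) (h0 : c 0 ≤ A) (h1 : B ≤ c t) (hAB : A < B)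
    (hj : ∀ i < t, ¬ (c i ≤ A ∧ B ≤ c (i+1))) : ∃ i ≤ t, A < c i ∧ c i < B := by
  classical
  have hex : ∃ i, A < c i := ⟨t, by omega⟩
  obtain ⟨i, hi1, hi2⟩ : ∃ i, A < c i ∧ ∀ m < i, ¬ A < c m :=
    ⟨Nat.find hex, Nat.find_spec hex, fun m hm => Nat.find_min hex hm⟩
  have hit : i ≤ t := by
    by_contra hcon
    exact hi2 t (by omega) (by omega)
  cases i with
  | zero => omega
  | succ i =>
    have h2 := hi2 i (by omega)
    have h3 := hj i (by omega)
    refine ⟨i+1, hit, hi1, ?_⟩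
    by_contra hcon
    exact h3 ⟨by omega, by omega⟩

/-- integer geometry: a near pair across a cell of a block lies in the shell -/
theorem geo_shell {W1 X L TH HH c a u v : ℤ} (hHH : 0 < HH) (hTH : 0 < TH) (hW : 0 ≤ W1)
    (hL : 0 ≤ L) (hX : W1 + 2 * L + 4 * TH + 8 ≤ X) (g1 : c * X ≤ a * TH)
    (g2 : (a + 1) * TH ≤ (c + 1) * X) (hu2 : u ≤ a * (TH * HH)) (hv2 : (a + 1) * (TH * HH) ≤ v)
    (hsep : -(L * HH) ≤ u - v) (hcb : 1 ≤ c ∨ c ≤ -2) : W1 * HH ≤ |u| ∧ W1 * HH ≤ |v| := by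
  have hX0 : 0 ≤ X := by linarith
  have i3 : W1 * HH + L * HH ≤ X * HH := by
    rw [← add_mul]
    exact mul_le_mul_of_nonneg_right (by linarith) hHH.le
  have i0 : 0 ≤ L * HH := mul_nonneg hL hHH.le
  rcases hcb with hcb | hcb
  · have i1 : X ≤ c * X := by nlinarith
    have i2 : X * HH ≤ v := by
      refine le_trans ?_ hv2
      rw [← mul_assoc]
      apply mul_le_mul_of_nonneg_right _ hHH.le
      linarith
    exact ⟨le_trans (by linarith) (le_abs_self u), le_trans (by linarith) (le_abs_self v)⟩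
  · have i1 : (c + 1) * X ≤ -X := by nlinarith
    have i2 : u ≤ -(X * HH) := by
      refine le_trans hu2 ?_
      rw [← mul_assoc, ← neg_mul]
      apply mul_le_mul_of_nonneg_right _ hHH.le
      linarith
    exact ⟨le_trans (by linarith) (neg_le_abs u), le_trans (by linarith) (neg_le_abs v)⟩

/-- integer geometry: the indices of the anchors -/
theorem geo_idx {L TH HH a u v α γ : ℤ} (hHH : 0 < HH)
    (hu2 : u ≤ a * (TH * HH)) (hv2 : (a + 1) * (TH * HH) ≤ v)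
    (hsep : -(L * HH) ≤ u - v) (h7 : -HH ≤ u - α * HH) (h7' : u - α * HH ≤ HH)
    (h9 : -HH ≤ v - γ * HH) (h9' : v - γ * HH ≤ HH) :
    α ≤ a * TH + 1 ∧ (a + 1) * TH - 1 ≤ γ ∧ (a + 1) * TH - L - 1 ≤ α ∧ γ ≤ a * TH + L + 1 := by
  refine ⟨?_, ?_, ?_, ?_⟩
  · have : α * HH ≤ (a * TH + 1) * HH := by
      have e : (a * TH + 1) * HH = a * (TH * HH) + HH := by ring
      rw [e]
      linarith
    exact le_of_mul_le_mul_right this hHH
  · have : ((a + 1) * TH - 1) * HH ≤ γ * HH := by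
      have e : ((a + 1) * TH - 1) * HH = (a + 1) * (TH * HH) - HH := by ring
      rw [e]
      linarith
    exact le_of_mul_le_mul_right this hHH
  · have : ((a + 1) * TH - L - 1) * HH ≤ α * HH := by
      have e : ((a + 1) * TH - L - 1) * HH = (a + 1) * (TH * HH) - L * HH - HH := by ring
      rw [e]
      linarith
    exact le_of_mul_le_mul_right this hHH
  · have : γ * HH ≤ (a * TH + L + 1) * HH := by
      have e : (a * TH + L + 1) * HH = a * (TH * HH) + L * HH + HH := by ring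
      rw [e]
      linarith
    exact le_of_mul_le_mul_right this hHH

/-- integer geometry: the cells of a block between two times -/
theorem geo_cell {l D K c1 cc a c0 ct : ℤ} (hl : 0 < l) (hD : 0 < D) (hll : l = K * D)
    (b1 : c0 ≤ c1 * l) (b2 : c1 * l ≤ c0 + l) (hd : c0 + 8 * l ≤ ct) (hcc1 : c1 ≤ cc)
    (hcc2 : cc ≤ c1 + 2) (ha1 : cc * K ≤ a) (ha2 : a < (cc + 1) * K) :
    c0 ≤ a * D ∧ (a + 1) * D ≤ ct ∧ a * D < (a + 1) * D := by
  have m1 : cc * l ≤ a * D := by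
    rw [hll, ← mul_assoc]
    exact mul_le_mul_of_nonneg_right ha1 hD.le
  have m2 : (a + 1) * D ≤ (cc + 1) * l := by
    rw [hll, ← mul_assoc]
    exact mul_le_mul_of_nonneg_right (by omega) hD.le
  have m3 : c1 * l ≤ cc * l := mul_le_mul_of_nonneg_right hcc1 hl.le
  have m4 : (cc + 1) * l ≤ (c1 + 3) * l := mul_le_mul_of_nonneg_right (by omega) hl.le
  refine ⟨by linarith, by linarith, by linarith⟩

namespace PN

variable (P : PN)

/-- good level of the walk -/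
structure GG (n j : ℕ) (x : ℤ → E n) : Prop where
  ret : ∀ u : ℤ, |u| ≤ P.w 0 → ‖S x u‖ < 5 * P.r n j → |u| ≤ P.w j
  cross : ∀ (t : ℕ) (c : ℕ → ℤ), (∀ i ≤ t, |c i| ≤ P.w j) →
    (∀ i < t, ‖S x (c i) - S x (c (i+1))‖ < 5 * P.r n (j+1)) →
    2^(P.Hc j - 1) ≤ |c 0 - c t| → 2^(P.KK - 1) ≤ t + 1
  osc : ∀ u v : ℤ, |u| ≤ P.w j → |v| ≤ P.w j → P.r n j / 2 < ‖S x u - S x v‖ →
    2^(P.Hc j) ≤ |u - v|

theorem ret_of {n j : ℕ} (hn : 1 ≤ n) (hj : j < P.k) {x : ℤ → E n}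
    (h : ∀ i < j, x ∉ P.Fdown n i (j - i)) (u : ℤ) (hu : |u| ≤ P.w 0)
    (hs : ‖S x u‖ < 5 * P.r n j) : |u| ≤ P.w j := by
  by_contra hcon
  push Not at hcon
  have e1 : |u| = (u.natAbs : ℤ) := Int.abs_eq_natAbs u
  rw [e1] at hcon hu
  obtain ⟨i, hi, h1, h2⟩ := P.exists_shell (j := j) (a := u.natAbs) (by exact_mod_cast hcon)
    (by exact_mod_cast hu)
  have h3 := h i hi
  unfold Fdown SBd at h3
  rw [Set.mem_union, not_or] at h3
  obtain ⟨h4, h5⟩ := h3
  have hij : i + (j - i) = j := by omega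
  rw [hij] at h4 h5
  have hr := P.r_pos hn j
  have hexp := P.exp_le' (show j ≤ P.k + 1 by omega)
  have hmul : 2*P.β*(i+1) ≤ 2*P.β*j := Nat.mul_le_mul_left _ (by omega)
  obtain ⟨p, hp, h6, -⟩ := P.anchor hr.le (2^(P.M + 2*P.μ - 2*P.β*(i+1) - P.Hs i (j-i))) (by
    rw [← pow_add, w_eq]
    unfold Hs
    rw [hij]
    congr 1
    omega) h4 u (by rw [e1]; exact_mod_cast h1.le) (by rw [e1]; exact_mod_cast h2)
  simp only [Set.mem_iUnion, not_exists] at h5
  have h7 := h5 p hp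
  simp only [Set.mem_ofPred_eq, S_zero, sub_zero, not_le] at h7
  have h8 : ‖S x p‖ ≤ ‖S x u‖ + ‖S x u - S x p‖ := by
    have : S x p = S x u - (S x u - S x p) := by abel
    calc ‖S x p‖ = ‖S x u - (S x u - S x p)‖ := by rw [← this]
      _ ≤ _ := norm_sub_le _ _
  linarith

/-- the cells close to the centre -/
theorem inner {n j : ℕ} (hn : 1 ≤ n) {x : ℤ → E n}
    (hup : ∀ i, j < i → i < P.k → x ∉ P.Fup n i (i - j)) (hc : x ∉ P.Fcore n (P.k - j)) :
    ∀ m i, i + m = P.k → j + 1 ≤ i → ∀ u : ℕ, u ≤ P.w i → ∀ σ,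
      ‖pm x σ u‖ ≤ 2 * P.Ru * P.r n (j+1) * (1/2)^(i-j-1) := by
  have hr := P.r_pos hn (j+1)
  have hRu := P.Ru_pos
  have hrad : ∀ i, j + 1 ≤ i → P.Ru * P.r n i * ((2:ℝ)^P.β / 2)^(i-j-1) =
      P.Ru * P.r n (j+1) * (1/2)^(i-j-1) := by
    intro i hi
    have e1 : i = (j+1) + (i-j-1) := by omega
    have e2 := P.r_shift n (j+1) (i-j-1)
    rw [← e1] at e2
    rw [e2, div_pow, ← pow_mul]
    field_simp
    rw [← mul_pow]
    norm_num
  intro m
  induction m with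
  | zero =>
    intro i hi hji u hu σ
    have hik : i = P.k := by omega
    subst hik
    unfold Fcore at hc
    have hr2 := P.r_pos hn P.k
    have h3 := osc_cell (by positivity) (Or.inl rfl) (small_pm hc σ) u (Nat.zero_le _) hu
    have hexp := P.exp_le (show P.k ≤ P.k + 1 by omega)
    have h4 : u / 2^(P.N + 13 - 2*P.β*P.k) = 0 := by
      apply Nat.div_eq_of_lt
      refine lt_of_le_of_lt hu ?_
      unfold Par.w
      exact Nat.pow_lt_pow_right (by norm_num) (by omega)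
    rw [h4, zero_mul, max_self, pm_zero, sub_zero, hrad P.k hji] at h3
    have : (0:ℝ) ≤ P.Ru * P.r n (j+1) * (1/2)^(P.k-j-1) := by positivity
    linarith
  | succ m ih =>
    intro i hi hji u hu σ
    have h1 := ih (i+1) (by omega) (by omega)
    rcases Nat.lt_or_ge (P.w (i+1)) u with h2 | h2
    · have h5 := hup i (by omega) (by omega)
      unfold Fup at h5
      have hr2 := P.r_pos hn i
      have h3 := osc_cell (by positivity) (P.loOK (i+1)) (small_pm h5 σ) u h2.le hu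
      have hexp := P.exp_le (show i ≤ P.k + 1 by omega)
      have h4 : u / 2^(P.N + 13 - 2*P.β*i) = 0 := by
        apply Nat.div_eq_of_lt
        refine lt_of_le_of_lt hu ?_
        unfold Par.w
        exact Nat.pow_lt_pow_right (by norm_num) (by omega)
      rw [h4, zero_mul, max_eq_right (Nat.zero_le _), hrad i hji] at h3
      have h6 := h1 (P.w (i+1)) le_rfl σ
      have e1 : i + 1 - j - 1 = (i - j - 1) + 1 := by omega
      rw [e1, pow_succ] at h6
      have h8 : ‖pm x σ u‖ ≤ ‖pm x σ u - pm x σ (P.w (i+1))‖ + ‖pm x σ (P.w (i+1))‖ := by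
        have := norm_add_le (pm x σ u - pm x σ (P.w (i+1))) (pm x σ (P.w (i+1)))
        rwa [sub_add_cancel] at this
      linarith
    · refine (h1 u h2 σ).trans ?_
      apply mul_le_mul_of_nonneg_left _ (by positivity)
      exact pow_le_pow_of_le_one (by norm_num) (by norm_num) (by omega)

theorem inner' {n j : ℕ} (hn : 1 ≤ n) (hj : j < P.k) {x : ℤ → E n}
    (hup : ∀ i, j < i → i < P.k → x ∉ P.Fup n i (i - j)) (hc : x ∉ P.Fcore n (P.k - j))
    (u : ℤ) (hu : |u| ≤ P.w (j+1)) : ‖S x u‖ ≤ 2 * P.Ru * P.r n (j+1) := by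
  obtain ⟨σ, h1, -⟩ := pm_of x u
  rw [h1]
  have h2 := P.inner hn hup hc (P.k - (j+1)) (j+1) (by omega) le_rfl u.natAbs (by
    rw [Int.abs_eq_natAbs] at hu; exact_mod_cast hu) σ
  have e : j + 1 - j - 1 = 0 := by omega
  rwa [e, pow_zero, mul_one] at h2

theorem sep_of {n j : ℕ} (hn : 1 ≤ n) (hj : j < P.k) {x : ℤ → E n} (hown : x ∉ P.Fown n j)
    (hup : ∀ i, j < i → i < P.k → x ∉ P.Fup n i (i - j)) (hc : x ∉ P.Fcore n (P.k - j))
    (u v : ℤ) (hu : |u| ≤ P.w j) (hv : |v| ≤ P.w j) (hs : ‖S x u - S x v‖ < 5 * P.r n (j+1)) :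
    |u - v| ≤ 2 * P.sep j := by
  have hr := P.r_pos hn (j+1)
  have hμ := P.hμ
  have hexp := P.exp_le' (show j + 1 ≤ P.k + 1 by omega)
  unfold Fown at hown
  rw [Set.mem_union, Set.mem_union, Set.mem_union, Set.mem_union, not_or, not_or, not_or, not_or] at hown
  obtain ⟨⟨⟨-, h1⟩, h2, h3⟩, -⟩ := hown
  -- the scales
  have s1 : 2 * P.w (j+1) ≤ P.sep j := by
    rw [w_eq]
    unfold sep
    rw [← pow_succ']
    exact Nat.pow_le_pow_right (by norm_num) (by omega)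
  have s2 : 4 * 2^(P.Hs j 1) ≤ P.sep j := by
    unfold sep Hs
    have : 4 = 2^2 := by norm_num
    rw [this, ← pow_add]
    exact Nat.pow_le_pow_right (by norm_num) (by omega)
  have s1' : 2 * (P.w (j+1) : ℤ) ≤ P.sep j := by exact_mod_cast s1
  have s2' : 4 * (2:ℤ)^(P.Hs j 1) ≤ P.sep j := by exact_mod_cast s2
  have hw0 : (0:ℤ) ≤ P.w (j+1) := Int.natCast_nonneg _
  have hH0 : (0:ℤ) ≤ (2:ℤ)^(P.Hs j 1) := by positivity
  -- pairs in order
  have hpair : ∀ a b : ℤ, a ≤ b → |a| ≤ P.w j → |b| ≤ P.w j → ‖S x b - S x a‖ < 5 * P.r n (j+1) →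
      b - a ≤ 2 * P.sep j := by
    intro a b hab ha hb hsab
    by_contra hcon
    push Not at hcon
    have h2' : ∀ p q, p ∈ P.anc j (P.Hs j 1) → q ∈ P.anc j (P.Hs j 1) → p + P.sep j ≤ q →
        7 * P.r n (j+1) < ‖S x q - S x p‖ := by
      intro p q hp hq hpq
      unfold SBp at h2
      simp only [Set.mem_iUnion, not_exists] at h2
      have := h2 (p, q) (Finset.mem_filter.mpr ⟨Finset.mem_product.mpr ⟨hp, hq⟩, hpq⟩)
      simpa only [Set.mem_ofPred_eq, not_le] using this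
    have h3' : ∀ p, p ∈ P.anc j (P.Hs j 1) → (P.sep j : ℤ) ≤ |p| →
        (2 * P.Ru + 6) * P.r n (j+1) < ‖S x p‖ := by
      intro p hp hpp
      unfold SBc at h3
      simp only [Set.mem_iUnion, not_exists] at h3
      have := h3 p (Finset.mem_filter.mpr ⟨hp, hpp⟩)
      simpa only [Set.mem_ofPred_eq, not_le, S_zero, sub_zero] using this
    -- a point of the shell and a point of the core
    have hmix : ∀ c d : ℤ, |c| ≤ P.w (j+1) → P.w (j+1) ≤ |d| → |d| ≤ P.w j →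
        2 * (P.sep j : ℤ) ≤ |d - c| → 5 * P.r n (j+1) ≤ ‖S x d - S x c‖ := by
      intro c d hc' hd1 hd2 hcd
      obtain ⟨p, hp, h6, h7⟩ := P.anchor hr.le _ (P.w1_eq (by omega)) h1 d hd1 hd2
      have h8 := P.inner' hn hj hup hc c hc'
      have h9 : (P.sep j : ℤ) ≤ |p| := by
        have t1 : |d - c| ≤ |d| + |c| := abs_sub d c
        have t2 : |d| ≤ |d - p| + |p| := by
          have := abs_add_le (d - p) p
          rwa [sub_add_cancel] at this
        omega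
      have h10 := h3' p hp h9
      have h11 : ‖S x p‖ ≤ ‖S x d - S x c‖ + ‖S x c‖ + ‖S x d - S x p‖ := by
        have e : S x p = (S x d - S x c) + S x c - (S x d - S x p) := by abel
        calc ‖S x p‖ = ‖(S x d - S x c) + S x c - (S x d - S x p)‖ := by rw [← e]
          _ ≤ ‖(S x d - S x c) + S x c‖ + ‖S x d - S x p‖ := norm_sub_le _ _
          _ ≤ _ := by have := norm_add_le (S x d - S x c) (S x c); linarith
      linarith
    rcases le_total |a| (P.w (j+1) : ℤ) with ca | ca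
    · rcases le_total |b| (P.w (j+1) : ℤ) with cb | cb
      · rw [abs_le] at ca cb
        omega
      · have := hmix a b ca cb hb (by rw [abs_of_nonneg (by omega)]; omega)
        linarith
    · rcases le_total |b| (P.w (j+1) : ℤ) with cb | cb
      · have := hmix b a cb ca ha (by rw [abs_sub_comm, abs_of_nonneg (by omega)]; omega)
        rw [norm_sub_rev] at this
        linarith
      · obtain ⟨p, hp, h6, h7⟩ := P.anchor hr.le _ (P.w1_eq (by omega)) h1 a ca ha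
        obtain ⟨q, hq, h8, h9⟩ := P.anchor hr.le _ (P.w1_eq (by omega)) h1 b cb hb
        have h10 := h2' p q hp hq (by
          rw [abs_le] at h7 h9
          omega)
        have h11 : ‖S x q - S x p‖ ≤ ‖S x b - S x a‖ + ‖S x a - S x p‖ + ‖S x b - S x q‖ := by
          have e : S x q - S x p = (S x b - S x a) + (S x a - S x p) - (S x b - S x q) := by abel
          calc ‖S x q - S x p‖ = ‖(S x b - S x a) + (S x a - S x p) - (S x b - S x q)‖ := by rw [← e]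
            _ ≤ ‖(S x b - S x a) + (S x a - S x p)‖ + ‖S x b - S x q‖ := norm_sub_le _ _
            _ ≤ _ := by have := norm_add_le (S x b - S x a) (S x a - S x p); linarith
        linarith
  rcases le_total u v with huv | huv
  · have := hpair u v huv hu hv (by rwa [norm_sub_rev])
    rw [abs_sub_comm, abs_of_nonneg (by omega)]
    exact this
  · have := hpair v u huv hv hu hs
    rw [abs_of_nonneg (by omega)]
    exact this

theorem Ru_small {n j : ℕ} (hn : 1 ≤ n) : 2 * P.Ru * P.r n (j+1) ≤ P.r n j / 8 := by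
  have hμ := P.hμ
  have hβμ := P.hβμ
  have hr0 := P.r_pos hn j
  rw [P.r_shift n j 1, mul_one]
  have h1 : 2 * P.Ru * 8 ≤ 2^P.β := by
    unfold Ru
    have e : (2:ℝ)^(P.μ + P.η + 10) = 1024 * 2^(P.μ + P.η) := by rw [pow_add]; ring
    have h2 : (2:ℝ)^(P.μ + P.η + 10) ≤ 2^P.β := pow_le_pow_right₀ (by norm_num) (by omega)
    have h3 : (0:ℝ) ≤ 2^(P.μ + P.η) := by positivity
    linarith
  rw [mul_div_assoc', div_le_div_iff₀ (by positivity) (by norm_num)]
  nlinarith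

theorem osc_of {n j : ℕ} (hn : 1 ≤ n) (hj : j < P.k) {x : ℤ → E n} (hown : x ∉ P.Fown n j)
    (hup : ∀ i, j < i → i < P.k → x ∉ P.Fup n i (i - j)) (hc : x ∉ P.Fcore n (P.k - j))
    (u v : ℤ) (hu : |u| ≤ P.w j) (hv : |v| ≤ P.w j) (hs : P.r n j / 2 < ‖S x u - S x v‖) :
    2^(P.Hc j) ≤ |u - v| := by
  by_contra hcon
  push Not at hcon
  have hr := P.r_pos hn (j+1)
  have hr0 := P.r_pos hn j
  have hexp := P.exp_le' (show j + 1 ≤ P.k + 1 by omega)
  unfold Fown at hown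
  rw [Set.mem_union, Set.mem_union, Set.mem_union, Set.mem_union, not_or, not_or, not_or, not_or] at hown
  obtain ⟨⟨⟨h1, -⟩, -, -⟩, -⟩ := hown
  have hH1 : 1 ≤ P.Hc j := by
    unfold Hc
    have := P.exp_le' (show j ≤ P.k + 1 by omega)
    have hμ := P.hμ
    have hβμ := P.hβμ
    omega
  have hratio := P.Ru_small (n := n) (j := j) hn
  -- points close to the edge of the core
  have hedge : ∀ (σ : Bool) (a : ℕ), a ≤ P.w j → a ≤ P.w (j+1) + 2^(P.Hc j) →
      ‖pm x σ a‖ ≤ 3 * (P.r n j / 32) + 2 * P.Ru * P.r n (j+1) := by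
    intro σ a ha1 ha2
    rcases Nat.lt_or_ge (P.w (j+1)) a with h2 | h2
    · have h3 := near (by positivity) (P.loOK (j+1)) hH1 (small_pm h1 σ) (P.w (j+1)) a le_rfl h2.le
        ha1 ha2
      have h4 := P.inner hn hup hc (P.k - (j+1)) (j+1) (by omega) le_rfl (P.w (j+1)) le_rfl σ
      have e : j + 1 - j - 1 = 0 := by omega
      rw [e, pow_zero, mul_one] at h4
      have h8 : ‖pm x σ a‖ ≤ ‖pm x σ a - pm x σ (P.w (j+1))‖ + ‖pm x σ (P.w (j+1))‖ := by
        have := norm_add_le (pm x σ a - pm x σ (P.w (j+1))) (pm x σ (P.w (j+1)))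
        rwa [sub_add_cancel] at this
      linarith
    · have h4 := P.inner hn hup hc (P.k - (j+1)) (j+1) (by omega) le_rfl a h2 σ
      have e : j + 1 - j - 1 = 0 := by omega
      rw [e, pow_zero, mul_one] at h4
      linarith
  obtain ⟨σ, hσ, hu'⟩ := pm_of x u
  obtain ⟨τ, hτ, hv'⟩ := pm_of x v
  have hua : u.natAbs ≤ P.w j := by rw [Int.abs_eq_natAbs] at hu; exact_mod_cast hu
  have hva : v.natAbs ≤ P.w j := by rw [Int.abs_eq_natAbs] at hv; exact_mod_cast hv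
  have hcast : ((2^(P.Hc j) : ℕ) : ℤ) = (2:ℤ)^(P.Hc j) := by push_cast; rfl
  rw [← hcast] at hcon
  -- same sign, both in the shell
  by_cases hsame : σ = τ ∧ P.w (j+1) ≤ u.natAbs ∧ P.w (j+1) ≤ v.natAbs
  · obtain ⟨rfl, hu1, hv1⟩ := hsame
    have hd : u.natAbs ≤ v.natAbs + 2^(P.Hc j) ∧ v.natAbs ≤ u.natAbs + 2^(P.Hc j) := by
      rw [abs_lt] at hcon
      cases σ
      · rw [if_neg (by simp)] at hu' hv'
        omega
      · rw [if_pos rfl] at hu' hv'
        omega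
    have h5 : ‖S x u - S x v‖ ≤ 3 * (P.r n j / 32) := by
      rw [hσ, hτ]
      rcases le_total u.natAbs v.natAbs with h | h
      · rw [norm_sub_rev]
        exact near (by positivity) (P.loOK (j+1)) hH1 (small_pm h1 σ) _ _ hu1 h hva hd.2
      · exact near (by positivity) (P.loOK (j+1)) hH1 (small_pm h1 σ) _ _ hv1 h hua hd.1
    linarith
  · have hd : u.natAbs ≤ P.w (j+1) + 2^(P.Hc j) ∧ v.natAbs ≤ P.w (j+1) + 2^(P.Hc j) := by
      rw [abs_lt] at hcon
      by_contra hcc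
      apply hsame
      have hcast2 : (0:ℤ) ≤ ((2^(P.Hc j) : ℕ) : ℤ) := Int.natCast_nonneg _
      generalize (2^(P.Hc j) : ℕ) = q at hcon hcc hcast2
      generalize u.natAbs = a at hu' hcc ⊢
      generalize v.natAbs = b at hv' hcc ⊢
      cases σ
      · cases τ
        · rw [if_neg (by simp)] at hu' hv'
          exact ⟨rfl, by omega, by omega⟩
        · rw [if_neg (by simp)] at hu'
          rw [if_pos rfl] at hv'
          exfalso
          omega
      · cases τ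
        · rw [if_neg (by simp)] at hv'
          rw [if_pos rfl] at hu'
          exfalso
          omega
        · rw [if_pos rfl] at hu' hv'
          exact ⟨rfl, by omega, by omega⟩
    have h5 := hedge σ u.natAbs hua hd.1
    have h6 := hedge τ v.natAbs hva hd.2
    have h7 := norm_sub_le (S x u) (S x v)
    rw [hσ, hτ] at h7
    rw [hσ, hτ] at hs
    linarith

/-! ### cut cells -/

theorem sep_LL {j : ℕ} (hj : j < P.k) : 2 * (P.sep j : ℤ) = P.LL * 2^(P.Hs j 1) := by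
  have hμ := P.hμ
  have hexp := P.exp_le' (show j + 1 ≤ P.k + 1 by omega)
  have h : 2 * P.sep j = P.LL * 2^(P.Hs j 1) := by
    unfold sep LL Hs
    rw [← pow_add, ← pow_succ']
    congr 1
    omega
  exact_mod_cast h

/-- multiples of the scale -/
theorem anc_mult {i H : ℕ} {p : ℤ} (h : p ∈ P.anc i H) : ∃ α : ℤ, p = α * 2^H := by
  obtain ⟨a, -, -, h3 | h3⟩ := P.mem_anc.mp h
  · exact ⟨a, by rw [h3]; push_cast; ring⟩
  · exact ⟨-a, by rw [h3]; push_cast; ring⟩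

theorem cut_of {n j : ℕ} (hn : 1 ≤ n) (hj : j < P.k) {x : ℤ → E n} (hown : x ∉ P.Fown n j)
    (hup : ∀ i, j < i → i < P.k → x ∉ P.Fup n i (i - j)) (hc : x ∉ P.Fcore n (P.k - j))
    {c a : ℤ} (hcb : 1 ≤ c ∨ c ≤ -2) (h1 : c * 2^P.KK ≤ a) (h2 : a < (c+1) * 2^P.KK)
    (hMB : x ∉ MB n (P.Hs j 1) P.θ P.LL (7 * P.r n (j+1)) a)
    (u v : ℤ) (hu : |u| ≤ P.w j) (hv : |v| ≤ P.w j)
    (hu2 : u ≤ a * (2^P.θ * 2^(P.Hs j 1))) (hv2 : (a + 1) * (2^P.θ * 2^(P.Hs j 1)) ≤ v) :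
    5 * P.r n (j+1) ≤ ‖S x u - S x v‖ := by
  by_contra hcon
  push Not at hcon
  have hsep := P.sep_of hn hj hown hup hc u v hu hv hcon
  rw [P.sep_LL hj] at hsep
  have hr := P.r_pos hn (j+1)
  have hθ : (0:ℤ) < 2^P.θ := by positivity
  have hH : (0:ℤ) < 2^(P.Hs j 1) := by positivity
  have hX := P.XX_eq
  have hXb := P.XX_big
  have g1 : c * P.XX ≤ a * 2^P.θ := by
    rw [← hX, ← mul_assoc]
    exact mul_le_mul_of_nonneg_right h1 hθ.le
  have g2 : (a + 1) * 2^P.θ ≤ (c+1) * P.XX := by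
    rw [← hX, ← mul_assoc]
    exact mul_le_mul_of_nonneg_right (by omega) hθ.le
  have hX0 : (0:ℤ) ≤ P.XX := Int.natCast_nonneg _
  have hXb' : (2:ℤ)^(2*P.μ + 12 + P.η) + 2 * P.LL + 4 * 2^P.θ + 8 ≤ P.XX := by exact_mod_cast hXb
  have hw1 : (P.w (j+1) : ℤ) = 2^(2*P.μ + 12 + P.η) * 2^(P.Hs j 1) := by
    rw [P.w1_eq (by omega)]
    push_cast
    ring
  have hL0 : (0:ℤ) ≤ P.LL := Int.natCast_nonneg _
  have hp0 : (0:ℤ) ≤ 2^(2*P.μ + 12 + P.η) := by positivity
  rw [abs_le] at hsep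
  -- both are in the shell
  have hshell : (P.w (j+1) : ℤ) ≤ |u| ∧ (P.w (j+1) : ℤ) ≤ |v| := by
    rw [hw1]
    exact geo_shell hH hθ hp0 hL0 hXb' g1 g2 hu2 hv2 hsep.1 hcb
  have hown' := hown
  unfold Fown at hown
  rw [Set.mem_union, Set.mem_union, Set.mem_union, Set.mem_union, not_or, not_or, not_or, not_or] at hown
  obtain ⟨⟨⟨-, hOE⟩, -, -⟩, -⟩ := hown
  obtain ⟨p, hp, h6, h7⟩ := P.anchor hr.le _ (P.w1_eq (by omega)) hOE u hshell.1 hu
  obtain ⟨q, hq, h8, h9⟩ := P.anchor hr.le _ (P.w1_eq (by omega)) hOE v hshell.2 hv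
  obtain ⟨α, rfl⟩ := P.anc_mult hp
  obtain ⟨γ, rfl⟩ := P.anc_mult hq
  rw [abs_le] at h7 h9
  have h11 : ‖S x (γ * 2^(P.Hs j 1)) - S x (α * 2^(P.Hs j 1))‖ ≤ 7 * P.r n (j+1) := by
    have e : S x (γ * 2^(P.Hs j 1)) - S x (α * 2^(P.Hs j 1)) =
        (S x u - S x (α * 2^(P.Hs j 1))) - (S x v - S x (γ * 2^(P.Hs j 1))) - (S x u - S x v) := by abel
    rw [e]
    have t1 := norm_sub_le ((S x u - S x (α * 2^(P.Hs j 1))) - (S x v - S x (γ * 2^(P.Hs j 1)))) (S x u - S x v)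
    have t2 := norm_sub_le (S x u - S x (α * 2^(P.Hs j 1))) (S x v - S x (γ * 2^(P.Hs j 1)))
    linarith
  -- the indices
  obtain ⟨k1, k2, k3, k4⟩ := geo_idx hH hu2 hv2 hsep.1 h7.1 h7.2 h9.1 h9.2
  apply hMB
  unfold MB
  simp only [Set.mem_iUnion]
  have e3 : (a + 1) * (2:ℤ)^P.θ = a * 2^P.θ + 2^P.θ := by ring
  refine ⟨((a * 2^P.θ + 1 - α).toNat, (γ - (a+1) * 2^P.θ + 1).toNat), ?_, ?_⟩
  · rw [Finset.mem_product, Finset.mem_range, Finset.mem_range]
    constructor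
    · show (a * 2^P.θ + 1 - α).toNat < _
      rw [e3] at k3
      omega
    · show (γ - (a+1) * 2^P.θ + 1).toNat < _
      rw [e3] at k2 ⊢
      omega
  · have e1 : (((a * 2^P.θ + 1 - α).toNat : ℕ) : ℤ) = a * 2^P.θ + 1 - α := Int.toNat_of_nonneg (by omega)
    have e2 : (((γ - (a+1) * 2^P.θ + 1).toNat : ℕ) : ℤ) = γ - (a+1) * 2^P.θ + 1 :=
      Int.toNat_of_nonneg (by omega)
    show ‖S x (((a+1) * 2^P.θ - 1 + (((γ - (a+1) * 2^P.θ + 1).toNat : ℕ) : ℤ)) * 2^(P.Hs j 1)) -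
      S x ((a * 2^P.θ + 1 - (((a * 2^P.θ + 1 - α).toNat : ℕ) : ℤ)) * 2^(P.Hs j 1))‖ ≤ _
    rw [e1, e2]
    have e4 : (a+1) * (2:ℤ)^P.θ - 1 + (γ - (a+1) * 2^P.θ + 1) = γ := by ring
    have e5 : a * (2:ℤ)^P.θ + 1 - (a * 2^P.θ + 1 - α) = α := by ring
    rw [e4, e5]
    exact h11

open Classical in
/-- at least half of the cells of a block are not crossed -/
theorem good_cells {n j : ℕ} {x : ℤ → E n} (hown : x ∉ P.Fown n j) {c : ℤ} (hc : c ∈ P.blk) :
    P.mm * P.RR ≤ ((Finset.Ico (c * 2^P.KK) ((c+1) * 2^P.KK)).filter fun a =>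
      x ∉ MB n (P.Hs j 1) P.θ P.LL (7 * P.r n (j+1)) a).card := by
  unfold Fown at hown
  rw [Set.mem_union, not_or] at hown
  have hBB := hown.2
  unfold BB at hBB
  simp only [Set.mem_iUnion, not_exists] at hBB
  have hKK : (2:ℤ)^P.KK = 2 * P.mm * P.RR := by exact_mod_cast P.KK_eq
  obtain ⟨I, hI⟩ : ∃ I : Finset ℤ, I = Finset.Ico (c * 2^P.KK) ((c+1) * 2^P.KK) := ⟨_, rfl⟩
  have hIc : I.card = 2 * P.mm * P.RR := by
    rw [hI, Int.card_Ico]
    have : (c+1) * (2:ℤ)^P.KK - c * 2^P.KK = ((2 * P.mm * P.RR : ℕ) : ℤ) := by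
      rw [← sub_mul, hKK]
      push_cast
      ring
    rw [this, Int.toNat_natCast]
  rw [← hI]
  have hRR : 0 < P.RR := by unfold RR; positivity
  have hsub : (I.filter fun a => ¬ x ∉ MB n (P.Hs j 1) P.θ P.LL (7 * P.r n (j+1)) a) ⊆
      (Finset.range P.RR).biUnion fun ρ => ((Finset.range (2 * P.mm)).filter fun t =>
        x ∈ MB n (P.Hs j 1) P.θ P.LL (7 * P.r n (j+1)) (P.cl c ρ t)).image (P.cl c ρ) := by
    intro a ha
    rw [Finset.mem_filter, not_not, hI, Finset.mem_Ico] at ha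
    obtain ⟨⟨ha1, ha2⟩, ha3⟩ := ha
    obtain ⟨d, hd⟩ : ∃ d : ℕ, (d : ℤ) = a - c * 2^P.KK := ⟨(a - c * 2^P.KK).toNat, by
      rw [Int.toNat_of_nonneg (by omega)]⟩
    have hd2 : d < 2 * P.mm * P.RR := by
      have : (d:ℤ) < ((2 * P.mm * P.RR : ℕ) : ℤ) := by
        rw [hd]
        push_cast
        rw [← hKK]
        have : (c + 1) * (2:ℤ)^P.KK = c * 2^P.KK + 2^P.KK := by ring
        linarith
      exact_mod_cast this
    have hcl : P.cl c (d % P.RR) (d / P.RR) = a := by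
      unfold cl
      have : ((d % P.RR + P.RR * (d / P.RR) : ℕ) : ℤ) = d := by rw [Nat.mod_add_div]
      push_cast at this
      push_cast
      linarith
    rw [Finset.mem_biUnion]
    refine ⟨d % P.RR, Finset.mem_range.mpr (Nat.mod_lt _ hRR), ?_⟩
    rw [Finset.mem_image]
    refine ⟨d / P.RR, ?_, hcl⟩
    rw [Finset.mem_filter, Finset.mem_range, hcl]
    exact ⟨(Nat.div_lt_iff_lt_mul hRR).mpr hd2, ha3⟩
  have hcard : (I.filter fun a => ¬ x ∉ MB n (P.Hs j 1) P.θ P.LL (7 * P.r n (j+1)) a).card ≤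
      P.RR * P.mm := by
    refine (Finset.card_le_card hsub).trans (Finset.card_biUnion_le.trans ?_)
    refine (Finset.sum_le_card_nsmul _ _ P.mm ?_).trans ?_
    · intro ρ hρ
      refine Finset.card_image_le.trans ?_
      have h1 := not_CB (hBB (c, ρ) (Finset.mem_product.mpr ⟨hc, hρ⟩))
      exact h1.le
    · rw [Finset.card_range, smul_eq_mul]
  have htot := Finset.card_filter_add_card_filter_not (s := I)
    (fun a => x ∉ MB n (P.Hs j 1) P.θ P.LL (7 * P.r n (j+1)) a)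
  rw [hIc] at htot
  have e : 2 * P.mm * P.RR = P.mm * P.RR + P.RR * P.mm := by ring
  rw [e] at htot
  omega

theorem cross_ord {n j : ℕ} (hn : 1 ≤ n) (hj : j < P.k) {x : ℤ → E n} (hown : x ∉ P.Fown n j)
    (hup : ∀ i, j < i → i < P.k → x ∉ P.Fup n i (i - j)) (hc : x ∉ P.Fcore n (P.k - j))
    (t : ℕ) (c : ℕ → ℤ) (hw : ∀ i ≤ t, |c i| ≤ P.w j)
    (hs : ∀ i < t, ‖S x (c i) - S x (c (i+1))‖ < 5 * P.r n (j+1))
    (hd : c 0 + 2^(P.Hc j - 1) ≤ c t) : 2^(P.KK - 1) ≤ t + 1 := by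
  classical
  have hμ := P.hμ
  have hexp := P.exp_le' (show j + 1 ≤ P.k + 1 by omega)
  have hexp' := P.exp_le' (show j ≤ P.k + 1 by omega)
  have hlpos : (0:ℤ) < 2^(P.ll j) := by positivity
  have hHc : (2:ℤ)^(P.Hc j - 1) = 8 * 2^(P.ll j) := by
    have : (8:ℤ) = 2^3 := by norm_num
    rw [this, ← pow_add]
    congr 1
    unfold Hc ll
    omega
  rw [hHc] at hd
  have hwj : (P.w j : ℤ) = P.Om * 2^(P.ll j) := by
    rw [P.Om_eq (by omega)]
    push_cast
    ring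
  -- the block
  obtain ⟨c1, hc1⟩ : ∃ c1 : ℤ, c1 = c 0 / 2^(P.ll j) + 1 := ⟨_, rfl⟩
  have b1 : c 0 ≤ c1 * 2^(P.ll j) := by
    have := Int.lt_ediv_add_one_mul_self (c 0) hlpos
    rw [← hc1] at this
    exact this.le
  have b2 : c1 * 2^(P.ll j) ≤ c 0 + 2^(P.ll j) := by
    have := Int.ediv_mul_le (c 0) hlpos.ne'
    rw [hc1, add_mul, one_mul]
    linarith
  have hw0 := hw 0 (Nat.zero_le _)
  have hwt := hw t le_rfl
  rw [abs_le, hwj] at hw0 hwt
  have b3 : -(P.Om : ℤ) < c1 := by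
    have : -(P.Om : ℤ) ≤ c 0 / 2^(P.ll j) := by
      rw [Int.le_ediv_iff_mul_le hlpos]
      linarith [hw0.1]
    omega
  have b4 : c1 + 7 ≤ P.Om := by
    have : (c1 + 7) * 2^(P.ll j) ≤ P.Om * 2^(P.ll j) := by linarith [hwt.2]
    exact le_of_mul_le_mul_right this hlpos
  obtain ⟨cc, hcc1, hcc2, hcc3⟩ : ∃ cc : ℤ, c1 ≤ cc ∧ cc ≤ c1 + 2 ∧ (1 ≤ cc ∨ cc ≤ -2) := by
    by_cases h : 1 ≤ c1 ∨ c1 ≤ -2
    · exact ⟨c1, le_rfl, by omega, h⟩
    · exact ⟨c1 + 2, by omega, le_rfl, by omega⟩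
  have hblk : cc ∈ P.blk := P.mem_blk.mpr ⟨⟨by omega, by omega⟩, hcc3⟩
  have hgood := P.good_cells hown hblk
  -- the scales
  have hθH : (0:ℤ) < 2^P.θ * 2^(P.Hs j 1) := by positivity
  have hll : (2:ℤ)^(P.ll j) = 2^P.KK * (2^P.θ * 2^(P.Hs j 1)) := by
    rw [← mul_assoc, P.XX_eq]
    exact_mod_cast P.ll_eq (show j + 1 ≤ P.k by omega)
  have hK : 2^(P.KK - 1) = P.mm * P.RR := by
    have h1 := P.KK_eq
    have h2 : 2^P.KK = 2 * 2^(P.KK - 1) := by
      rw [← pow_succ']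
      congr 1
      unfold KK
      omega
    rw [h2, mul_assoc] at h1
    omega
  rw [hK]
  refine hgood.trans ?_
  have hsub : ((Finset.Ico (cc * 2^P.KK) ((cc+1) * 2^P.KK)).filter fun a =>
      x ∉ MB n (P.Hs j 1) P.θ P.LL (7 * P.r n (j+1)) a) ⊆
      (Finset.range (t+1)).image fun i => c i / (2^P.θ * 2^(P.Hs j 1)) := by
    intro a ha
    rw [Finset.mem_filter, Finset.mem_Ico] at ha
    obtain ⟨⟨ha1, ha2⟩, ha3⟩ := ha
    obtain ⟨m1, m2, m3⟩ := geo_cell hlpos hθH hll b1 b2 hd hcc1 hcc2 ha1 ha2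
    obtain ⟨i, hi, h1, h2⟩ := chain_hits c t (a * (2^P.θ * 2^(P.Hs j 1)))
      ((a + 1) * (2^P.θ * 2^(P.Hs j 1))) m1 m2 m3 (by
        rintro i hi ⟨h1, h2⟩
        have h3 := P.cut_of hn hj hown hup hc hcc3 ha1 ha2 ha3 (c i) (c (i+1)) (hw i (by omega))
          (hw (i+1) (by omega)) h1 h2
        have h4 := hs i hi
        linarith)
    rw [Finset.mem_image]
    refine ⟨i, Finset.mem_range.mpr (by omega), ?_⟩
    apply le_antisymm
    · have : c i / (2^P.θ * 2^(P.Hs j 1)) < a + 1 := (Int.ediv_lt_iff_lt_mul hθH).mpr h2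
      omega
    · exact (Int.le_ediv_iff_mul_le hθH).mpr h1.le
  refine (Finset.card_le_card hsub).trans (Finset.card_image_le.trans ?_)
  rw [Finset.card_range]

theorem cross_of {n j : ℕ} (hn : 1 ≤ n) (hj : j < P.k) {x : ℤ → E n} (hown : x ∉ P.Fown n j)
    (hup : ∀ i, j < i → i < P.k → x ∉ P.Fup n i (i - j)) (hc : x ∉ P.Fcore n (P.k - j))
    (t : ℕ) (c : ℕ → ℤ) (hw : ∀ i ≤ t, |c i| ≤ P.w j)
    (hs : ∀ i < t, ‖S x (c i) - S x (c (i+1))‖ < 5 * P.r n (j+1))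
    (hd : 2^(P.Hc j - 1) ≤ |c 0 - c t|) : 2^(P.KK - 1) ≤ t + 1 := by
  rcases le_total (c 0) (c t) with h | h
  · apply P.cross_ord hn hj hown hup hc t c hw hs
    rw [abs_of_nonpos (by omega)] at hd
    linarith
  · apply P.cross_ord hn hj hown hup hc t (fun i => c (t - i)) (fun i hi => hw _ (by omega))
    · intro i hi
      show ‖S x (c (t - i)) - S x (c (t - (i+1)))‖ < _
      have h1 := hs (t - (i+1)) (by omega)
      have e : t - (i+1) + 1 = t - i := by omega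
      rw [e, norm_sub_rev] at h1
      exact h1
    · show c (t - 0) + _ ≤ c (t - t)
      rw [Nat.sub_zero, Nat.sub_self]
      rw [abs_of_nonneg (by omega)] at hd
      linarith

/-- **attribution** -/
theorem good_of {n j : ℕ} (hn : 1 ≤ n) (hj : j < P.k) {x : ℤ → E n}
    (hdown : ∀ i < j, x ∉ P.Fdown n i (j - i)) (hown : x ∉ P.Fown n j)
    (hup : ∀ i, j < i → i < P.k → x ∉ P.Fup n i (i - j)) (hc : x ∉ P.Fcore n (P.k - j)) :
    P.GG n j x where
  ret u hu hs := P.ret_of hn hj hdown u hu hs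
  cross t c hw hs hd := P.cross_of hn hj hown hup hc t c hw hs hd
  osc u v hu hv hs := P.osc_of hn hj hown hup hc u v hu hv hs

end PN

end Pool.Agent.J6H8.CDim
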