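import Pool.Agent.J6H8.CDim.Chern

/-!
The events of the blocks and their conditional probabilities (windows of size `2 ^ (2 μ)`, where the
ratio of the radii is `2 ^ (4 μ)`).
-/

set_option autoImplicit false

namespace Pool.Agent.J6H8.CDim

open MeasureTheory ProbabilityTheory
open scoped NNReal ENNReal
open Pool.Agent.R966.CD (Par E gam S Q S_sub measurable_S Q_eq Q_biUnion Q_union Q_small Q_OE OE
  measurable_OE Q_mono)

/-- parameters: resolution `2 ^ (-M)`, ratio of the radii `2 ^ (4 μ)`, number of levels `k` -/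
structure PN extends Par where
  M : ℕ
  μ : ℕ
  η : ℕ
  hβμ : β = 4 * μ
  hM : N + 12 = M + 2 * μ
  hη : 4 * μ ≤ 2^η
  hμ : 100 * (η + 10) ≤ μ
  hMN : 2 * β * (k + 2) + 2 * k + 100 + 2 * η ≤ M

/-- small ball estimate for a block, with a general variance -/
theorem Q_sb (P : Par) (v : ℝ≥0) {n : ℕ} (i : ℕ) (hi : i + 1 ≤ P.k) {u w : ℤ} (h1 : -(P.w i : ℤ) ≤ u)
    (h2 : w ≤ P.w i) (d : ℕ) (hd : P.w (i+1) ≤ d) (h3 : u + d ≤ w) (ρ m : ℝ) (hm : 0 < m)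
    (hρ : 0 < ρ) (h : 6 * m^2 * ρ^2 ≤ n * (d * v)) (x : ℤ → E n) :
    Q n v (P.A i) {x | ‖S x w - S x u‖ ≤ ρ} x ≤ ENNReal.ofReal ((1/m)^n) := by
  have hw1 := P.four_w (show i + 1 + 1 ≤ P.k + 1 by omega)
  have hv : (0:ℝ) ≤ v := v.2
  refine Q_small v (P.A i) (by omega) ρ ((d:ℝ)/2 * v) m hm hρ ?_ ?_ x
  · apply mul_le_mul_of_nonneg_right _ hv
    refine le_trans ?_ (P.card_inter i h1 h2)
    have e1 : (d : ℝ) ≤ ((w - u : ℤ) : ℝ) := by exact_mod_cast (by omega : (d : ℤ) ≤ w - u)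
    have e2 : 4 * (P.w (i+2) : ℝ) ≤ P.w (i+1) := by exact_mod_cast hw1
    have e3 : (P.w (i+1) : ℝ) ≤ d := by exact_mod_cast hd
    linarith
  · have : (n:ℝ) * ((d:ℝ)/2 * v) = n * (d * v) / 2 := by ring
    rw [this]
    linarith

/-- anchors as endpoints -/
theorem Q_anc (P : Par) (v : ℝ≥0) {n : ℕ} (i H : ℕ) (hi : i + 1 ≤ P.k) {p : ℤ}
    (hp : p ∈ P.anc i H)
    (d : ℕ) (hd : P.w (i+1) ≤ d) (hdp : (d : ℤ) ≤ |p|) (ρ m : ℝ) (hm : 0 < m)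
    (hρ : 0 < ρ) (h : 6 * m^2 * ρ^2 ≤ n * (d * v)) (x : ℤ → E n) :
    Q n v (P.A i) {x | ‖S x p - S x 0‖ ≤ ρ} x ≤ ENNReal.ofReal ((1/m)^n) := by
  obtain ⟨h1, h2⟩ := P.anc_abs hp
  rcases le_total 0 p with hp0 | hp0
  · rw [abs_of_nonneg hp0] at h1 h2 hdp
    exact Q_sb P v i hi (by omega) h2 d hd (by omega) ρ m hm hρ h x
  · rw [abs_of_nonpos hp0] at h1 h2 hdp
    have e : {x : ℤ → E n | ‖S x p - S x 0‖ ≤ ρ} = {x | ‖S x 0 - S x p‖ ≤ ρ} := by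
      ext y
      simp only [Set.mem_ofPred_eq]
      rw [norm_sub_rev]
    rw [e]
    exact Q_sb P v i hi (by omega) (by omega) d hd (by omega) ρ m hm hρ h x

theorem expo_bound (n c : ℕ) (hn : 100 ≤ n) : Real.exp (-(7 * (c:ℝ) * n)) ≤ (1/2 : ℝ)^(200*c) := by
  refine (Par.exp_bound n c).trans ?_
  have h1 : (1/4 : ℝ)^(c*n) ≤ (1/4 : ℝ)^(c*100) :=
    pow_le_pow_of_le_one (by norm_num) (by norm_num) (Nat.mul_le_mul_left _ hn)
  refine h1.trans (le_of_eq ?_)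
  have : (1/4 : ℝ) = (1/2)^2 := by norm_num
  rw [this, ← pow_mul]
  congr 1
  ring

/-- powers of two: the general comparison -/
theorem pow_cmp (a b c : ℕ) (h : a + c ≤ b) : (2:ℝ)^a * (1/2)^b ≤ (1/2)^c := by
  obtain ⟨d, rfl⟩ : ∃ d, b = a + c + d := ⟨b - (a + c), by omega⟩
  rw [pow_add, pow_add]
  have h1 : (2:ℝ)^a * (1/2)^a = 1 := by rw [← mul_pow]; norm_num
  have h2 : (1/2:ℝ)^d ≤ 1 := pow_le_one₀ (by norm_num) (by norm_num)
  have h3 : (0:ℝ) ≤ (1/2)^c := by positivity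
  calc (2:ℝ)^a * ((1/2)^a * (1/2)^c * (1/2)^d) = ((2:ℝ)^a * (1/2)^a) * ((1/2)^c * (1/2)^d) := by ring
    _ = (1/2)^c * (1/2)^d := by rw [h1, one_mul]
    _ ≤ (1/2)^c * 1 := mul_le_mul_of_nonneg_left h2 h3
    _ = _ := mul_one _

theorem sb_pow (a n : ℕ) (hn : 100 ≤ n) : (1 / (2:ℝ)^a)^n ≤ (1/2)^(100*a) := by
  have h1 : (1 / (2:ℝ)^a) = (1/2)^a := by rw [div_pow, one_pow]
  rw [h1, ← pow_mul]
  apply pow_le_pow_of_le_one (by norm_num) (by norm_num)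
  rw [mul_comm 100 a]
  exact Nat.mul_le_mul_left _ hn

namespace PN

variable (P : PN)

/-- variance of a cell -/
noncomputable def vv : ℝ≥0 := ((2:ℝ≥0)^P.M)⁻¹

theorem vv_pos : 0 < P.vv := by unfold vv; positivity

/-- scale of the cells for the returns -/
def Hs (i l : ℕ) : ℕ := P.M - 2*P.β*(i+l) - 11 - P.η - l

/-- scale of the cells for the oscillations -/
def Hc (i : ℕ) : ℕ := P.M - 2*P.β*i - 21 - P.η

/-- half of the separation scale -/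
def sep (i : ℕ) : ℕ := 2^(P.M + 4*P.μ - 2*P.β*(i+1))

/-- radius of the oscillations of the inner blocks -/
noncomputable def Ru : ℝ := 48 * 2^(P.μ + P.η)

theorem Ru_pos : 0 < P.Ru := by unfold Ru; positivity

/-- cells of the blocks: `2 ^ θ` anchors -/
def θ : ℕ := 2 * P.η + 50

/-- range of the middle returns, in anchors -/
def LL : ℕ := 2^(4*P.μ + 13 + P.η)

/-- spacing of the cells of a class -/
def RR : ℕ := 2^(4*P.μ - 35 - P.η)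

/-- logarithm of the number of cells of a block -/
def KK : ℕ := 8 * P.μ - 63 - 2 * P.η

/-- half of the number of cells of a class -/
def mm : ℕ := 2^(4*P.μ - 29 - P.η)

/-- number of blocks of one side -/
def Om : ℕ := 2^(2*P.μ + 25 + P.η)

/-- scale of the blocks -/
def ll (i : ℕ) : ℕ := P.M - 2*P.β*i - 25 - P.η

theorem exp_le' {i : ℕ} (h : i ≤ P.k + 1) : 2*P.β*i + 2 * P.β + 2 * P.k + 100 + 2 * P.η ≤ P.M := by
  have h1 := P.hMN
  have h2 : 2*P.β*i ≤ 2*P.β*(P.k+1) := Nat.mul_le_mul_left _ h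
  have h3 : 2 * P.β * (P.k + 2) = 2*P.β*(P.k+1) + 2 * P.β := by ring
  omega

theorem w_eq (i : ℕ) : P.w i = 2^(P.M + 2*P.μ - 2*P.β*i) := by
  unfold Par.w
  rw [P.hM]

theorem w_real {i : ℕ} (h : i ≤ P.k + 1) : (P.w i : ℝ) * P.vv = 2^(2*P.μ) / 2^(2*P.β*i) := by
  rw [w_eq]
  unfold vv
  have h1 := P.exp_le' h
  push_cast
  obtain ⟨c, hc⟩ : ∃ c, P.M = 2*P.β*i + c := ⟨P.M - 2*P.β*i, by omega⟩
  have e1 : P.M + 2*P.μ - 2*P.β*i = c + 2*P.μ := by omega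
  rw [e1, hc, pow_add, pow_add]
  field_simp

/-- small balls: returns to the centre -/
def SBd (n i l : ℕ) : Set (ℤ → E n) :=
  ⋃ p ∈ P.anc i (P.Hs i l), {x | ‖S x p - S x 0‖ ≤ 6 * P.r n (i+l)}

/-- small balls: pairs -/
def SBp (n i : ℕ) : Set (ℤ → E n) :=
  ⋃ pq ∈ ((P.anc i (P.Hs i 1)) ×ˢ (P.anc i (P.Hs i 1))).filter fun pq : ℤ × ℤ => pq.1 + (P.sep i : ℤ) ≤ pq.2,
    {x | ‖S x pq.2 - S x pq.1‖ ≤ 7 * P.r n (i+1)}

/-- small balls: from the centre to a far cell -/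
def SBc (n i : ℕ) : Set (ℤ → E n) :=
  ⋃ p ∈ (P.anc i (P.Hs i 1)).filter fun p : ℤ => (P.sep i : ℤ) ≤ |p|,
    {x | ‖S x p - S x 0‖ ≤ (2 * P.Ru + 6) * P.r n (i+1)}

/-- the blocks -/
noncomputable def blk : Finset ℤ := (Finset.Ioo (-(P.Om : ℤ)) ((P.Om : ℤ) - 1)).filter fun c => 1 ≤ c ∨ c ≤ -2

/-- the cells of a class -/
def cl (c : ℤ) (ρ t : ℕ) : ℤ := c * 2^P.KK + ρ + P.RR * t

/-- many cells of a class are crossed by near returns -/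
def BB (n i : ℕ) : Set (ℤ → E n) :=
  ⋃ p ∈ P.blk ×ˢ Finset.range P.RR,
    CB (fun t => MB n (P.Hs i 1) P.θ P.LL (7 * P.r n (i+1)) (P.cl p.1 p.2 t)) P.mm

/-- block `i` spoils the level `i + l` -/
def Fdown (n i l : ℕ) : Set (ℤ → E n) :=
  OE n (P.w (i+1)) (P.w i) (P.Hs i l) (P.r n (i+l)) ∪ P.SBd n i l

/-- block `i` spoils the level `i - l` -/
def Fup (n i l : ℕ) : Set (ℤ → E n) :=
  OE n (P.w (i+1)) (P.w i) (P.N + 13 - 2*P.β*i) (P.Ru * P.r n i * ((2:ℝ)^P.β / 2)^(l-1))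

/-- block `i` spoils the level `i` -/
def Fown (n i : ℕ) : Set (ℤ → E n) :=
  ((OE n (P.w (i+1)) (P.w i) (P.Hc i) (P.r n i / 32) ∪
    OE n (P.w (i+1)) (P.w i) (P.Hs i 1) (P.r n (i+1))) ∪ (P.SBp n i ∪ P.SBc n i)) ∪ P.BB n i

/-- the core spoils the level `k - l` -/
def Fcore (n l : ℕ) : Set (ℤ → E n) :=
  OE n 0 (P.w P.k) (P.N + 13 - 2*P.β*P.k) (P.Ru * P.r n P.k * ((2:ℝ)^P.β / 2)^(l-1))

/-- the event of the block `i` -/
def F (n i l : ℕ) : Set (ℤ → E n) :=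
  ((if i + l ≤ P.k then P.Fdown n i l else ∅) ∪ P.Fup n i l) ∪ (if l = 1 ∧ i + 1 ≤ P.k then P.Fown n i else ∅)

theorem measurable_F (n i l : ℕ) : MeasurableSet (P.F n i l) := by
  unfold F Fdown Fup Fown SBd SBp SBc BB
  refine MeasurableSet.union (MeasurableSet.union ?_ (measurable_OE _ _ _ _ _)) ?_
  · split
    · refine MeasurableSet.union (measurable_OE _ _ _ _ _) ?_
      exact Finset.measurableSet_biUnion _ fun p _ => Par.measurable_ball n _ _ _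
    · exact MeasurableSet.empty
  · split
    · refine MeasurableSet.union (MeasurableSet.union (MeasurableSet.union (measurable_OE _ _ _ _ _)
        (measurable_OE _ _ _ _ _)) (MeasurableSet.union ?_ ?_)) ?_
      · exact Finset.measurableSet_biUnion _ fun p _ => Par.measurable_ball n _ _ _
      · exact Finset.measurableSet_biUnion _ fun p _ => Par.measurable_ball n _ _ _
      · exact Finset.measurableSet_biUnion _ fun p _ =>
          measurable_CB _ (fun t => measurable_MB _ _ _ _ _ _) _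
    · exact MeasurableSet.empty

theorem measurable_Fcore (n l : ℕ) : MeasurableSet (P.Fcore n l) := measurable_OE _ _ _ _ _

/-! ### conditional probabilities -/

/-- the target of each term -/
noncomputable def tt (l : ℕ) : ℝ := (1/2 : ℝ)^(80*P.μ*l + 3)

theorem scale_s {i l : ℕ} (hil : i + l ≤ P.k + 1) (hl : l ≤ P.k + 1) :
    (2:ℝ)^(P.Hs i l) * P.vv = 1 / (2^(2*P.β*(i+l)) * 2^(11 + P.η + l)) := by
  unfold Hs vv
  have h1 := P.exp_le' hil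
  push_cast
  obtain ⟨c, hc⟩ : ∃ c, P.M = 2*P.β*(i+l) + (11 + P.η + l) + c :=
    ⟨P.M - (2*P.β*(i+l) + (11 + P.η + l)), by omega⟩
  have e1 : P.M - 2*P.β*(i+l) - 11 - P.η - l = c := by omega
  rw [e1, hc, pow_add 2 (2*P.β*(i+l) + (11 + P.η + l)) c, pow_add 2 (2*P.β*(i+l)) (11 + P.η + l)]
  field_simp

theorem count_s {i l : ℕ} (hil : i + l ≤ P.k + 1) (hl : l ≤ P.k + 1) :
    P.w i = 2^(2*P.μ + 11 + P.η + l + 2*P.β*l) * 2^(P.Hs i l) := by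
  rw [w_eq]
  unfold Hs
  have h1 := P.exp_le' hil
  rw [← pow_add]
  congr 1
  have : 2*P.β*(i+l) = 2*P.β*i + 2*P.β*l := by ring
  omega

theorem Q_OEd {n : ℕ} (hn : 100 ≤ n) (i l : ℕ) (hl : 1 ≤ l) (hil : i + l ≤ P.k) (x : ℤ → E n) :
    Q n P.vv (P.A i) (OE n (P.w (i+1)) (P.w i) (P.Hs i l) (P.r n (i+l))) x ≤
      ENNReal.ofReal (P.tt l) := by
  have hμ := P.hμ
  have hβμ := P.hβμ
  have hml : 1000 * l ≤ P.μ * l := Nat.mul_le_mul_right _ (by omega)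
  have hml2 : P.μ ≤ P.μ * l := Nat.le_mul_of_pos_right _ hl
  have hy : (1:ℝ) ≤ ((4*P.μ*l : ℕ) : ℝ) := by
    have : 1 ≤ 4*P.μ*l := by
      have : 4*P.μ*l = 4*(P.μ*l) := by ring
      omega
    exact_mod_cast this
  refine (Q_OE P.vv_pos (P.r_pos (by omega) _).le (P.shell_sub i (by omega)) ((4*P.μ*l : ℕ) : ℝ) hy
    (by omega) ?_ x).trans ?_
  · rw [P.scale_s (by omega) (by omega), P.r_sq]
    have h1 : (1152:ℝ) * ((4*P.μ*l : ℕ) : ℝ) ≤ 2^(11 + P.η + l) := by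
      have h2 : 1152 * (4*P.μ*l) ≤ 2^(11 + P.η + l) := by
        have h3 : l ≤ 2^l := Nat.lt_two_pow_self.le
        have h4 : 4*P.μ*l ≤ 2^P.η * 2^l := Nat.mul_le_mul P.hη h3
        calc 1152 * (4*P.μ*l) ≤ 2^11 * (2^P.η * 2^l) := Nat.mul_le_mul (by norm_num) h4
          _ = 2^(11 + P.η + l) := by rw [pow_add, pow_add]; ring
      exact_mod_cast h2
    have h2 : (0:ℝ) < 2^(2*P.β*(i+l)) := by positivity
    rw [mul_one_div, div_le_div_iff₀ (by positivity) h2]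
    have hn0 : (0:ℝ) ≤ n := Nat.cast_nonneg n
    calc 1152 * ((4*P.μ*l : ℕ) : ℝ) * n * 2^(2*P.β*(i+l)) =
          (1152 * ((4*P.μ*l : ℕ) : ℝ)) * (n * 2^(2*P.β*(i+l))) := by ring
      _ ≤ 2^(11 + P.η + l) * (n * 2^(2*P.β*(i+l))) := mul_le_mul_of_nonneg_right h1 (by positivity)
      _ = _ := by ring
  · apply ENNReal.ofReal_le_ofReal
    have h4 : (P.w i : ℝ) / 2^(P.Hs i l) = 2^(2*P.μ + 11 + P.η + l + 2*P.β*l) := by
      rw [P.count_s (show i + l ≤ P.k + 1 by omega) (by omega)]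
      push_cast
      field_simp
    rw [h4]
    have h5 := expo_bound n (4*P.μ*l) hn
    have h6 : 2*P.μ + 11 + P.η + l + 2*P.β*l + 1 + (80*P.μ*l + 3) ≤ 200*(4*P.μ*l) := by
      rw [hβμ]
      have e1 : 2*(4*P.μ)*l = 8*(P.μ*l) := by ring
      have e2 : 80*P.μ*l = 80*(P.μ*l) := by ring
      have e3 : 200*(4*P.μ*l) = 800*(P.μ*l) := by ring
      rw [e1, e2, e3]
      omega
    calc 2 * (2:ℝ)^(2*P.μ + 11 + P.η + l + 2*P.β*l) * Real.exp (-(7 * ((4*P.μ*l : ℕ) : ℝ) * n))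
        ≤ 2 * (2:ℝ)^(2*P.μ + 11 + P.η + l + 2*P.β*l) * (1/2 : ℝ)^(200*(4*P.μ*l)) :=
          mul_le_mul_of_nonneg_left h5 (by positivity)
      _ = (2:ℝ)^(2*P.μ + 11 + P.η + l + 2*P.β*l + 1) * (1/2 : ℝ)^(200*(4*P.μ*l)) := by
          rw [pow_succ (2:ℝ) (2*P.μ + 11 + P.η + l + 2*P.β*l)]; ring
      _ ≤ _ := pow_cmp _ _ _ h6

theorem card_anc_real {i l : ℕ} (hl : 1 ≤ l) (hil : i + l ≤ P.k) :
    ((P.anc i (P.Hs i l)).card : ℝ) ≤ 2^(2*P.μ + 13 + P.η + l + 2*P.β*l) := by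
  have h1 := P.card_anc i (P.Hs i l)
  have h2 : P.w i / 2^(P.Hs i l) = 2^(2*P.μ + 11 + P.η + l + 2*P.β*l) := by
    rw [P.count_s (show i + l ≤ P.k + 1 by omega) (by omega)]
    exact Nat.mul_div_cancel _ (by positivity)
  rw [h2] at h1
  have h3 : 1 ≤ 2^(2*P.μ + 11 + P.η + l + 2*P.β*l) := Nat.one_le_two_pow
  have h4 : (P.anc i (P.Hs i l)).card ≤ 2^(2*P.μ + 13 + P.η + l + 2*P.β*l) := by
    have : 2*P.μ + 13 + P.η + l + 2*P.β*l = (2*P.μ + 11 + P.η + l + 2*P.β*l) + 2 := by ring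
    rw [this, pow_add]
    omega
  exact_mod_cast h4

theorem Q_SBd {n : ℕ} (hn : 100 ≤ n) (i l : ℕ) (hl : 1 ≤ l) (hil : i + l ≤ P.k) (x : ℤ → E n) :
    Q n P.vv (P.A i) (P.SBd n i l) x ≤ ENNReal.ofReal (P.tt l) := by
  have hμ := P.hμ
  have hβμ := P.hβμ
  unfold SBd
  refine (Q_biUnion P.vv (P.A i) _ _ x).trans ?_
  have hstep : ∀ p ∈ P.anc i (P.Hs i l), Q n P.vv (P.A i)
      {x | ‖S x p - S x 0‖ ≤ 6 * P.r n (i+l)} x ≤
      ENNReal.ofReal ((1/2 : ℝ)^(100*(P.μ - 4 + P.β*(l-1)))) := by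
    intro p hp
    refine (Q_anc P.toPar P.vv i _ (by omega) hp (P.w (i+1)) le_rfl (P.anc_abs hp).1
      (6 * P.r n (i+l)) (2^(P.μ - 4 + P.β*(l-1))) (by positivity)
      (by have := P.r_pos (show 1 ≤ n by omega) (i+l); positivity) ?_ x).trans ?_
    · rw [P.w_real (by omega), mul_pow, P.r_sq]
      have e1 : 2*P.β*(i+l) = 2*P.β*(i+1) + 2*P.β*(l-1) := by
        have : i + l = i + 1 + (l-1) := by omega
        rw [this]; ring
      rw [e1, pow_add (2:ℝ) (2*P.β*(i+1)) (2*P.β*(l-1))]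
      have e2 : ((2:ℝ)^(P.μ - 4 + P.β*(l-1)))^2 = 2^(2*P.μ - 8) * 2^(2*P.β*(l-1)) := by
        rw [← pow_mul, ← pow_add]; congr 1
        have : 2*P.β*(l-1) = P.β*(l-1)*2 := by ring
        omega
      rw [e2]
      have e5 : (2:ℝ)^(2*P.μ) = 2^(2*P.μ - 8) * 256 := by
        have : (256:ℝ) = 2^8 := by norm_num
        rw [this, ← pow_add]; congr 1; omega
      have h2 : (0:ℝ) < 2^(2*P.β*(i+1)) := by positivity
      have h3 : (0:ℝ) < 2^(2*P.β*(l-1)) := by positivity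
      have e3 : 6 * ((2:ℝ)^(2*P.μ - 8) * (2:ℝ)^(2*P.β*(l-1))) *
          (6^2 * (n / (2^(2*P.β*(i+1)) * 2^(2*P.β*(l-1))))) =
          (216 * (2:ℝ)^(2*P.μ - 8)) * (n / 2^(2*P.β*(i+1))) := by
        field_simp
        norm_num
      have e4 : (n:ℝ) * (2^(2*P.μ) / 2^(2*P.β*(i+1))) = (2^(2*P.μ)) * (n / 2^(2*P.β*(i+1))) := by ring
      rw [e3, e4, e5]
      apply mul_le_mul_of_nonneg_right _ (by positivity)
      have : (0:ℝ) ≤ 2^(2*P.μ - 8) := by positivity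
      linarith
    · apply ENNReal.ofReal_le_ofReal
      exact sb_pow _ _ hn
  refine (Finset.sum_le_sum hstep).trans ?_
  rw [Finset.sum_const, nsmul_eq_mul, ← ENNReal.ofReal_natCast, ← ENNReal.ofReal_mul (by positivity)]
  apply ENNReal.ofReal_le_ofReal
  refine (mul_le_mul_of_nonneg_right (P.card_anc_real hl hil) (by positivity)).trans ?_
  apply pow_cmp
  rw [hβμ]
  have hml : 1000 * l ≤ P.μ * l := Nat.mul_le_mul_right _ (by omega)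
  have hml2 : P.μ ≤ P.μ * l := Nat.le_mul_of_pos_right _ hl
  obtain ⟨g, rfl⟩ : ∃ g, l = g + 1 := ⟨l - 1, by omega⟩
  have e1 : 2*(4*P.μ)*(g+1) = 8*(P.μ*g) + 8*P.μ := by ring
  have e2 : 80*P.μ*(g+1) = 80*(P.μ*g) + 80*P.μ := by ring
  have e3 : g + 1 - 1 = g := by omega
  have e4 : 4*P.μ*g = 4*(P.μ*g) := by ring
  have e5 : P.μ*(g+1) = P.μ*g + P.μ := by ring
  rw [e1, e2, e3, e4]
  rw [e5] at hml hml2
  omega

theorem up_num (l : ℕ) : ((4*P.μ*l : ℕ) : ℝ) ≤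
    2^(2*P.η) * (((2:ℝ)^P.β / 2)^(l-1))^2 := by
  have hμ := P.hμ
  have hβμ := P.hβμ
  have h3 : (l:ℝ) ≤ (((2:ℝ)^P.β / 2)^(l-1))^2 := by
    have h4 : (2:ℝ) ≤ (2:ℝ)^P.β / 2 := by
      rw [le_div_iff₀ (by norm_num)]
      have : (2:ℝ)^2 ≤ 2^P.β := pow_le_pow_right₀ (by norm_num) (by omega)
      linarith
    have h5 : (2:ℝ)^(l-1) ≤ ((2:ℝ)^P.β / 2)^(l-1) := pow_le_pow_left₀ (by norm_num) h4 _
    have h6 : ((l - 1 : ℕ) : ℝ) + 1 ≤ 2^(l-1) := by exact_mod_cast Nat.lt_two_pow_self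
    have h7 : (l:ℝ) ≤ ((l - 1 : ℕ) : ℝ) + 1 := by
      have : l ≤ (l - 1) + 1 := by omega
      exact_mod_cast this
    have h8 : (1:ℝ) ≤ ((2:ℝ)^P.β / 2)^(l-1) := one_le_pow₀ (by linarith)
    nlinarith
  have h9 : ((4*P.μ : ℕ) : ℝ) ≤ 2^(2*P.η) := by
    have h10 : 4*P.μ ≤ 2^(2*P.η) := P.hη.trans (Nat.pow_le_pow_right (by norm_num) (by omega))
    exact_mod_cast h10
  have h11 : ((4*P.μ*l : ℕ) : ℝ) = ((4*P.μ : ℕ) : ℝ) * l := by push_cast; ring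
  rw [h11]
  exact mul_le_mul h9 h3 (Nat.cast_nonneg _) (by positivity)

theorem Q_up {n : ℕ} (hn : 100 ≤ n) (i l lo : ℕ) (A : Finset ℤ) (hl : 1 ≤ l) (hi : i ≤ P.k)
    (hA : ∀ j : ℤ, (lo : ℤ) ≤ j ∧ j < P.w i ∨ -(P.w i : ℤ) ≤ j ∧ j < -(lo : ℤ) → j ∈ A) (x : ℤ → E n) :
    Q n P.vv A (OE n lo (P.w i) (P.N + 13 - 2*P.β*i)
      (P.Ru * P.r n i * ((2:ℝ)^P.β / 2)^(l-1))) x ≤ ENNReal.ofReal (P.tt l) := by
  have hμ := P.hμ
  have hβμ := P.hβμ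
  have hM := P.hM
  have hml : 1000 * l ≤ P.μ * l := Nat.mul_le_mul_right _ (by omega)
  have hml2 : P.μ ≤ P.μ * l := Nat.le_mul_of_pos_right _ hl
  have hy : (1:ℝ) ≤ ((4*P.μ*l : ℕ) : ℝ) := by
    have : 1 ≤ 4*P.μ*l := by
      have : 4*P.μ*l = 4*(P.μ*l) := by ring
      omega
    exact_mod_cast this
  have hr := P.r_pos (show 1 ≤ n by omega) i
  have hRu := P.Ru_pos
  have h1 := P.exp_le' (show i ≤ P.k + 1 by omega)
  refine (Q_OE P.vv_pos (by positivity) hA ((4*P.μ*l : ℕ) : ℝ) hy (by omega) ?_ x).trans ?_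
  · have e1 : (2:ℝ)^(P.N + 13 - 2*P.β*i) * P.vv = 2 * ((P.w i : ℝ) * P.vv) := by
      unfold Par.w
      have : P.N + 13 - 2*P.β*i = (P.N + 12 - 2*P.β*i) + 1 := by omega
      rw [this, pow_succ]
      push_cast
      ring
    rw [e1, P.w_real (by omega), mul_pow, mul_pow, P.r_sq]
    have h3 := P.up_num l
    have e5 : 1152 * ((4*P.μ*l : ℕ) : ℝ) * n * (2 * (2^(2*P.μ) / 2^(2*P.β*i))) =
        ((4*P.μ*l : ℕ) : ℝ) * (2304 * 2^(2*P.μ) * (n / 2^(2*P.β*i))) := by ring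
    have e6 : P.Ru^2 * ((n:ℝ) / 2^(2*P.β*i)) * (((2:ℝ)^P.β / 2)^(l-1))^2 =
        (2^(2*P.η) * (((2:ℝ)^P.β / 2)^(l-1))^2) * (2304 * 2^(2*P.μ) * (n / 2^(2*P.β*i))) := by
      unfold Ru
      have : ((2:ℝ)^(P.μ + P.η))^2 = 2^(2*P.μ) * 2^(2*P.η) := by
        rw [← pow_mul, ← pow_add]; congr 1; ring
      rw [mul_pow, this]
      ring
    rw [e5, e6]
    exact mul_le_mul_of_nonneg_right h3 (by positivity)
  · apply ENNReal.ofReal_le_ofReal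
    have e1 : 2 * ((P.w i : ℝ) / 2^(P.N + 13 - 2*P.β*i)) = 1 := by
      unfold Par.w
      have : P.N + 13 - 2*P.β*i = (P.N + 12 - 2*P.β*i) + 1 := by omega
      rw [this, pow_succ]
      push_cast
      field_simp
    rw [e1, one_mul]
    refine (expo_bound n (4*P.μ*l) hn).trans ?_
    unfold tt
    apply pow_le_pow_of_le_one (by norm_num) (by norm_num)
    have e2 : 80*P.μ*l = 80*(P.μ*l) := by ring
    have e3 : 200*(4*P.μ*l) = 800*(P.μ*l) := by ring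
    rw [e2, e3]
    omega

theorem Q_OEk {n : ℕ} (hn : 100 ≤ n) (i : ℕ) (hi : i + 1 ≤ P.k) (x : ℤ → E n) :
    Q n P.vv (P.A i) (OE n (P.w (i+1)) (P.w i) (P.Hc i) (P.r n i / 32)) x ≤
      ENNReal.ofReal (P.tt 1) := by
  have hμ := P.hμ
  have hβμ := P.hβμ
  have hr := P.r_pos (show 1 ≤ n by omega) i
  have h1 := P.exp_le' (show i ≤ P.k + 1 by omega)
  have hy : (1:ℝ) ≤ ((4*P.μ : ℕ) : ℝ) := by
    have : 1 ≤ 4*P.μ := by omega
    exact_mod_cast this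
  refine (Q_OE P.vv_pos (by positivity) (P.shell_sub i (by omega)) ((4*P.μ : ℕ) : ℝ) hy (by omega) ?_
    x).trans ?_
  · have e1 : (2:ℝ)^(P.Hc i) * P.vv = 1 / (2^(2*P.β*i) * 2^(21 + P.η)) := by
      unfold Hc vv
      push_cast
      obtain ⟨c, hc⟩ : ∃ c, P.M = 2*P.β*i + (21 + P.η) + c := ⟨P.M - (2*P.β*i + (21 + P.η)), by omega⟩
      have e1 : P.M - 2*P.β*i - 21 - P.η = c := by omega
      rw [e1, hc, pow_add 2 (2*P.β*i + (21 + P.η)) c, pow_add 2 (2*P.β*i) (21 + P.η)]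
      field_simp
    rw [e1, div_pow, P.r_sq]
    have h2 : (0:ℝ) < 2^(2*P.β*i) := by positivity
    have h3 : 1152 * 1024 * ((4*P.μ : ℕ) : ℝ) ≤ 2^(21 + P.η) := by
      have h4 : 1152 * 1024 * (4*P.μ) ≤ 2^(21 + P.η) := by
        rw [pow_add]
        exact Nat.mul_le_mul (by norm_num) P.hη
      exact_mod_cast h4
    have e3 : (n:ℝ) / 2^(2*P.β*i) / 32^2 = n / (2^(2*P.β*i) * 1024) := by
      rw [div_div]; norm_num
    rw [e3, mul_one_div, div_le_div_iff₀ (by positivity) (by positivity)]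
    calc 1152 * ((4*P.μ : ℕ) : ℝ) * n * (2^(2*P.β*i) * 1024) =
          (1152 * 1024 * ((4*P.μ : ℕ) : ℝ)) * (n * 2^(2*P.β*i)) := by ring
      _ ≤ 2^(21 + P.η) * (n * 2^(2*P.β*i)) := mul_le_mul_of_nonneg_right h3 (by positivity)
      _ = _ := by ring
  · apply ENNReal.ofReal_le_ofReal
    have e1 : (P.w i : ℝ) / 2^(P.Hc i) = 2^(2*P.μ + 21 + P.η) := by
      rw [w_eq]
      unfold Hc
      have : P.M + 2*P.μ - 2*P.β*i = (P.M - 2*P.β*i - 21 - P.η) + (2*P.μ + 21 + P.η) := by omega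
      rw [this, pow_add]
      push_cast
      field_simp
    rw [e1]
    have h5 := expo_bound n (4*P.μ) hn
    calc _ ≤ 2 * (2:ℝ)^(2*P.μ + 21 + P.η) * (1/2 : ℝ)^(200*(4*P.μ)) :=
          mul_le_mul_of_nonneg_left h5 (by positivity)
      _ = (2:ℝ)^(2*P.μ + 21 + P.η + 1) * (1/2 : ℝ)^(200*(4*P.μ)) := by
          rw [pow_succ (2:ℝ) (2*P.μ + 21 + P.η)]; ring
      _ ≤ _ := pow_cmp _ _ _ (by omega)

theorem w_le_sep (i : ℕ) : P.w (i+1) ≤ P.sep i := by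
  rw [w_eq]
  unfold sep
  exact Nat.pow_le_pow_right (by norm_num) (by omega)

theorem sep_real {i : ℕ} (hi : i + 1 ≤ P.k) : (P.sep i : ℝ) * P.vv = 2^(4*P.μ) / 2^(2*P.β*(i+1)) := by
  unfold sep vv
  have h1 := P.exp_le' (show i + 1 ≤ P.k + 1 by omega)
  push_cast
  obtain ⟨c, hc⟩ : ∃ c, P.M = 2*P.β*(i+1) + c := ⟨P.M - 2*P.β*(i+1), by omega⟩
  have e1 : P.M + 4*P.μ - 2*P.β*(i+1) = c + 4*P.μ := by omega
  rw [e1, hc, pow_add, pow_add]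
  field_simp

/-- numerical condition -/
theorem sep_num {n i : ℕ} (hi : i + 1 ≤ P.k) (c : ℝ) (a : ℕ)
    (h : 6 * (2^a)^2 * c^2 ≤ 2^(4*P.μ)) :
    6 * ((2:ℝ)^a)^2 * (c * P.r n (i+1))^2 ≤ n * (P.sep i * P.vv) := by
  rw [P.sep_real hi, mul_pow, P.r_sq]
  have e4 : (n:ℝ) * (2^(4*P.μ) / 2^(2*P.β*(i+1))) = 2^(4*P.μ) * (n / 2^(2*P.β*(i+1))) := by ring
  have e5 : 6 * ((2:ℝ)^a)^2 * (c^2 * (n / 2^(2*P.β*(i+1)))) =
      (6 * ((2:ℝ)^a)^2 * c^2) * (n / 2^(2*P.β*(i+1))) := by ring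
  rw [e4, e5]
  exact mul_le_mul_of_nonneg_right h (by positivity)

theorem Q_SBp {n : ℕ} (hn : 100 ≤ n) (i : ℕ) (hi : i + 1 ≤ P.k) (x : ℤ → E n) :
    Q n P.vv (P.A i) (P.SBp n i) x ≤ ENNReal.ofReal (P.tt 1) := by
  have hμ := P.hμ
  have hβμ := P.hβμ
  have hr1 := P.r_pos (show 1 ≤ n by omega) (i+1)
  unfold SBp
  refine (Q_biUnion P.vv (P.A i) _ _ x).trans ?_
  have hstep : ∀ pq ∈ ((P.anc i (P.Hs i 1)) ×ˢ (P.anc i (P.Hs i 1))).filter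
      (fun pq : ℤ × ℤ => pq.1 + (P.sep i : ℤ) ≤ pq.2), Q n P.vv (P.A i)
      {x | ‖S x pq.2 - S x pq.1‖ ≤ 7 * P.r n (i+1)} x ≤
      ENNReal.ofReal ((1/2 : ℝ)^(100*(2*P.μ - 5))) := by
    intro pq hpq
    rw [Finset.mem_filter, Finset.mem_product] at hpq
    obtain ⟨⟨hp, hq⟩, hd⟩ := hpq
    have a1 := (P.anc_abs hp).2
    have a2 := (P.anc_abs hq).2
    rw [abs_le] at a1 a2
    refine (Q_sb P.toPar P.vv i hi a1.1 a2.2 (P.sep i) (P.w_le_sep i) hd _ (2^(2*P.μ - 5))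
      (by positivity) (by positivity) (P.sep_num hi 7 _ ?_) x).trans ?_
    · have e2 : (2:ℝ)^(4*P.μ) = (2^(2*P.μ - 5))^2 * 1024 := by
        have : (1024:ℝ) = 2^10 := by norm_num
        rw [this, ← pow_mul, ← pow_add]; congr 1; omega
      rw [e2]
      have : (0:ℝ) ≤ ((2:ℝ)^(2*P.μ - 5))^2 := by positivity
      nlinarith
    · exact ENNReal.ofReal_le_ofReal (sb_pow _ _ hn)
  refine (Finset.sum_le_sum hstep).trans ?_
  rw [Finset.sum_const, nsmul_eq_mul, ← ENNReal.ofReal_natCast, ← ENNReal.ofReal_mul (by positivity)]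
  apply ENNReal.ofReal_le_ofReal
  have hcard := P.card_anc_real (i := i) (l := 1) le_rfl (by omega)
  have h1 : ((((P.anc i (P.Hs i 1)) ×ˢ (P.anc i (P.Hs i 1))).filter
      (fun pq : ℤ × ℤ => pq.1 + (P.sep i : ℤ) ≤ pq.2)).card : ℝ) ≤
      (2^(2*P.μ + 13 + P.η + 1 + 2*P.β*1))^2 := by
    have h2 : ((((P.anc i (P.Hs i 1)) ×ˢ (P.anc i (P.Hs i 1))).filter
        (fun pq : ℤ × ℤ => pq.1 + (P.sep i : ℤ) ≤ pq.2)).card : ℝ) ≤
        ((P.anc i (P.Hs i 1)).card : ℝ) * ((P.anc i (P.Hs i 1)).card : ℝ) := by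
      rw [← Nat.cast_mul, ← Finset.card_product]
      exact_mod_cast Finset.card_filter_le _ _
    refine h2.trans ?_
    rw [sq]
    exact mul_le_mul hcard hcard (Nat.cast_nonneg _) (by positivity)
  refine (mul_le_mul_of_nonneg_right h1 (by positivity)).trans ?_
  rw [← pow_mul]
  apply pow_cmp
  rw [hβμ]
  omega

theorem Q_SBc {n : ℕ} (hn : 100 ≤ n) (i : ℕ) (hi : i + 1 ≤ P.k) (x : ℤ → E n) :
    Q n P.vv (P.A i) (P.SBc n i) x ≤ ENNReal.ofReal (P.tt 1) := by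
  have hμ := P.hμ
  have hβμ := P.hβμ
  have hr1 := P.r_pos (show 1 ≤ n by omega) (i+1)
  have hRu := P.Ru_pos
  unfold SBc
  refine (Q_biUnion P.vv (P.A i) _ _ x).trans ?_
  have hstep : ∀ p ∈ (P.anc i (P.Hs i 1)).filter (fun p : ℤ => (P.sep i : ℤ) ≤ |p|), Q n P.vv (P.A i)
      {x | ‖S x p - S x 0‖ ≤ (2 * P.Ru + 6) * P.r n (i+1)} x ≤
      ENNReal.ofReal ((1/2 : ℝ)^(100*(P.μ - P.η - 9))) := by
    intro p hp
    rw [Finset.mem_filter] at hp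
    refine (Q_anc P.toPar P.vv i _ hi hp.1 (P.sep i) (P.w_le_sep i) hp.2 _ (2^(P.μ - P.η - 9))
      (by positivity) (by positivity) (P.sep_num hi _ _ ?_) x).trans ?_
    · have e1 : 2 * P.Ru + 6 ≤ 2^(P.μ + P.η + 7) := by
        unfold Ru
        have h1 : (1:ℝ) ≤ 2^(P.μ + P.η) := one_le_pow₀ (by norm_num)
        have h2 : (2:ℝ)^(P.μ + P.η + 7) = 128 * 2^(P.μ + P.η) := by rw [pow_add]; ring
        rw [h2]
        linarith
      have e2 : (2 * P.Ru + 6)^2 ≤ (2^(P.μ + P.η + 7))^2 := pow_le_pow_left₀ (by positivity) e1 2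
      have e3 : ((2:ℝ)^(P.μ - P.η - 9))^2 * (2^(P.μ + P.η + 7))^2 * 16 = 2^(4*P.μ) := by
        have : (16:ℝ) = 2^4 := by norm_num
        rw [this, ← pow_mul, ← pow_mul, ← pow_add, ← pow_add]; congr 1; omega
      rw [← e3]
      have h0 : (0:ℝ) ≤ ((2:ℝ)^(P.μ - P.η - 9))^2 := by positivity
      have h1 : ((2:ℝ)^(P.μ - P.η - 9))^2 * (2 * P.Ru + 6)^2 ≤
          ((2:ℝ)^(P.μ - P.η - 9))^2 * (2^(P.μ + P.η + 7))^2 := mul_le_mul_of_nonneg_left e2 h0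
      have h2 : (0:ℝ) ≤ ((2:ℝ)^(P.μ - P.η - 9))^2 * (2^(P.μ + P.η + 7))^2 := by positivity
      linarith
    · exact ENNReal.ofReal_le_ofReal (sb_pow _ _ hn)
  refine (Finset.sum_le_sum hstep).trans ?_
  rw [Finset.sum_const, nsmul_eq_mul, ← ENNReal.ofReal_natCast, ← ENNReal.ofReal_mul (by positivity)]
  apply ENNReal.ofReal_le_ofReal
  have hcard := P.card_anc_real (i := i) (l := 1) le_rfl (by omega)
  have h1 : (((P.anc i (P.Hs i 1)).filter (fun p : ℤ => (P.sep i : ℤ) ≤ |p|)).card : ℝ) ≤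
      2^(2*P.μ + 13 + P.η + 1 + 2*P.β*1) := by
    refine le_trans ?_ hcard
    exact_mod_cast Finset.card_filter_le _ _
  refine (mul_le_mul_of_nonneg_right h1 (by positivity)).trans ?_
  apply pow_cmp
  rw [hβμ]
  omega

end PN

end Pool.Agent.J6H8.CDim
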