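import Pool.Agent.J6H8.CDim.BlocksN

/-!
The conditional probability of the event that many cells of a class are crossed, and of the events of
the blocks.
-/

set_option autoImplicit false

namespace Pool.Agent.J6H8.CDim

open MeasureTheory ProbabilityTheory
open scoped NNReal ENNReal
open Pool.Agent.R966.CD (Par E gam S Q S_sub measurable_S Q_eq Q_biUnion Q_union Q_small Q_OE OE
  measurable_OE Q_mono)

theorem MD_disj {H θ L : ℕ} {a b : ℤ} (h : (a + 1) * 2^θ + 2 * L + 2 ≤ b * 2^θ) :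
    Disjoint (MD H θ L a) (MD H θ L b) := by
  rw [Finset.disjoint_left]
  intro j h1 h2
  unfold MD at h1 h2
  rw [Finset.mem_Ico] at h1 h2
  have hH : (0:ℤ) < 2^H := by positivity
  have h3 : ((a+1) * 2^θ + L + 1) * (2:ℤ)^H ≤ (b * 2^θ - L - 1) * 2^H := by
    apply mul_le_mul_of_nonneg_right _ hH.le
    linarith
  linarith [h1.2, h2.1]

namespace PN

variable (P : PN)

/-- number of anchors of a block -/
def XX : ℕ := 2^(8*P.μ - 13)

theorem XX_eq : (2:ℤ)^P.KK * 2^P.θ = P.XX := by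
  have hμ := P.hμ
  unfold XX KK θ
  push_cast
  rw [← pow_add]
  congr 1
  omega

theorem ll_eq {i : ℕ} (hi : i + 1 ≤ P.k) : 2^(P.ll i) = P.XX * 2^(P.Hs i 1) := by
  have hμ := P.hμ
  have hβμ := P.hβμ
  have h1 := P.exp_le' (show i + 1 ≤ P.k + 1 by omega)
  have h2 : 2*P.β*(i+1) = 2*P.β*i + 2*P.β := by ring
  unfold XX ll Hs
  rw [← pow_add]
  congr 1
  omega

theorem Om_eq {i : ℕ} (hi : i + 1 ≤ P.k) : P.w i = P.Om * 2^(P.ll i) := by
  have hμ := P.hμ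
  have h1 := P.exp_le' (show i ≤ P.k + 1 by omega)
  rw [w_eq]
  unfold Om ll
  rw [← pow_add]
  congr 1
  omega

theorem w1_eq {i : ℕ} (hi : i + 1 ≤ P.k) : P.w (i+1) = 2^(2*P.μ + 12 + P.η) * 2^(P.Hs i 1) := by
  have hμ := P.hμ
  have h1 := P.exp_le' (show i + 1 ≤ P.k + 1 by omega)
  rw [w_eq]
  unfold Hs
  rw [← pow_add]
  congr 1
  omega

/-- comparison of the scales -/
theorem XX_big : 2^(2*P.μ + 12 + P.η) + 2 * P.LL + 4 * 2^P.θ + 8 ≤ P.XX := by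
  have hμ := P.hμ
  unfold XX LL θ
  have e0 : 8 ≤ 2^(8*P.μ - 13 - 3) := by
    calc 8 = 2^3 := by norm_num
      _ ≤ _ := Nat.pow_le_pow_right (by norm_num) (by omega)
  have e1 : 2^(2*P.μ + 12 + P.η) ≤ 2^(8*P.μ - 13 - 3) := Nat.pow_le_pow_right (by norm_num) (by omega)
  have e2 : 2^(4*P.μ + 13 + P.η) ≤ 2^(8*P.μ - 13 - 3 - 1) := Nat.pow_le_pow_right (by norm_num) (by omega)
  have e3 : 2^(2*P.η + 50) ≤ 2^(8*P.μ - 13 - 3 - 2) := Nat.pow_le_pow_right (by norm_num) (by omega)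
  have e4 : 2^(8*P.μ - 13) = 8 * 2^(8*P.μ - 13 - 3) := by
    obtain ⟨c, hc⟩ : ∃ c, 8*P.μ - 13 = c + 3 := ⟨8*P.μ - 13 - 3, by omega⟩
    rw [hc, Nat.add_sub_cancel, pow_add]; ring
  have e5 : 2^(8*P.μ - 13 - 3) = 2 * 2^(8*P.μ - 13 - 3 - 1) := by
    obtain ⟨c, hc⟩ : ∃ c, 8*P.μ - 13 - 3 = c + 1 := ⟨8*P.μ - 13 - 3 - 1, by omega⟩
    rw [hc, Nat.add_sub_cancel, pow_add]; ring
  have e6 : 2^(8*P.μ - 13 - 3) = 4 * 2^(8*P.μ - 13 - 3 - 2) := by
    obtain ⟨c, hc⟩ : ∃ c, 8*P.μ - 13 - 3 = c + 2 := ⟨8*P.μ - 13 - 3 - 2, by omega⟩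
    rw [hc, Nat.add_sub_cancel, pow_add]; ring
  omega

theorem mem_blk {c : ℤ} : c ∈ P.blk ↔ (-(P.Om : ℤ) < c ∧ c < P.Om - 1) ∧ (1 ≤ c ∨ c ≤ -2) := by
  unfold blk
  rw [Finset.mem_filter, Finset.mem_Ioo]

/-- the cells of the dilated blocks belong to the shell -/
theorem sub_A {i : ℕ} (hi : i + 1 ≤ P.k) {c a : ℤ} (hc : c ∈ P.blk) (h1 : c * 2^P.KK ≤ a)
    (h2 : a < (c+1) * 2^P.KK) : MD (P.Hs i 1) P.θ P.LL a ⊆ P.A i := by
  obtain ⟨⟨hc1, hc2⟩, hc3⟩ := P.mem_blk.mp hc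
  have hX := P.XX_eq
  have hXb := P.XX_big
  have hθ : (0:ℤ) < 2^P.θ := by positivity
  have hH : (0:ℤ) < 2^(P.Hs i 1) := by positivity
  have g1 : c * P.XX ≤ a * 2^P.θ := by
    rw [← hX, ← mul_assoc]
    exact mul_le_mul_of_nonneg_right h1 hθ.le
  have g2 : (a + 1) * 2^P.θ ≤ (c+1) * P.XX := by
    rw [← hX, ← mul_assoc]
    exact mul_le_mul_of_nonneg_right (by omega) hθ.le
  have hX0 : (0:ℤ) ≤ P.XX := Int.natCast_nonneg _
  have hXb' : (2:ℤ)^(2*P.μ + 12 + P.η) + 2 * P.LL + 4 * 2^P.θ + 8 ≤ P.XX := by exact_mod_cast hXb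
  have hw : (P.w i : ℤ) = (P.Om * P.XX) * 2^(P.Hs i 1) := by
    rw [P.Om_eq hi, P.ll_eq hi]
    push_cast
    ring
  have hw1 : (P.w (i+1) : ℤ) = 2^(2*P.μ + 12 + P.η) * 2^(P.Hs i 1) := by
    rw [P.w1_eq hi]
    push_cast
    ring
  have hL0 : (0:ℤ) ≤ P.LL := Int.natCast_nonneg _
  have hp0 : (0:ℤ) ≤ 2^(2*P.μ + 12 + P.η) := by positivity
  intro j hj
  unfold MD at hj
  rw [Finset.mem_Ico] at hj
  obtain ⟨hj1, hj2⟩ := hj
  apply P.shell_sub i hi
  have a1 : (c * P.XX - P.LL - 1) * 2^(P.Hs i 1) ≤ j := by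
    refine le_trans ?_ hj1
    apply mul_le_mul_of_nonneg_right _ hH.le
    linarith
  have a2 : j < ((c+1) * P.XX + P.LL + 1) * 2^(P.Hs i 1) := by
    refine lt_of_lt_of_le hj2 ?_
    apply mul_le_mul_of_nonneg_right _ hH.le
    linarith
  rcases hc3 with hc3 | hc3
  · left
    constructor
    · rw [hw1]
      refine le_trans ?_ a1
      apply mul_le_mul_of_nonneg_right _ hH.le
      have : 1 * (P.XX:ℤ) ≤ c * P.XX := mul_le_mul_of_nonneg_right hc3 hX0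
      linarith
    · rw [hw]
      refine lt_of_lt_of_le a2 ?_
      apply mul_le_mul_of_nonneg_right _ hH.le
      have : (c + 2) * (P.XX:ℤ) ≤ P.Om * P.XX := mul_le_mul_of_nonneg_right (by omega) hX0
      linarith
  · right
    constructor
    · rw [hw]
      refine le_trans ?_ a1
      rw [← neg_mul]
      apply mul_le_mul_of_nonneg_right _ hH.le
      have : (-(P.Om:ℤ)) * (P.XX:ℤ) ≤ (c - 1) * P.XX := mul_le_mul_of_nonneg_right (by omega) hX0
      linarith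
    · rw [hw1]
      refine lt_of_lt_of_le a2 ?_
      rw [← neg_mul]
      apply mul_le_mul_of_nonneg_right _ hH.le
      have : (c + 1) * (P.XX:ℤ) ≤ (-1) * P.XX := mul_le_mul_of_nonneg_right (by omega) hX0
      linarith

theorem KK_eq : 2^P.KK = 2 * P.mm * P.RR := by
  have hμ := P.hμ
  unfold KK mm RR
  rw [mul_assoc, ← pow_add, ← pow_succ']
  congr 1
  omega

theorem cl_mem {c : ℤ} {ρ t : ℕ} (hρ : ρ < P.RR) (ht : t < 2 * P.mm) :
    c * 2^P.KK ≤ P.cl c ρ t ∧ P.cl c ρ t < (c+1) * 2^P.KK := by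
  unfold cl
  have h1 : (2:ℤ)^P.KK = 2 * P.mm * P.RR := by exact_mod_cast P.KK_eq
  have h2 : P.RR * t + P.RR ≤ 2 * P.mm * P.RR := by
    calc P.RR * t + P.RR = (t+1) * P.RR := by ring
      _ ≤ 2 * P.mm * P.RR := Nat.mul_le_mul_right _ ht
  have h3 : (P.RR : ℤ) * t + P.RR ≤ 2 * P.mm * P.RR := by exact_mod_cast h2
  have h4 : (0:ℤ) ≤ (P.RR : ℤ) * t := by positivity
  rw [add_mul, one_mul, h1]
  constructor
  · omega
  · have : (ρ:ℤ) < P.RR := by exact_mod_cast hρ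
    linarith

theorem cl_disj (i : ℕ) (c : ℤ) (ρ : ℕ) {s t : ℕ} (h : s < t) :
    Disjoint (MD (P.Hs i 1) P.θ P.LL (P.cl c ρ s)) (MD (P.Hs i 1) P.θ P.LL (P.cl c ρ t)) := by
  apply MD_disj
  have hμ := P.hμ
  unfold cl
  have h1 : (P.RR : ℤ) * s + P.RR ≤ P.RR * t := by
    have : P.RR * s + P.RR ≤ P.RR * t := by
      calc P.RR * s + P.RR = P.RR * (s+1) := by ring
        _ ≤ _ := Nat.mul_le_mul_left _ h
    exact_mod_cast this
  have h2 : (P.RR : ℤ) * 2^P.θ = 4 * P.LL := by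
    have : P.RR * 2^P.θ = 4 * P.LL := by
      unfold RR θ LL
      have : 4 = 2^2 := by norm_num
      rw [← pow_add, this, ← pow_add]
      congr 1
      omega
    exact_mod_cast this
  have h3 : (2:ℤ)^P.θ + 2 ≤ 2 * P.LL := by
    have : 2^P.θ + 2 ≤ 2 * P.LL := by
      unfold θ LL
      have e1 : 2^(2*P.η + 50) ≤ 2^(4*P.μ + 13 + P.η) := Nat.pow_le_pow_right (by norm_num) (by omega)
      have e2 : 2^1 ≤ 2^(4*P.μ + 13 + P.η) := Nat.pow_le_pow_right (by norm_num) (by omega)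
      omega
    exact_mod_cast this
  have hθ : (0:ℤ) < 2^P.θ := by positivity
  have h4 : ((P.RR : ℤ) * s + P.RR) * 2^P.θ ≤ (P.RR * t) * 2^P.θ := mul_le_mul_of_nonneg_right h1 hθ.le
  have h5 : ((P.RR : ℤ) * s + P.RR) * 2^P.θ = (P.RR * s) * 2^P.θ + 4 * P.LL := by
    rw [add_mul, h2]
  rw [h5] at h4
  have e1 : (c * 2^P.KK + ρ + P.RR * s + 1) * (2:ℤ)^P.θ =
      (c * 2^P.KK + ρ) * 2^P.θ + (P.RR * s) * 2^P.θ + 2^P.θ := by ring
  have e2 : (c * 2^P.KK + ρ + P.RR * t) * (2:ℤ)^P.θ =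
      (c * 2^P.KK + ρ) * 2^P.θ + (P.RR * t) * 2^P.θ := by ring
  rw [e1, e2]
  linarith

theorem card_blk : P.blk.card ≤ 2 * P.Om := by
  unfold blk
  refine (Finset.card_filter_le _ _).trans ?_
  rw [Int.card_Ioo]
  omega

theorem mm_big : 86 * P.μ ≤ 2 * P.mm := by
  have hμ := P.hμ
  unfold mm
  rw [← pow_succ']
  obtain ⟨g, hg⟩ : ∃ g, P.μ = g + 10 := ⟨P.μ - 10, by omega⟩
  have h1 : g < 2^g := Nat.lt_two_pow_self
  calc 86 * P.μ ≤ 2^10 * 2^g := by omega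
    _ = 2^P.μ := by rw [← pow_add, hg, add_comm]
    _ ≤ _ := Nat.pow_le_pow_right (by norm_num) (by omega)

theorem Q_BB {n : ℕ} (hn : 100 ≤ n) (i : ℕ) (hi : i + 1 ≤ P.k) (x : ℤ → E n) :
    Q n P.vv (P.A i) (P.BB n i) x ≤ ENNReal.ofReal (P.tt 1) := by
  have hμ := P.hμ
  have hβμ := P.hβμ
  have hr1 := P.r_pos (show 1 ≤ n by omega) (i+1)
  unfold BB
  refine (Q_biUnion P.vv (P.A i) _ _ x).trans ?_
  have hMB : ∀ (a : ℤ) (x : ℤ → E n), Q n P.vv (MD (P.Hs i 1) P.θ P.LL a)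
      (MB n (P.Hs i 1) P.θ P.LL (7 * P.r n (i+1)) a) x ≤ 16⁻¹ := by
    intro a x
    refine Q_MB P.vv (P.Hs i 1) P.θ P.LL (7 * P.r n (i+1)) (2^(20 + P.η)) (by positivity)
      (one_le_pow₀ (by norm_num)) ?_ (by unfold θ; omega) hn ?_ a x
    · unfold θ
      have e1 : ((2:ℝ)^(20 + P.η))^2 = 2^(2*P.η + 40) := by rw [← pow_mul]; congr 1; ring
      have e2 : (2:ℝ)^(2*P.η + 50) = 2^(2*P.η + 40) * 1024 := by rw [pow_add 2 (2*P.η) 50, pow_add 2 (2*P.η) 40]; norm_num; ring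
      rw [e1, e2]
      have : (1:ℝ) ≤ 2^(2*P.η + 40) := one_le_pow₀ (by norm_num)
      linarith
    · rw [P.scale_s (show i + 1 ≤ P.k + 1 by omega) (by omega), mul_pow, P.r_sq]
      have e1 : (2:ℝ)^(20 + P.η) = 256 * 2^(11 + P.η + 1) := by
        have : (256:ℝ) = 2^8 := by norm_num
        rw [this, ← pow_add]; congr 1; ring
      rw [e1]
      have e2 : 256 * (2:ℝ)^(11 + P.η + 1) * (n * (1 / (2^(2*P.β*(i+1)) * 2^(11 + P.η + 1)))) =
          256 * (n / 2^(2*P.β*(i+1))) := by field_simp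
      rw [e2]
      have : (0:ℝ) ≤ n / 2^(2*P.β*(i+1)) := by positivity
      linarith
  have hstep : ∀ p ∈ P.blk ×ˢ Finset.range P.RR, Q n P.vv (P.A i)
      (CB (fun t => MB n (P.Hs i 1) P.θ P.LL (7 * P.r n (i+1)) (P.cl p.1 p.2 t)) P.mm) x ≤
      ENNReal.ofReal ((1/2 : ℝ)^(2 * P.mm)) := by
    intro p hp
    rw [Finset.mem_product, Finset.mem_range] at hp
    refine (Q_CB P.vv (fun t => MD (P.Hs i 1) P.θ P.LL (P.cl p.1 p.2 t)) _
      (fun t => measurable_MB _ _ _ _ _ _) (fun t x y h => MB_congr (by unfold θ; omega) h)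
      (fun s t hst => ?_) (fun t x => hMB _ x) P.mm (P.A i) (fun t ht => ?_) x).trans ?_
    · rcases Nat.lt_or_ge s t with h | h
      · exact P.cl_disj i p.1 p.2 h
      · exact (P.cl_disj i p.1 p.2 (by omega : t < s)).symm
    · obtain ⟨h1, h2⟩ := P.cl_mem (c := p.1) hp.2 ht
      exact P.sub_A hi hp.1 h1 h2
    · apply le_of_eq
      rw [pow_mul, ENNReal.ofReal_pow (by positivity)]
      congr 1
      rw [div_pow, one_pow, one_div, ENNReal.ofReal_inv_of_pos (by norm_num)]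
      norm_num
  refine (Finset.sum_le_sum hstep).trans ?_
  rw [Finset.sum_const, nsmul_eq_mul, ← ENNReal.ofReal_natCast, ← ENNReal.ofReal_mul (by positivity)]
  apply ENNReal.ofReal_le_ofReal
  have h1 : (((P.blk ×ˢ Finset.range P.RR).card : ℕ) : ℝ) ≤ 2^(6*P.μ - 9) := by
    have h2 : (P.blk ×ˢ Finset.range P.RR).card ≤ 2^(6*P.μ - 9) := by
      rw [Finset.card_product, Finset.card_range]
      calc P.blk.card * P.RR ≤ (2 * P.Om) * P.RR := Nat.mul_le_mul_right _ P.card_blk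
        _ = 2^(6*P.μ - 9) := by
          unfold Om RR
          rw [← pow_succ', ← pow_add]
          congr 1
          omega
    exact_mod_cast h2
  refine (mul_le_mul_of_nonneg_right h1 (by positivity)).trans ?_
  apply pow_cmp
  have := P.mm_big
  omega

theorem tt_anti {l : ℕ} : (0:ℝ) ≤ P.tt l := by unfold tt; positivity

/-- **conditional probabilities of the events of a block** -/
theorem Q_F {n : ℕ} (hn : 100 ≤ n) (i l : ℕ) (hl : 1 ≤ l) (hi : i + 1 ≤ P.k) (x : ℤ → E n) :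
    Q n P.vv (P.A i) (P.F n i l) x ≤ ENNReal.ofReal (((1/2 : ℝ)^(80*P.μ))^l) := by
  have ht : (0:ℝ) ≤ P.tt l := P.tt_anti
  unfold F
  have b1 : Q n P.vv (P.A i) (if i + l ≤ P.k then P.Fdown n i l else ∅) x ≤
      ENNReal.ofReal (2 * P.tt l) := by
    split
    · rename_i hil
      unfold Fdown
      rw [two_mul, ENNReal.ofReal_add ht ht]
      exact (Q_union _ _ _ _ x).trans
        (add_le_add (P.Q_OEd hn i l hl hil x) (P.Q_SBd hn i l hl hil x))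
    · unfold Q
      simp
  have b3 : Q n P.vv (P.A i) (P.Fup n i l) x ≤ ENNReal.ofReal (P.tt l) := by
    unfold Fup
    exact P.Q_up hn i l _ _ hl (by omega) (P.shell_sub i (by omega)) x
  have b4 : Q n P.vv (P.A i) (if l = 1 ∧ i + 1 ≤ P.k then P.Fown n i else ∅) x ≤
      ENNReal.ofReal (5 * P.tt l) := by
    split
    · rename_i h
      obtain ⟨rfl, -⟩ := h
      unfold Fown
      have e : 5 * P.tt 1 = ((P.tt 1 + P.tt 1) + (P.tt 1 + P.tt 1)) + P.tt 1 := by ring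
      rw [e, ENNReal.ofReal_add (by positivity) ht, ENNReal.ofReal_add (by positivity) (by positivity),
        ENNReal.ofReal_add ht ht]
      refine (Q_union _ _ _ _ x).trans (add_le_add ?_ (P.Q_BB hn i hi x))
      refine (Q_union _ _ _ _ x).trans (add_le_add ?_ ?_)
      · exact (Q_union _ _ _ _ x).trans (add_le_add (P.Q_OEk hn i hi x) (P.Q_OEd hn i 1 le_rfl hi x))
      · exact (Q_union _ _ _ _ x).trans (add_le_add (P.Q_SBp hn i hi x) (P.Q_SBc hn i hi x))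
    · unfold Q
      simp
  refine (Q_union _ _ _ _ x).trans ?_
  refine (add_le_add ((Q_union _ _ _ _ x).trans (add_le_add b1 b3)) b4).trans ?_
  rw [← ENNReal.ofReal_add (by positivity) (by positivity),
    ← ENNReal.ofReal_add (by positivity) (by positivity)]
  apply ENNReal.ofReal_le_ofReal
  have e1 : P.tt l = ((1/2 : ℝ)^(80*P.μ))^l * (1/8) := by
    unfold tt
    rw [← pow_mul, pow_add]
    norm_num
  rw [e1]
  have : (0:ℝ) ≤ ((1/2 : ℝ)^(80*P.μ))^l := by positivity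
  linarith

/-- probabilities of the events of the core -/
theorem Q_Fcore {n : ℕ} (hn : 100 ≤ n) (l : ℕ) (hl : 1 ≤ l) (x : ℤ → E n) :
    Q n P.vv (P.W 0) (P.Fcore n l) x ≤ ENNReal.ofReal (((1/2 : ℝ)^(80*P.μ))^l) := by
  unfold Fcore
  have hsub : ∀ j : ℤ, ((0:ℕ) : ℤ) ≤ j ∧ j < P.w P.k ∨ -(P.w P.k : ℤ) ≤ j ∧ j < -((0:ℕ) : ℤ) →
      j ∈ P.W 0 := by
    intro j hj
    have h1 : P.w P.k ≤ P.w 0 := P.w_anti (Nat.zero_le _)
    have h2 : (P.w P.k : ℤ) ≤ P.w 0 := by exact_mod_cast h1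
    unfold Par.W
    rw [Finset.mem_Ico]
    push_cast at hj
    omega
  refine (P.Q_up hn P.k l 0 (P.W 0) hl le_rfl hsub x).trans ?_
  apply ENNReal.ofReal_le_ofReal
  unfold tt
  rw [← pow_mul]
  exact pow_le_pow_of_le_one (by norm_num) (by norm_num) (by omega)

end PN

end Pool.Agent.J6H8.CDim
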