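import Pool.Agent.R966.CD.Count

/-!
Independent events on disjoint sets of cells: a Chernoff bound.  The event that a cell is crossed by
a near return at a middle distance.
-/

set_option autoImplicit false

namespace Pool.Agent.J6H8.CDim

open MeasureTheory ProbabilityTheory
open scoped NNReal ENNReal
open Pool.Agent.R966.CD (E gam S Q S_sub measurable_S Q_eq Q_biUnion Q_small lmarginal_const
  lmarginal_le_of_subset')

variable {n : ℕ}

/-- **products of functions of disjoint sets of cells** -/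
theorem lmarginal_prod (v : ℝ≥0) (D : ℕ → Finset ℤ) (f : ℕ → (ℤ → E n) → ℝ≥0∞)
    (hf : ∀ t, Measurable (f t))
    (hD : ∀ t, ∀ x y : ℤ → E n, (∀ j ∈ D t, x j = y j) → f t x = f t y)
    (hdis : ∀ s t, s ≠ t → Disjoint (D s) (D t)) (c : ℝ≥0∞)
    (hc : ∀ t x, (∫⋯∫⁻_(D t), f t ∂(fun _ => gam n v)) x ≤ c) :
    ∀ m x, (∫⋯∫⁻_((Finset.range m).biUnion D), (fun y => ∏ t ∈ Finset.range m, f t y)
      ∂(fun _ => gam n v)) x ≤ c^m := by
  intro m
  induction m with
  | zero =>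
    intro x
    have h : (fun y : ℤ → E n => ∏ t ∈ Finset.range 0, f t y) = fun _ => 1 := by
      funext y; simp
    rw [h, lmarginal_const, pow_zero]
  | succ m ih =>
    intro x
    have hU : (Finset.range (m+1)).biUnion D = (Finset.range m).biUnion D ∪ D m := by
      ext j
      simp only [Finset.mem_biUnion, Finset.mem_range, Finset.mem_union]
      constructor
      · rintro ⟨t, ht, hj⟩
        rcases Nat.lt_or_ge t m with h | h
        · exact Or.inl ⟨t, h, hj⟩
        · have : t = m := by omega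
          subst this
          exact Or.inr hj
      · rintro (⟨t, ht, hj⟩ | hj)
        · exact ⟨t, by omega, hj⟩
        · exact ⟨m, by omega, hj⟩
    have hdisj : Disjoint ((Finset.range m).biUnion D) (D m) := by
      rw [Finset.disjoint_biUnion_left]
      intro t ht
      exact hdis t m (by have := Finset.mem_range.mp ht; omega)
    have hm1 : ∀ m, Measurable fun y : ℤ → E n => ∏ t ∈ Finset.range m, f t y := fun m =>
      Finset.measurable_fun_prod _ fun t _ => hf t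
    rw [hU, lmarginal_union _ _ (hm1 (m+1)) hdisj]
    have hstep : (∫⋯∫⁻_(D m), (fun y => ∏ t ∈ Finset.range (m+1), f t y) ∂(fun _ => gam n v)) ≤
        fun y => c * ∏ t ∈ Finset.range m, f t y := by
      intro y
      have h3 : (∫⋯∫⁻_(D m), (fun y => ∏ t ∈ Finset.range (m+1), f t y) ∂(fun _ => gam n v)) y =
          (∫⋯∫⁻_(D m), (fun z => (∏ t ∈ Finset.range m, f t y) * f m z) ∂(fun _ => gam n v)) y := by
        unfold lmarginal
        apply lintegral_congr
        intro z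
        beta_reduce
        rw [Finset.prod_range_succ]
        congr 1
        apply Finset.prod_congr rfl
        intro t ht
        apply hD t
        intro j hj
        rw [Function.updateFinset, dif_neg]
        intro hj'
        exact (Finset.disjoint_left.mp (hdis t m (by have := Finset.mem_range.mp ht; omega))) hj hj'
      rw [h3, Pool.Agent.R966.CD.Par.lmarginal_const_mul _ _ _ _ (hf m)]
      show _ ≤ c * ∏ t ∈ Finset.range m, f t y
      rw [mul_comm c]
      exact mul_le_mul_right (hc m y) _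
    refine (lmarginal_mono hstep x).trans ?_
    rw [Pool.Agent.R966.CD.Par.lmarginal_const_mul _ _ _ _ (hm1 m), pow_succ']
    exact mul_le_mul_right (ih x) _

/-- at least half of the first `2 * m` events occur (in fact a larger event) -/
def CB (G : ℕ → Set (ℤ → E n)) (m : ℕ) : Set (ℤ → E n) :=
  {x | (16:ℝ≥0∞)^m ≤ ∏ t ∈ Finset.range (2*m), (1 + 16 * (G t).indicator 1 x)}

theorem measurable_fac (s : Set (ℤ → E n)) (hs : MeasurableSet s) :
    Measurable fun x : ℤ → E n => (1 + 16 * s.indicator 1 x : ℝ≥0∞) :=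
  Measurable.const_add ((measurable_one.indicator hs).const_mul 16) 1

theorem measurable_CB (G : ℕ → Set (ℤ → E n)) (hG : ∀ t, MeasurableSet (G t)) (m : ℕ) :
    MeasurableSet (CB G m) :=
  measurableSet_le measurable_const
    (Finset.measurable_fun_prod _ fun t _ => measurable_fac (G t) (hG t))

open Classical in
theorem not_CB {G : ℕ → Set (ℤ → E n)} {m : ℕ} {x : ℤ → E n} (h : x ∉ CB G m) :
    ((Finset.range (2*m)).filter fun t => x ∈ G t).card < m := by
  by_contra hcon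
  push Not at hcon
  apply h
  show (16:ℝ≥0∞)^m ≤ ∏ t ∈ Finset.range (2*m), (1 + 16 * (G t).indicator 1 x)
  calc (16:ℝ≥0∞)^m ≤ 16^((Finset.range (2*m)).filter fun t => x ∈ G t).card :=
        pow_le_pow_right₀ (by norm_num) hcon
    _ = ∏ t ∈ (Finset.range (2*m)).filter fun t => x ∈ G t, (16:ℝ≥0∞) := by
        rw [Finset.prod_const]
    _ ≤ ∏ t ∈ (Finset.range (2*m)).filter fun t => x ∈ G t,
          (1 + 16 * (G t).indicator 1 x : ℝ≥0∞) := by
        apply Finset.prod_le_prod' 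
        intro t ht
        rw [Finset.mem_filter] at ht
        rw [Set.indicator_of_mem ht.2, Pi.one_apply, mul_one]
        exact le_add_self
    _ ≤ _ := by
        apply Finset.prod_le_prod_of_subset_of_one_le' (Finset.filter_subset _ _)
        intro t _ _
        exact le_self_add

theorem CB_congr {G : ℕ → Set (ℤ → E n)} {m : ℕ} {x y : ℤ → E n}
    (h : ∀ t < 2*m, (x ∈ G t ↔ y ∈ G t)) : x ∈ CB G m ↔ y ∈ CB G m := by
  classical
  show (16:ℝ≥0∞)^m ≤ _ ↔ (16:ℝ≥0∞)^m ≤ _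
  have : ∏ t ∈ Finset.range (2*m), (1 + 16 * (G t).indicator 1 x : ℝ≥0∞) =
      ∏ t ∈ Finset.range (2*m), (1 + 16 * (G t).indicator 1 y : ℝ≥0∞) := by
    apply Finset.prod_congr rfl
    intro t ht
    have h1 := h t (Finset.mem_range.mp ht)
    by_cases hx : x ∈ G t
    · rw [Set.indicator_of_mem hx, Set.indicator_of_mem (h1.mp hx)]; rfl
    · rw [Set.indicator_of_notMem hx, Set.indicator_of_notMem (fun hy => hx (h1.mpr hy))]
  rw [this]

/-- **Chernoff bound** -/
theorem Q_CB (v : ℝ≥0) (D : ℕ → Finset ℤ) (G : ℕ → Set (ℤ → E n)) (hG : ∀ t, MeasurableSet (G t))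
    (hD : ∀ t, ∀ x y : ℤ → E n, (∀ j ∈ D t, x j = y j) → (x ∈ G t ↔ y ∈ G t))
    (hdis : ∀ s t, s ≠ t → Disjoint (D s) (D t))
    (hQ : ∀ t x, Q n v (D t) (G t) x ≤ 16⁻¹) (m : ℕ) (A : Finset ℤ) (hA : ∀ t < 2*m, D t ⊆ A)
    (x : ℤ → E n) : Q n v A (CB G m) x ≤ (4⁻¹)^m := by
  classical
  obtain ⟨f, hf⟩ : ∃ f : ℕ → (ℤ → E n) → ℝ≥0∞, f = fun t x => 1 + 16 * (G t).indicator 1 x := ⟨_, rfl⟩
  have hfm : ∀ t, Measurable (f t) := by intro t; rw [hf]; exact measurable_fac (G t) (hG t)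
  have hfD : ∀ t, ∀ x y : ℤ → E n, (∀ j ∈ D t, x j = y j) → f t x = f t y := by
    intro t x y hxy
    have h1 := hD t x y hxy
    rw [hf]
    show (1 + 16 * (G t).indicator 1 x : ℝ≥0∞) = 1 + 16 * (G t).indicator 1 y
    by_cases hx : x ∈ G t
    · rw [Set.indicator_of_mem hx, Set.indicator_of_mem (h1.mp hx)]; rfl
    · rw [Set.indicator_of_notMem hx, Set.indicator_of_notMem (fun hy => hx (h1.mpr hy))]
  have hfc : ∀ t x, (∫⋯∫⁻_(D t), f t ∂(fun _ => gam n v)) x ≤ 2 := by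
    intro t x
    have h1 : (∫⋯∫⁻_(D t), f t ∂(fun _ => gam n v)) x = 1 + 16 * Q n v (D t) (G t) x := by
      have h2 : Measurable fun y : D t → E n =>
          16 * (G t).indicator (1 : (ℤ → E n) → ℝ≥0∞) (Function.updateFinset x (D t) y) :=
        ((measurable_one.indicator (hG t)).comp measurable_updateFinset).const_mul _
      rw [← Q_eq v (D t) (G t) (hG t) x,
        ← Pool.Agent.R966.CD.Par.lmarginal_const_mul v (D t) 16 _ (measurable_one.indicator (hG t)) x]
      rw [hf]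
      unfold lmarginal
      rw [lintegral_add_left measurable_const, lintegral_const, measure_univ, mul_one]
    rw [h1]
    have h3 : 16 * Q n v (D t) (G t) x ≤ 1 := by
      calc 16 * Q n v (D t) (G t) x ≤ 16 * 16⁻¹ := mul_le_mul_right (hQ t x) _
        _ = 1 := ENNReal.mul_inv_cancel (by norm_num) (by norm_num)
    calc 1 + 16 * Q n v (D t) (G t) x ≤ 1 + 1 := add_le_add_right h3 1
      _ = 2 := one_add_one_eq_two
  have hprod := lmarginal_prod v D f hfm hfD hdis 2 hfc (2*m)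
  have hpm : Measurable fun y : ℤ → E n => ∏ t ∈ Finset.range (2*m), f t y :=
    Finset.measurable_fun_prod _ fun t _ => hfm t
  have hA' : (∫⋯∫⁻_A, (fun y => ∏ t ∈ Finset.range (2*m), f t y) ∂(fun _ => gam n v)) x ≤ 2^(2*m) := by
    refine lmarginal_le_of_subset' v (B := (Finset.range (2*m)).biUnion D) ?_ _ hpm _ hprod x
    rw [Finset.biUnion_subset]
    intro t ht
    exact hA t (Finset.mem_range.mp ht)
  -- Markov
  have hmk : (16:ℝ≥0∞)^m * Q n v A (CB G m) x ≤ 2^(2*m) := by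
    refine le_trans ?_ hA'
    unfold Q lmarginal
    have h5 := mul_meas_ge_le_lintegral (μ := Measure.pi fun _ : A => gam n v)
      (hpm.comp (measurable_updateFinset (s := A) (x := x))) (16^m)
    refine le_trans (le_of_eq ?_) h5
    rw [hf]
    rfl
  have h16 : (16:ℝ≥0∞)^m ≠ 0 := by positivity
  have h16' : (16:ℝ≥0∞)^m ≠ ∞ := ENNReal.pow_ne_top (by norm_num)
  have h6 : Q n v A (CB G m) x ≤ 2^(2*m) / 16^m := by
    rw [ENNReal.le_div_iff_mul_le (Or.inl h16) (Or.inl h16'), mul_comm]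
    exact hmk
  refine h6.trans (le_of_eq ?_)
  rw [pow_mul, div_eq_mul_inv, ENNReal.inv_pow, ← mul_pow]
  congr 1
  have : (16:ℝ≥0∞) = 2^2 * 4 := by norm_num
  rw [this, ENNReal.mul_inv (by norm_num) (by norm_num), ← mul_assoc,
    ENNReal.mul_inv_cancel (by norm_num) (by norm_num), one_mul]

/-! ### near returns across a cell -/

/-- near returns at a middle distance across the cell `a` -/
def MB (n H θ L : ℕ) (ρ : ℝ) (a : ℤ) : Set (ℤ → E n) :=
  ⋃ p ∈ (Finset.range (L+3)) ×ˢ (Finset.range (L+3)),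
    {x | ‖S x (((a+1) * 2^θ - 1 + (p.2 : ℤ)) * 2^H) - S x ((a * 2^θ + 1 - (p.1 : ℤ)) * 2^H)‖ ≤ ρ}

/-- the cells on which `MB` depends -/
noncomputable def MD (H θ L : ℕ) (a : ℤ) : Finset ℤ :=
  Finset.Ico ((a * 2^θ - L - 1) * 2^H) (((a+1) * 2^θ + L + 1) * 2^H)

theorem measurable_MB (n H θ L : ℕ) (ρ : ℝ) (a : ℤ) : MeasurableSet (MB n H θ L ρ a) := by
  unfold MB
  exact Finset.measurableSet_biUnion _ fun p _ =>
    measurableSet_le ((measurable_S _).sub (measurable_S _)).norm measurable_const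

theorem S_sub_congr {x y : ℤ → E n} {u w : ℤ} (huw : u ≤ w) (h : ∀ j ∈ Finset.Ico u w, x j = y j) :
    S x w - S x u = S y w - S y u := by
  rw [S_sub x huw, S_sub y huw]
  exact Finset.sum_congr rfl h

theorem MB_congr {H θ L : ℕ} {ρ : ℝ} {a : ℤ} (hθ : 1 ≤ θ) {x y : ℤ → E n}
    (h : ∀ j ∈ MD H θ L a, x j = y j) : x ∈ MB n H θ L ρ a ↔ y ∈ MB n H θ L ρ a := by
  have h2θ : (2:ℤ) ≤ 2^θ := by
    calc (2:ℤ) = 2^1 := by norm_num
      _ ≤ 2^θ := pow_le_pow_right₀ (by norm_num) hθ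
  have hH : (0:ℤ) < 2^H := by positivity
  have key : ∀ p : ℕ × ℕ, p.1 < L+3 → p.2 < L+3 →
      S x (((a+1) * 2^θ - 1 + (p.2 : ℤ)) * 2^H) - S x ((a * 2^θ + 1 - (p.1 : ℤ)) * 2^H) =
      S y (((a+1) * 2^θ - 1 + (p.2 : ℤ)) * 2^H) - S y ((a * 2^θ + 1 - (p.1 : ℤ)) * 2^H) := by
    intro p h1 h2
    apply S_sub_congr
    · apply mul_le_mul_of_nonneg_right _ hH.le
      have : (a+1) * 2^θ = a * 2^θ + 2^θ := by ring
      omega
    · intro j hj
      apply h
      unfold MD
      rw [Finset.mem_Ico] at hj ⊢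
      constructor
      · refine le_trans ?_ hj.1
        apply mul_le_mul_of_nonneg_right _ hH.le
        omega
      · refine lt_of_lt_of_le hj.2 ?_
        apply mul_le_mul_of_nonneg_right _ hH.le
        omega
  unfold MB
  simp only [Set.mem_iUnion]
  constructor
  · rintro ⟨p, hp, hx⟩
    refine ⟨p, hp, ?_⟩
    rw [Finset.mem_product, Finset.mem_range, Finset.mem_range] at hp
    rw [Set.mem_ofPred_eq, key p hp.1 hp.2] at hx
    exact hx
  · rintro ⟨p, hp, hx⟩
    refine ⟨p, hp, ?_⟩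
    rw [Finset.mem_product, Finset.mem_range, Finset.mem_range] at hp
    rw [Set.mem_ofPred_eq, ← key p hp.1 hp.2] at hx
    exact hx

theorem sum_inv_sq (m : ℕ) : ∑ i ∈ Finset.range m, (1 / ((i:ℝ) + 1)^2) ≤ 2 := by
  have h : ∀ m : ℕ, ∑ i ∈ Finset.range (m+1), (1 / ((i:ℝ) + 1)^2) ≤ 2 - 1 / ((m:ℝ) + 1) := by
    intro m
    induction m with
    | zero => norm_num
    | succ m ih =>
      rw [Finset.sum_range_succ]
      have h1 : 1 / (((m + 1 : ℕ) : ℝ) + 1)^2 ≤ 1 / ((m:ℝ) + 1) - 1 / (((m + 1 : ℕ) : ℝ) + 1) := by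
        push_cast
        have hm : (0:ℝ) ≤ m := Nat.cast_nonneg m
        rw [div_sub_div _ _ (by positivity) (by positivity), div_le_div_iff₀ (by positivity) (by positivity)]
        nlinarith
      linarith
  cases m with
  | zero => norm_num
  | succ m =>
    have := h m
    have h1 : (0:ℝ) < 1 / ((m:ℝ) + 1) := by positivity
    linarith

/-- **probability of a near return across a cell** -/
theorem Q_MB (v : ℝ≥0) (H θ L : ℕ) (ρ C : ℝ) (hρ : 0 < ρ) (hC : 1 ≤ C) (hCθ : C^2 + 2 ≤ 2^θ)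
    (hθ : 2 ≤ θ) (hn : 100 ≤ n) (h : 3 * ρ^2 ≤ C * (n * (2^H * v))) (a : ℤ) (x : ℤ → E n) :
    Q n v (MD H θ L a) (MB n H θ L ρ a) x ≤ 16⁻¹ := by
  unfold MB
  refine (Q_biUnion v _ _ _ x).trans ?_
  have hH : (0:ℤ) < 2^H := by positivity
  have h4 : (4:ℝ) ≤ 2^θ := by
    calc (4:ℝ) = 2^2 := by norm_num
      _ ≤ 2^θ := pow_le_pow_right₀ (by norm_num) hθ
  have h4' : (4:ℤ) ≤ 2^θ := by
    calc (4:ℤ) = 2^2 := by norm_num
      _ ≤ 2^θ := pow_le_pow_right₀ (by norm_num) hθ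
  have hstep : ∀ p ∈ (Finset.range (L+3)) ×ˢ (Finset.range (L+3)),
      Q n v (MD H θ L a) {x | ‖S x (((a+1) * 2^θ - 1 + (p.2 : ℤ)) * 2^H) -
        S x ((a * 2^θ + 1 - (p.1 : ℤ)) * 2^H)‖ ≤ ρ} x ≤
      ENNReal.ofReal ((1/2^21) * (1 / ((p.1:ℝ) + 1)^2 * (1 / ((p.2:ℝ) + 1)^2))) := by
    intro p hp
    rw [Finset.mem_product, Finset.mem_range, Finset.mem_range] at hp
    obtain ⟨X, hX⟩ : ∃ X : ℝ, X = 2^θ - 2 + p.1 + p.2 := ⟨_, rfl⟩
    have hp1 : (0:ℝ) ≤ p.1 := Nat.cast_nonneg _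
    have hp2 : (0:ℝ) ≤ p.2 := Nat.cast_nonneg _
    have hXC : C^2 ≤ X := by rw [hX]; linarith
    have hX2 : 2 ≤ X := by rw [hX]; linarith
    have hX1 : (p.1:ℝ) + 1 ≤ X := by rw [hX]; linarith
    have hX3 : (p.2:ℝ) + 1 ≤ X := by rw [hX]; linarith
    have hC0 : 0 < C := by linarith
    have hX0 : 0 < X := by linarith
    have huw : (a * 2^θ + 1 - (p.1 : ℤ)) * 2^H ≤ ((a+1) * 2^θ - 1 + (p.2 : ℤ)) * 2^H := by
      apply mul_le_mul_of_nonneg_right _ hH.le
      have : (a+1) * 2^θ = a * 2^θ + 2^θ := by ring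
      omega
    have hsub : Finset.Ico ((a * 2^θ + 1 - (p.1 : ℤ)) * 2^H) (((a+1) * 2^θ - 1 + (p.2 : ℤ)) * 2^H) ⊆
        MD H θ L a := by
      intro j hj
      unfold MD
      rw [Finset.mem_Ico] at hj ⊢
      constructor
      · refine le_trans ?_ hj.1
        apply mul_le_mul_of_nonneg_right _ hH.le
        omega
      · refine lt_of_lt_of_le hj.2 ?_
        apply mul_le_mul_of_nonneg_right _ hH.le
        omega
    have hcard : (((MD H θ L a ∩ Finset.Ico ((a * 2^θ + 1 - (p.1 : ℤ)) * 2^H)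
        (((a+1) * 2^θ - 1 + (p.2 : ℤ)) * 2^H)).card : ℕ) : ℝ) = X * 2^H := by
      rw [Finset.inter_eq_right.mpr hsub, Int.card_Ico]
      have e1 : ((a+1) * 2^θ - 1 + (p.2 : ℤ)) * 2^H - (a * 2^θ + 1 - (p.1 : ℤ)) * 2^H =
          (2^θ - 2 + p.1 + p.2) * 2^H := by ring
      rw [e1]
      have e2 : (((((2:ℤ)^θ - 2 + p.1 + p.2) * 2^H).toNat : ℕ) : ℤ) = (2^θ - 2 + p.1 + p.2) * 2^H := by
        apply Int.toNat_of_nonneg
        apply mul_nonneg _ hH.le
        omega
      have e3 : (((((2:ℤ)^θ - 2 + p.1 + p.2) * 2^H).toNat : ℕ) : ℝ) =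
          (((((2:ℤ)^θ - 2 + p.1 + p.2) * 2^H).toNat : ℤ) : ℝ) := by push_cast; rfl
      rw [e3, e2, hX]
      push_cast
      ring
    have hm0 : 0 < Real.sqrt (X / C) := Real.sqrt_pos.mpr (by positivity)
    refine (Q_small v (MD H θ L a) huw ρ (X * 2^H * v) (Real.sqrt (X / C)) hm0 hρ ?_ ?_ x).trans ?_
    · rw [hcard]
    · rw [Real.sq_sqrt (by positivity)]
      have e1 : 3 * (X / C) * ρ^2 = (X / C) * (3 * ρ^2) := by ring
      have e2 : (n:ℝ) * (X * 2^H * v) = (X / C) * (C * (n * (2^H * v))) := by field_simp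
      rw [e1, e2]
      exact mul_le_mul_of_nonneg_left h (by positivity)
    · apply ENNReal.ofReal_le_ofReal
      have hCX : C ≤ X := by nlinarith
      have g1 : (1:ℝ) ≤ Real.sqrt (X / C) := by
        rw [Real.one_le_sqrt, one_le_div hC0]
        exact hCX
      have g2 : (1 / Real.sqrt (X / C))^n ≤ (1 / Real.sqrt (X / C))^100 := by
        apply pow_le_pow_of_le_one (by positivity) _ hn
        rw [div_le_one hm0]
        exact g1
      have g3 : (1 / Real.sqrt (X / C))^4 ≤ 1 / X := by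
        have e1 : (1 / Real.sqrt (X / C))^4 = 1 / ((Real.sqrt (X / C))^2)^2 := by
          rw [div_pow, one_pow, ← pow_mul]
        rw [e1, Real.sq_sqrt (by positivity), div_pow, one_div_div]
        rw [div_le_div_iff₀ (by positivity) hX0]
        nlinarith
      have g4 : (1 / Real.sqrt (X / C))^100 ≤ (1 / X)^25 := by
        have e1 : (1 / Real.sqrt (X / C))^100 = ((1 / Real.sqrt (X / C))^4)^25 := by rw [← pow_mul]
        rw [e1]
        exact pow_le_pow_left₀ (by positivity) g3 25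
      refine g2.trans (g4.trans ?_)
      have i0 : 1 / X ≤ 1 / 2 := one_div_le_one_div_of_le (by norm_num) hX2
      have i1 : 1 / X ≤ 1 / ((p.1:ℝ) + 1) := one_div_le_one_div_of_le (by positivity) hX1
      have i2 : 1 / X ≤ 1 / ((p.2:ℝ) + 1) := one_div_le_one_div_of_le (by positivity) hX3
      have i3 : (0:ℝ) ≤ 1 / X := by positivity
      calc (1 / X)^25 = (1/X)^21 * ((1/X)^2 * (1/X)^2) := by ring
        _ ≤ (1/2)^21 * ((1 / ((p.1:ℝ) + 1))^2 * (1 / ((p.2:ℝ) + 1))^2) := by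
            apply mul_le_mul (pow_le_pow_left₀ i3 i0 21) _ (by positivity) (by positivity)
            exact mul_le_mul (pow_le_pow_left₀ i3 i1 2) (pow_le_pow_left₀ i3 i2 2) (by positivity)
              (by positivity)
        _ = _ := by rw [div_pow, div_pow, div_pow, one_pow, one_pow]
  refine (Finset.sum_le_sum hstep).trans ?_
  rw [← ENNReal.ofReal_sum_of_nonneg (fun p _ => by positivity), ← Finset.mul_sum,
    Finset.sum_product]
  simp only [← Finset.mul_sum, ← Finset.sum_mul]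
  have h5 := sum_inv_sq (L+3)
  have h6 : (0:ℝ) ≤ ∑ i ∈ Finset.range (L+3), (1 / ((i:ℝ) + 1)^2) :=
    Finset.sum_nonneg fun i _ => by positivity
  have e : (16⁻¹ : ℝ≥0∞) = ENNReal.ofReal (1/16) := by
    rw [one_div, ENNReal.ofReal_inv_of_pos (by norm_num)]
    norm_num
  rw [e]
  apply ENNReal.ofReal_le_ofReal
  have h7 : (∑ i ∈ Finset.range (L+3), (1 / ((i:ℝ) + 1)^2)) * (∑ i ∈ Finset.range (L+3), (1 / ((i:ℝ) + 1)^2)) ≤
      2 * 2 := mul_le_mul h5 h5 h6 (by norm_num)
  have h8 : (1:ℝ)/2^21 * ((∑ i ∈ Finset.range (L+3), (1 / ((i:ℝ) + 1)^2)) *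
      (∑ i ∈ Finset.range (L+3), (1 / ((i:ℝ) + 1)^2))) ≤ 1/2^21 * (2*2) :=
    mul_le_mul_of_nonneg_left h7 (by positivity)
  refine h8.trans (by norm_num)

end Pool.Agent.J6H8.CDim
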