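import Pool.Agent.J6H8.CDim.AttrN

/-!
The expected weight of the bad levels, and the count of the bad levels.
-/

set_option autoImplicit false

namespace Pool.Agent.J6H8.CDim

open MeasureTheory ProbabilityTheory
open scoped NNReal ENNReal
open Pool.Agent.R966.CD (Par E gam S S_zero Q OE Small lmarginal_const lmarginal_le_of_subset' top
  le_top top_mem pow_top_le)
open Pool.Agent.R966.CD.Par (Zs measurable_Zs lmarginal_Zs lmarginal_const_mul prod_split amgm)

namespace PN

variable (P : PN) {n : ℕ}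

theorem BB_congr {i : ℕ} (hi : i + 1 ≤ P.k) {x y : ℤ → E n} (h : ∀ j ∈ P.W i, x j = y j) :
    x ∈ P.BB n i ↔ y ∈ P.BB n i := by
  have key : ∀ p : ℤ × ℕ, p ∈ P.blk ×ˢ Finset.range P.RR →
      (x ∈ CB (fun t => MB n (P.Hs i 1) P.θ P.LL (7 * P.r n (i+1)) (P.cl p.1 p.2 t)) P.mm ↔
      y ∈ CB (fun t => MB n (P.Hs i 1) P.θ P.LL (7 * P.r n (i+1)) (P.cl p.1 p.2 t)) P.mm) := by
    intro p hp
    rw [Finset.mem_product, Finset.mem_range] at hp
    apply CB_congr
    intro t ht
    obtain ⟨h1, h2⟩ := P.cl_mem (c := p.1) hp.2 ht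
    apply MB_congr (by unfold θ; omega)
    intro j hj
    apply h
    have h3 := P.sub_A hi hp.1 h1 h2 hj
    unfold Par.A at h3
    exact (Finset.mem_sdiff.mp h3).1
  unfold BB
  simp only [Set.mem_iUnion]
  constructor
  · rintro ⟨p, hp, hx⟩
    exact ⟨p, hp, (key p hp).mp hx⟩
  · rintro ⟨p, hp, hx⟩
    exact ⟨p, hp, (key p hp).mpr hx⟩

theorem F_congr {i : ℕ} {x y : ℤ → E n} (h : ∀ j ∈ P.W i, x j = y j) (l : ℕ) :
    x ∈ P.F n i l ↔ y ∈ P.F n i l := by
  have h0 : ∀ u : ℤ, |u| ≤ P.w i → S x u = S y u := P.S_congr h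
  unfold F
  rw [Set.mem_union, Set.mem_union, Set.mem_union, Set.mem_union]
  apply or_congr
  · apply or_congr
    · split
      · unfold Fdown SBd
        rw [Set.mem_union, Set.mem_union]
        apply or_congr (P.OE_congr h _ _ _ _ le_rfl)
        simp only [Set.mem_iUnion]
        constructor
        · rintro ⟨p, hp, h1⟩
          refine ⟨p, hp, ?_⟩
          simp only [Set.mem_ofPred_eq] at h1 ⊢
          rwa [← h0 p (P.anc_abs hp).2, ← h0 0 (by simp)]
        · rintro ⟨p, hp, h1⟩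
          refine ⟨p, hp, ?_⟩
          simp only [Set.mem_ofPred_eq] at h1 ⊢
          rwa [h0 p (P.anc_abs hp).2, h0 0 (by simp)]
      · rfl
    · exact P.OE_congr h _ _ _ _ le_rfl
  · split
    · rename_i hl1
      unfold Fown
      rw [Set.mem_union, Set.mem_union, Set.mem_union, Set.mem_union, Set.mem_union, Set.mem_union,
        Set.mem_union, Set.mem_union]
      apply or_congr ?_ (P.BB_congr hl1.2 h)
      apply or_congr (or_congr (P.OE_congr h _ _ _ _ le_rfl) (P.OE_congr h _ _ _ _ le_rfl))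
      apply or_congr
      · unfold SBp
        simp only [Set.mem_iUnion]
        constructor
        · rintro ⟨pq, hpq, h1⟩
          refine ⟨pq, hpq, ?_⟩
          rw [Finset.mem_filter, Finset.mem_product] at hpq
          simp only [Set.mem_ofPred_eq] at h1 ⊢
          rwa [← h0 _ (P.anc_abs hpq.1.1).2, ← h0 _ (P.anc_abs hpq.1.2).2]
        · rintro ⟨pq, hpq, h1⟩
          refine ⟨pq, hpq, ?_⟩
          rw [Finset.mem_filter, Finset.mem_product] at hpq
          simp only [Set.mem_ofPred_eq] at h1 ⊢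
          rwa [h0 _ (P.anc_abs hpq.1.1).2, h0 _ (P.anc_abs hpq.1.2).2]
      · unfold SBc
        simp only [Set.mem_iUnion]
        constructor
        · rintro ⟨p, hp, h1⟩
          refine ⟨p, hp, ?_⟩
          rw [Finset.mem_filter] at hp
          simp only [Set.mem_ofPred_eq] at h1 ⊢
          rwa [← h0 p (P.anc_abs hp.1).2, ← h0 0 (by simp)]
        · rintro ⟨p, hp, h1⟩
          refine ⟨p, hp, ?_⟩
          rw [Finset.mem_filter] at hp
          simp only [Set.mem_ofPred_eq] at h1 ⊢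
          rwa [h0 p (P.anc_abs hp.1).2, h0 0 (by simp)]
    · rfl

/-- weight of a block -/
noncomputable def Z (c : ℝ≥0∞) (i : ℕ) : (ℤ → E n) → ℝ≥0∞ := Zs P.k c (P.F n i)

theorem Z_congr (c : ℝ≥0∞) {i : ℕ} {x y : ℤ → E n} (h : ∀ j ∈ P.W i, x j = y j) :
    P.Z c i x = P.Z c i y := by
  unfold Z Zs
  congr 1
  apply Finset.sum_congr rfl
  intro l _
  congr 1
  by_cases hx : x ∈ P.F n i l
  · rw [Set.indicator_of_mem hx, Set.indicator_of_mem ((P.F_congr h l).mp hx)]
    rfl
  · rw [Set.indicator_of_notMem hx, Set.indicator_of_notMem (fun hy => hx ((P.F_congr h l).mpr hy))]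

/-- product of the weights of every other block -/
noncomputable def Pr (c : ℝ≥0∞) : ℕ → ℕ → (ℤ → E n) → ℝ≥0∞
  | 0, _ => fun _ => 1
  | m+1, i => fun x => P.Z c i x * Pr c m (i+2) x

theorem measurable_Z (c : ℝ≥0∞) (i : ℕ) : Measurable (P.Z (n := n) c i) :=
  measurable_Zs _ _ _ fun l => P.measurable_F n i l

theorem measurable_Pr (c : ℝ≥0∞) : ∀ m i, Measurable (P.Pr (n := n) c m i) := by
  intro m
  induction m with
  | zero => intro i; exact measurable_const
  | succ m ih =>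
    intro i
    exact (P.measurable_Z c i).mul (ih (i+2))

theorem Pr_congr (c : ℝ≥0∞) : ∀ m {i : ℕ} {x y : ℤ → E n} (_ : ∀ j ∈ P.W i, x j = y j),
    P.Pr c m i x = P.Pr c m i y := by
  intro m
  induction m with
  | zero => intro i x y _; rfl
  | succ m ih =>
    intro i x y h
    show P.Z c i x * P.Pr c m (i+2) x = P.Z c i y * P.Pr c m (i+2) y
    rw [P.Z_congr c h, ih (fun j hj => h j (P.W_sub (by omega) hj))]

theorem Pr_bound (hn : 100 ≤ n) (c : ℝ≥0∞)
    (hc : c * ENNReal.ofReal ((1/2 : ℝ)^(80*P.μ)) ≤ 2⁻¹) : ∀ m i, (m = 0 ∨ i + 2*m ≤ P.k + 1) →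
    ∀ x : ℤ → E n, (∫⋯∫⁻_(P.W i), P.Pr c m i ∂(fun _ => gam n P.vv)) x ≤ 2^m := by
  intro m
  induction m with
  | zero =>
    intro i _ x
    have : P.Pr (n := n) c 0 i = fun _ => 1 := rfl
    rw [this, lmarginal_const, pow_zero]
  | succ m ih =>
    intro i hi x
    have hW : P.W i = P.W (i+2) ∪ P.A i := by
      unfold Par.A
      rw [Finset.union_sdiff_of_subset (P.W_sub (by omega))]
    have hdis : Disjoint (P.W (i+2)) (P.A i) := Finset.disjoint_sdiff
    rw [hW, lmarginal_union _ _ (P.measurable_Pr c (m+1) i) hdis]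
    have hstep : (∫⋯∫⁻_(P.A i), P.Pr c (m+1) i ∂(fun _ => gam n P.vv)) ≤
        fun y => 2 * P.Pr (n := n) c m (i+2) y := by
      intro y
      have h1 : (∫⋯∫⁻_(P.A i), P.Pr c (m+1) i ∂(fun _ => gam n P.vv)) y =
          (∫⋯∫⁻_(P.A i), P.Z c i ∂(fun _ => gam n P.vv)) y * P.Pr c m (i+2) y := by
        have h3 : (∫⋯∫⁻_(P.A i), P.Pr c (m+1) i ∂(fun _ => gam n P.vv)) y =
            (∫⋯∫⁻_(P.A i), (fun z => P.Pr c m (i+2) y * P.Z c i z) ∂(fun _ => gam n P.vv)) y := by
          unfold lmarginal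
          apply lintegral_congr
          intro z
          show P.Z c i _ * P.Pr c m (i+2) _ = P.Pr c m (i+2) y * P.Z c i _
          rw [mul_comm]
          congr 1
          apply P.Pr_congr
          intro j hj
          rw [Function.updateFinset]
          rw [dif_neg]
          exact fun hj' => (Finset.disjoint_left.mp hdis) hj hj'
        rw [h3, lmarginal_const_mul _ _ _ _ (P.measurable_Z c i), mul_comm]
      rw [h1]
      apply mul_le_mul_left
      refine lmarginal_Zs P.vv (P.A i) P.k c _ _ (fun l => P.measurable_F n i l) y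
        (fun l hl => ?_) hc
      refine (P.Q_F hn i l hl (by omega) y).trans (le_of_eq ?_)
      rw [ENNReal.ofReal_pow (by positivity)]
    refine (lmarginal_mono hstep x).trans ?_
    have h2 : (∫⋯∫⁻_(P.W (i+2)), (fun y => 2 * P.Pr (n := n) c m (i+2) y) ∂(fun _ => gam n P.vv)) x =
        2 * (∫⋯∫⁻_(P.W (i+2)), P.Pr c m (i+2) ∂(fun _ => gam n P.vv)) x :=
      lmarginal_const_mul _ _ _ _ (P.measurable_Pr c m (i+2)) x
    rw [h2, pow_succ']
    exact mul_le_mul_right (ih (i+2) (by omega) x) _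

/-- number of bad levels of the walk -/
noncomputable def NB (n : ℕ) (x : ℤ → E n) : ℕ :=
  open Classical in ((Finset.range P.k).filter fun j => ¬ P.GG n j x).card

/-- largest scale of the events of a block -/
noncomputable def L (i : ℕ) (x : ℤ → E n) : ℕ := top P.k (P.F n i) x

/-- largest scale of the events of the core -/
noncomputable def Lc (x : ℤ → E n) : ℕ := top P.k (P.Fcore n) x

theorem NB_le (hn : 1 ≤ n) (x : ℤ → E n) :
    P.NB n x ≤ ∑ i ∈ Finset.range P.k, 3 * P.L i x + P.Lc x := by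
  classical
  have hsub : ((Finset.range P.k).filter fun j => ¬ P.GG n j x) ⊆
      ((Finset.range P.k).biUnion fun i => if P.L i x = 0 then (∅ : Finset ℕ) else
        Finset.Icc (i - P.L i x) (i + P.L i x)) ∪ Finset.Ico (P.k - P.Lc x) P.k := by
    intro j hj
    rw [Finset.mem_filter, Finset.mem_range] at hj
    obtain ⟨hjk, hbad⟩ := hj
    rw [Finset.mem_union]
    by_contra hcon
    rw [not_or] at hcon
    obtain ⟨hc1, hc2⟩ := hcon
    have hkey : ∀ i l, i < P.k → 1 ≤ l → l ≤ P.k → x ∈ P.F n i l → (i ≤ j + l ∧ j ≤ i + l) → False := by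
      intro i l hi h1 h2 h3 h4
      have h5 : l ≤ P.L i x := le_top h1 h2 h3
      apply hc1
      rw [Finset.mem_biUnion]
      refine ⟨i, Finset.mem_range.mpr hi, ?_⟩
      rw [if_neg (by omega), Finset.mem_Icc]
      omega
    apply hbad
    apply P.good_of hn hjk
    · intro i hi hmem
      refine hkey i (j - i) (by omega) (by omega) (by omega) ?_ (by omega)
      unfold F
      rw [if_pos (by omega)]
      exact Or.inl (Or.inl hmem)
    · intro hmem
      refine hkey j 1 (by omega) le_rfl (by omega) ?_ (by omega)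
      unfold F
      rw [if_pos (show 1 = 1 ∧ j + 1 ≤ P.k from ⟨rfl, by omega⟩)]
      exact Or.inr hmem
    · intro i hi hik hmem
      refine hkey i (i - j) (by omega) (by omega) (by omega) ?_ (by omega)
      exact Or.inl (Or.inr hmem)
    · intro hmem
      have h5 : P.k - j ≤ P.Lc x := le_top (by omega) (by omega) hmem
      apply hc2
      rw [Finset.mem_Ico]
      omega
  have h1 := (Finset.card_le_card hsub).trans (Finset.card_union_le _ _)
  have h2 : ((Finset.range P.k).biUnion fun i => if P.L i x = 0 then (∅ : Finset ℕ) else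
        Finset.Icc (i - P.L i x) (i + P.L i x)).card ≤ ∑ i ∈ Finset.range P.k, 3 * P.L i x := by
    refine Finset.card_biUnion_le.trans (Finset.sum_le_sum fun i _ => ?_)
    split
    · simp
    · rw [Nat.card_Icc]
      omega
  have h3 : (Finset.Ico (P.k - P.Lc x) P.k).card ≤ P.Lc x := by
    rw [Nat.card_Ico]
    omega
  have h4 : P.NB n x = ((Finset.range P.k).filter fun j => ¬ P.GG n j x).card := rfl
  omega

theorem prod_le_Pr (c : ℝ≥0∞) (x : ℤ → E n) : ∀ m i,
    ∏ t ∈ Finset.range m, c^(P.L (i + 2*t) x) ≤ P.Pr c m i x := by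
  intro m
  induction m with
  | zero =>
    intro i
    rw [Finset.prod_range_zero]
    exact le_refl _
  | succ m ih =>
    intro i
    rw [Finset.prod_range_succ']
    have h1 : ∏ t ∈ Finset.range m, c^(P.L (i + 2*(t+1)) x) = ∏ t ∈ Finset.range m, c^(P.L ((i+2) + 2*t) x) := by
      apply Finset.prod_congr rfl
      intro t _
      congr 2
      ring
    rw [h1, mul_comm]
    show _ ≤ P.Z c i x * P.Pr c m (i+2) x
    exact mul_le_mul' (pow_top_le _ _ _ _) (ih (i+2))

/-- measurable majorant of the weight -/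
noncomputable def Gm (c : ℝ≥0∞) (x : ℤ → E n) : ℝ≥0∞ :=
  P.Pr (c^9) ((P.k+1)/2) 0 x + P.Pr (c^9) (P.k/2) 1 x + Zs P.k (c^9) (P.Fcore n) x

theorem measurable_Gm (c : ℝ≥0∞) : Measurable (P.Gm (n := n) c) :=
  ((P.measurable_Pr _ _ _).add (P.measurable_Pr _ _ _)).add
    (measurable_Zs _ _ _ fun l => P.measurable_Fcore n l)

theorem pow_NB_le (hn : 1 ≤ n) (c : ℝ≥0∞) (hc : 1 ≤ c) (x : ℤ → E n) : c^(P.NB n x) ≤ P.Gm c x := by
  have h1 : c^(P.NB n x) ≤ c^(∑ i ∈ Finset.range P.k, 3 * P.L i x + P.Lc x) :=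
    pow_le_pow_right₀ hc (P.NB_le hn x)
  refine h1.trans ?_
  rw [pow_add, ← Finset.prod_pow_eq_pow_sum, prod_split]
  refine (amgm _ _ _).trans ?_
  unfold Gm
  refine add_le_add (add_le_add ?_ ?_) ?_
  · rw [← Finset.prod_pow]
    refine le_trans (le_of_eq ?_) (P.prod_le_Pr (c^9) x ((P.k+1)/2) 0)
    apply Finset.prod_congr rfl
    intro t _
    rw [← pow_mul, ← pow_mul]
    congr 1
    ring
  · rw [← Finset.prod_pow]
    refine le_trans (le_of_eq ?_) (P.prod_le_Pr (c^9) x (P.k/2) 1)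
    apply Finset.prod_congr rfl
    intro t _
    rw [← pow_mul, ← pow_mul]
    congr 1
    ring
  · refine le_trans ?_ (pow_top_le P.k (c^9) (P.Fcore n) x)
    rw [← pow_mul, ← pow_mul]
    apply pow_le_pow_right₀ hc
    have : P.Lc x = top P.k (P.Fcore n) x := rfl
    rw [this]
    omega

/-- **expected weight of the bad levels** -/
theorem lmarginal_Gm (hn : 100 ≤ n) (c : ℝ≥0∞)
    (hc : c^9 * ENNReal.ofReal ((1/2 : ℝ)^(80*P.μ)) ≤ 2⁻¹) (x : ℤ → E n) :
    (∫⋯∫⁻_(P.W 0), P.Gm c ∂(fun _ => gam n P.vv)) x ≤ 2^(P.k+2) := by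
  have h1 := P.Pr_bound hn (c^9) hc ((P.k+1)/2) 0 (by omega) x
  have h2 : (∫⋯∫⁻_(P.W 0), P.Pr (c^9) (P.k/2) 1 ∂(fun _ => gam n P.vv)) x ≤ 2^(P.k/2) :=
    lmarginal_le_of_subset' P.vv (P.W_sub (Nat.zero_le 1)) _ (P.measurable_Pr _ _ _) _
      (P.Pr_bound hn (c^9) hc (P.k/2) 1 (by omega)) x
  have h3 := lmarginal_Zs P.vv (P.W 0) P.k (c^9) _ (P.Fcore n) (fun l => P.measurable_Fcore n l) x
    (fun l hl => by
      refine (P.Q_Fcore hn l hl x).trans (le_of_eq ?_)
      rw [ENNReal.ofReal_pow (by positivity)]) hc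
  have h4 : (∫⋯∫⁻_(P.W 0), P.Gm c ∂(fun _ => gam n P.vv)) x =
      (∫⋯∫⁻_(P.W 0), P.Pr (c^9) ((P.k+1)/2) 0 ∂(fun _ => gam n P.vv)) x +
      (∫⋯∫⁻_(P.W 0), P.Pr (c^9) (P.k/2) 1 ∂(fun _ => gam n P.vv)) x +
      (∫⋯∫⁻_(P.W 0), Zs P.k (c^9) (P.Fcore n) ∂(fun _ => gam n P.vv)) x := by
    unfold lmarginal
    have m1 := (P.measurable_Pr (n := n) (c^9) ((P.k+1)/2) 0).comp
      (measurable_updateFinset (s := P.W 0) (x := x))
    have m2 := (P.measurable_Pr (n := n) (c^9) (P.k/2) 1).comp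
      (measurable_updateFinset (s := P.W 0) (x := x))
    have e1 := lintegral_add_left (μ := Measure.pi fun i : P.W 0 => gam n P.vv)
      m1 (fun y => P.Pr (c^9) (P.k/2) 1 (Function.updateFinset x (P.W 0) y))
    have e2 := lintegral_add_left (μ := Measure.pi fun i : P.W 0 => gam n P.vv)
      (m1.add m2) (fun y => Zs P.k (c^9) (P.Fcore n) (Function.updateFinset x (P.W 0) y))
    refine e2.trans ?_
    congr 1
  rw [h4]
  have p1 : (2:ℝ≥0∞)^((P.k+1)/2) ≤ 2^P.k + 0 := by
    rw [add_zero]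
    exact pow_le_pow_right₀ (by norm_num) (by omega)
  have p2 : (2:ℝ≥0∞)^(P.k/2) ≤ 2^P.k := pow_le_pow_right₀ (by norm_num) (by omega)
  have p3 : (2:ℝ≥0∞) ≤ 2 * 2^P.k := by
    nth_rewrite 1 [← mul_one (2:ℝ≥0∞)]
    exact mul_le_mul_right (one_le_pow₀ (by norm_num)) _
  calc _ ≤ (2^((P.k+1)/2) + 2^(P.k/2)) + 2 := add_le_add (add_le_add h1 h2) h3
    _ ≤ (2^P.k + 0 + 2^P.k) + 2 * 2^P.k := add_le_add (add_le_add p1 p2) p3
    _ = 2^(P.k+2) := by rw [add_zero, pow_add]; ring

end PN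

end Pool.Agent.J6H8.CDim
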