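import Pool.Agent.R966.CD.Weights

/-!
Weights on the image of a path, from good levels: the lower bound for the length of a chain which
crosses an annulus comes from a lower bound for the number of steps of a chain of times.
(Variant of `Pool.Agent.R966.CD.Path`.)
-/

set_option autoImplicit false

namespace Pool.Agent.J6H8.CDim

open scoped NNReal ENNReal
open Pool.Agent.R966.CD (Steps lst BD Wt)

variable {E : Type*} [MetricSpace E]

/-- level `j` is good at time `t`: no returns from afar, many steps are needed to travel a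
macroscopic distance of time, no large oscillations -/
structure GoodLevel (γ : ℝ → E) (R b M Λ κ : ℝ) (j : ℕ) (t : ℝ) : Prop where
  ret : ∀ u ∈ Set.Icc (0:ℝ) 1, dist (γ t) (γ u) < 5 * (R / b^j) → |u - t| ≤ M / b^(2*j)
  cross : ∀ (l : ℕ) (c : ℕ → ℝ), (∀ i ≤ l, c i ∈ Set.Icc (0:ℝ) 1) →
    (∀ i ≤ l, |c i - t| ≤ M / b^(2*j)) →
    (∀ i < l, dist (γ (c i)) (γ (c (i+1))) < 5 * (R / b^(j+1))) →
    κ / b^(2*j) ≤ |c 0 - c l| → Λ ≤ l
  osc : ∀ u ∈ Set.Icc (0:ℝ) 1, ∀ v ∈ Set.Icc (0:ℝ) 1, |u - t| ≤ M / b^(2*j) →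
    |v - t| ≤ M / b^(2*j) → (R / b^j) / 2 < dist (γ u) (γ v) → κ / b^(2*j) ≤ |u - v|

/-- the trace -/
abbrev Tr (γ : ℝ → E) : Set E := γ '' Set.Icc (0:ℝ) 1

/-- bad points of level `j` -/
def BadSet (γ : ℝ → E) (R b s : ℝ) (j : ℕ) : Set (Tr γ) :=
  {y | ∃ L : List (Tr γ), Steps (4 * (R / b^(j+1))) y L ∧ (∀ z ∈ L, dist y z ≤ 2 * (R / b^j)) ∧
    R / b^j ≤ dist y (lst y L) ∧ (L.length : ℝ) + 1 < 2 / s}

theorem follow {γ : ℝ → E} {R b M Λ κ : ℝ} {j : ℕ} {t : ℝ} (h : GoodLevel γ R b M Λ κ j t)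
    (hR : 0 < R) (hb : 0 < b) :
    ∀ (L : List (Tr γ)) (y : Tr γ) (u : ℝ), u ∈ Set.Icc (0:ℝ) 1 → γ u = y → |u - t| ≤ M / b^(2*j) →
      Steps (4 * (R / b^(j+1))) y L → (∀ z ∈ L, dist (γ t) (z : E) < 5 * (R / b^j)) →
      ∃ c : ℕ → ℝ, c 0 = u ∧ γ (c L.length) = (lst y L : Tr γ) ∧
        (∀ i ≤ L.length, c i ∈ Set.Icc (0:ℝ) 1) ∧
        (∀ i ≤ L.length, |c i - t| ≤ M / b^(2*j)) ∧
        (∀ i < L.length, dist (γ (c i)) (γ (c (i+1))) < 5 * (R / b^(j+1))) := by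
  intro L
  induction L with
  | nil =>
    intro y u hu hγ ht _ _
    exact ⟨fun _ => u, rfl, hγ, fun _ _ => hu, fun _ _ => ht, fun i hi => absurd hi (by simp)⟩
  | cons z L ih =>
    intro y u hu hγ ht hS hz
    obtain ⟨v, hv, hγv⟩ := z.2
    have h1 : |v - t| ≤ M / b^(2*j) := by
      apply h.ret v hv
      rw [hγv]
      exact hz z List.mem_cons_self
    have h2 : dist (γ u) (γ v) < 5 * (R / b^(j+1)) := by
      rw [hγ, hγv]
      have h3 : dist (y : E) (z : E) ≤ 4 * (R / b^(j+1)) := hS.1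
      have h4 : 0 < R / b^(j+1) := by positivity
      linarith
    obtain ⟨c, e1, e2, e3, e4, e5⟩ := ih z v hv hγv h1 hS.2
      (fun w hw => hz w (List.mem_cons_of_mem _ hw))
    refine ⟨fun i => match i with | 0 => u | (i+1) => c i, rfl, ?_, ?_, ?_, ?_⟩
    · exact e2
    · intro i hi
      cases i with
      | zero => exact hu
      | succ i => exact e3 i (by simpa using hi)
    · intro i hi
      cases i with
      | zero => exact ht
      | succ i => exact e4 i (by simpa using hi)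
    · intro i hi
      cases i with
      | zero =>
        show dist (γ u) (γ (c 0)) < _
        rw [e1]
        exact h2
      | succ i => exact e5 i (by simpa using hi)

theorem not_near_bad {γ : ℝ → E} {R b M Λ κ s : ℝ} {j : ℕ} {t : ℝ} (ht : t ∈ Set.Icc (0:ℝ) 1)
    (h : GoodLevel γ R b M Λ κ j t) (hR : 0 < R) (hb : 0 < b)
    (hs : 2 / s ≤ Λ + 1) (y : Tr γ) (hy : y ∈ BadSet γ R b s j) :
    3 * (R / b^j) ≤ dist (⟨γ t, t, ht, rfl⟩ : Tr γ) y := by
  by_contra hc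
  have hc' : dist (γ t) (y : E) < 3 * (R / b^j) := not_le.mp hc
  obtain ⟨L, hS, hL, hr, hlen⟩ := hy
  obtain ⟨u, hu, hγu⟩ := y.2
  have hrj : 0 < R / b^j := by positivity
  have h1 : |u - t| ≤ M / b^(2*j) := by
    apply h.ret u hu
    rw [hγu]
    linarith
  obtain ⟨c, e1, e2, e3, e4, e5⟩ := follow h hR hb L y u hu hγu h1 hS (by
    intro z hz
    have h2 : dist (y : E) (z : E) ≤ 2 * (R / b^j) := hL z hz
    have h3 := dist_triangle (γ t) (y : E) (z : E)
    linarith)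
  have h4 : κ / b^(2*j) ≤ |c 0 - c L.length| := by
    apply h.osc (c 0) (e3 0 (Nat.zero_le _)) (c L.length) (e3 _ le_rfl) (e4 0 (Nat.zero_le _))
      (e4 _ le_rfl)
    rw [e1, hγu, e2]
    have h5 : R / b^j ≤ dist (y : E) ((lst y L : Tr γ) : E) := hr
    linarith
  have h6 := h.cross L.length c e3 e4 e5 h4
  linarith

open Classical in
/-- number of bad levels -/
noncomputable def badCount (γ : ℝ → E) (R b M Λ κ : ℝ) (k : ℕ) (t : ℝ) : ℕ :=
  ((Finset.range k).filter fun j => ¬ GoodLevel γ R b M Λ κ j t).card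

/-- numerical constants -/
structure Cst (R b Λ s τ : ℝ) : Prop where
  hR : 0 < R
  hb : 11 ≤ b
  hs : 0 < s
  hsτ : s ≤ τ
  hτ : τ < 1
  hτb : 8 ≤ τ * b
  hlog : 4 * Real.log (τ / s) ≤ (b - 1) * Real.log 2
  hsΛ : 2 / s ≤ Λ + 1

/-- the data of the construction on the trace -/
def bd (γ : ℝ → E) {R b Λ s τ : ℝ} (C : Cst R b Λ s τ) : BD (Tr γ) where
  R := R
  b := b
  s := s
  τ := τ
  Bad := BadSet γ R b s
  hR := C.hR
  hb := C.hb
  hs := C.hs
  hsτ := C.hsτ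
  hτ := C.hτ
  hτb := C.hτb
  hlog := C.hlog
  good := by
    intro k x L hx hS hL hr
    by_contra hc
    exact hx ⟨L, hS, hL, hr, not_le.mp hc⟩

/-- **Deterministic theorem.** -/
theorem det (γ : ℝ → E) (hγ : ContinuousOn γ (Set.Icc 0 1)) {R b M Λ κ s τ : ℝ}
    (C : Cst R b Λ s τ) (q : ℝ≥0)
    (h : ∀ (ε : ℝ) (k0 : ℕ), 0 < ε → ∃ k n : ℕ, k0 ≤ k ∧ 0 < n ∧
      (∀ u ∈ Set.Icc (0:ℝ) 1, ∃ i ∈ Finset.range (n+1), dist (γ (i / n)) (γ u) ≤ R / b^k) ∧
      ∑ i ∈ Finset.range (n+1), (s^k * (τ / s)^(badCount γ R b M Λ κ k (i / n))) ^ (q : ℝ) ≤ ε) :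
    ∃ W : Wt (Tr γ), (∃ η : ℝ≥0 ≃ₜ ℝ≥0, ∀ (x a c : Tr γ) (t : ℝ≥0), dist x a ≤ t * dist x c →
      dist (W.homeo x) (W.homeo a) ≤ η t * dist (W.homeo x) (W.homeo c)) ∧
      dimH (Set.univ : Set W.Y) ≤ q := by
  classical
  refine ⟨(bd γ C).wt, ?_, ?_⟩
  · have hcomp : IsCompact (Tr γ) := isCompact_Icc.image_of_continuousOn hγ
    obtain ⟨D, hD⟩ := (Metric.isBounded_iff.mp hcomp.isBounded)
    obtain ⟨η, hη⟩ := (bd γ C).wt.qs D (fun x y => hD x.2 y.2)
    exact ⟨η, fun x a c t ht => hη x a c t ht⟩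
  · apply Wt.dimH_le
    intro ε k0 hε
    obtain ⟨k, n, hk, hn, hcov, hsum⟩ := h ε k0 hε
    have hmem : ∀ i ∈ Finset.range (n+1), ((i : ℝ) / n) ∈ Set.Icc (0:ℝ) 1 := by
      intro i hi
      have hi' : i ≤ n := by have := Finset.mem_range.mp hi; omega
      have hn' : (0:ℝ) < n := by exact_mod_cast hn
      constructor
      · positivity
      · rw [div_le_one hn']; exact_mod_cast hi'
    set pt : ℕ → Tr γ := fun i => if hi : ((i : ℝ) / n) ∈ Set.Icc (0:ℝ) 1 then ⟨γ (i / n), _, hi, rfl⟩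
      else ⟨γ 0, 0, by simp, rfl⟩ with hpt
    have hpt' : ∀ i ∈ Finset.range (n+1), (pt i : E) = γ (i / n) := by
      intro i hi
      rw [hpt]
      simp only
      rw [dif_pos (hmem i hi)]
    refine ⟨k, hk, (Finset.range (n+1)).image pt, ?_, ?_⟩
    · intro x
      obtain ⟨u, hu, hγu⟩ := x.2
      obtain ⟨i, hi, hd⟩ := hcov u hu
      refine ⟨pt i, Finset.mem_image_of_mem _ hi, ?_⟩
      show dist (pt i : E) (x : E) ≤ _
      rw [hpt' i hi, ← hγu]
      exact hd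
    · refine le_trans (Finset.sum_image_le_of_nonneg ?_) (le_trans (Finset.sum_le_sum ?_) hsum)
      · intro y _
        have := (bd γ C).wt.p_pos k y
        positivity
      · intro i hi
        apply Real.rpow_le_rpow ((bd γ C).wt.p_pos k _).le _ q.2
        refine (bd γ C).p_le k (pt i) _ ?_
        unfold badCount
        apply Finset.card_le_card
        intro j hj
        rw [Finset.mem_filter] at hj ⊢
        refine ⟨hj.1, fun hg => ?_⟩
        obtain ⟨y, hy, hd⟩ := hj.2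
        have h1 := not_near_bad (hmem i hi) hg C.hR (by linarith [C.hb]) C.hsΛ y hy
        have h2 : pt i = ⟨γ (i / n), _, hmem i hi, rfl⟩ := by
          rw [hpt]; simp only; rw [dif_pos (hmem i hi)]
        rw [h2] at hd
        have h3 : (bd γ C).r j = R / b^j := rfl
        rw [h3] at hd
        linarith

end Pool.Agent.J6H8.CDim
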