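import Pool.Agent.J6H8.CDim.CountN
import Pool.Agent.J6H8.CDim.PathN
import Pool.Agent.R966.CD.Limit

/-!
From the walks to the path.
-/

set_option autoImplicit false

namespace Pool.Agent.J6H8.CDim

open MeasureTheory ProbabilityTheory Filter Topology
open scoped NNReal ENNReal
open Pool.Agent.R966.CD (Par E gam S S_zero S_walk tr tr_abs tr_near tr_range tr_tendsto)

/-- the exponent of the resolution -/
def MM (μ η k m a : ℕ) : ℕ := 2*(4*μ)*(k+2) + 2*k + 100 + 2*η + m + a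

/-- the parameters along the refinements -/
def PP (μ η k m : ℕ) (hη : 4*μ ≤ 2^η) (hμ : 100*(η+10) ≤ μ) (a : ℕ) : PN where
  N := MM μ η k m a + 2*μ - 12
  β := 4*μ
  k := k
  hβ := by omega
  hN := by unfold MM; omega
  M := MM μ η k m a
  μ := μ
  η := η
  hβμ := rfl
  hM := by unfold MM; omega
  hη := hη
  hμ := hμ
  hMN := by unfold MM; omega

theorem MM_tendsto (μ η k m : ℕ) : Tendsto (MM μ η k m) atTop atTop := by
  refine tendsto_atTop_mono (f := fun a => a) (fun a => ?_) tendsto_id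
  unfold MM
  omega

/-- the number of steps of a chain crossing a level -/
noncomputable def Lam (μ η : ℕ) : ℝ := 2^(8*μ - 63 - 2*η - 1) - 1

/-- **a level which is good for the walks infinitely often is good for the path** -/
theorem good_of_frequently {n : ℕ} (γ : ℝ → E n) (hγ : ContinuousOn γ (Set.Icc 0 1)) (μ η k m i : ℕ)
    (hη : 4*μ ≤ 2^η) (hμ : 100*(η+10) ≤ μ) (hi : i ≤ 2^m) (j : ℕ) (hj : j < k) (x : ℕ → ℤ → E n)
    (hx : ∀ a : ℕ, ∀ u : ℤ, -((i * 2^(MM μ η k m a - m) : ℕ) : ℤ) ≤ u →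
      u ≤ (2^(MM μ η k m a) : ℕ) - ((i * 2^(MM μ η k m a - m) : ℕ) : ℤ) →
      S (x a) u = γ ((i:ℝ)/2^m + u / 2^(MM μ η k m a)) - γ ((i:ℝ)/2^m))
    (hf : ∃ᶠ a in atTop, (PP μ η k m hη hμ a).GG n j (x a)) :
    GoodLevel γ (Real.sqrt n) (2^(4*μ)) (2^(2*μ)) (Lam μ η) (1/2^(21+η)) j ((i:ℝ)/2^m) := by
  set t : ℝ := (i:ℝ)/2^m with ht
  have ht01 : t ∈ Set.Icc (0:ℝ) 1 := by
    constructor
    · positivity
    · rw [ht, div_le_one (by positivity)]
      exact_mod_cast hi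
  have hNm : ∀ a, m ≤ MM μ η k m a := by intro a; unfold MM; omega
  have hc : ∀ a, ((i * 2^(MM μ η k m a - m) : ℕ) : ℝ) = t * 2^(MM μ η k m a) := by
    intro a
    push_cast
    obtain ⟨e, he⟩ : ∃ e, MM μ η k m a = m + e := ⟨MM μ η k m a - m, by have := hNm a; omega⟩
    rw [he, Nat.add_sub_cancel_left, pow_add, ht]
    field_simp
  have hP : ∀ a, (PP μ η k m hη hμ a).M = MM μ η k m a := fun a => rfl
  have hPμ : ∀ a, (PP μ η k m hη hμ a).μ = μ := fun a => rfl
  have hPη : ∀ a, (PP μ η k m hη hμ a).η = η := fun a => rfl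
  have hPβ : ∀ a, (PP μ η k m hη hμ a).β = 4*μ := fun a => rfl
  -- the value of the walk at the truncations
  have hval : ∀ u ∈ Set.Icc (0:ℝ) 1, ∀ a, S (x a) (tr t u (MM μ η k m a)) =
      γ (t + (tr t u (MM μ η k m a)) / 2^(MM μ η k m a)) - γ t := by
    intro u hu a
    obtain ⟨h1, h2⟩ := tr_range ht01.2 hu (MM μ η k m a) _ (hc a)
    exact hx a _ h1 h2
  have hmem : ∀ u ∈ Set.Icc (0:ℝ) 1, ∀ a, t + (tr t u (MM μ η k m a)) / 2^(MM μ η k m a) ∈ Set.Icc (0:ℝ) 1 := by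
    intro u hu a
    obtain ⟨h1, h2⟩ := tr_range ht01.2 hu (MM μ η k m a) _ (hc a)
    have h1' : -(((i * 2^(MM μ η k m a - m) : ℕ) : ℝ)) ≤ (tr t u (MM μ η k m a) : ℝ) := by exact_mod_cast h1
    have h2' : (tr t u (MM μ η k m a) : ℝ) ≤ ((2^(MM μ η k m a) : ℕ) : ℝ) - ((i * 2^(MM μ η k m a - m) : ℕ) : ℝ) := by
      exact_mod_cast h2
    rw [hc a] at h1' h2'
    push_cast at h2'
    have hpos : (0:ℝ) < 2^(MM μ η k m a) := by positivity
    constructor
    · have : -t ≤ (tr t u (MM μ η k m a) : ℝ) / 2^(MM μ η k m a) := by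
        rw [le_div_iff₀ hpos]; linarith
      linarith
    · have : (tr t u (MM μ η k m a) : ℝ) / 2^(MM μ η k m a) ≤ 1 - t := by
        rw [div_le_iff₀ hpos]; linarith
      linarith
  have hlim : ∀ u ∈ Set.Icc (0:ℝ) 1, Tendsto (fun a => S (x a) (tr t u (MM μ η k m a))) atTop
      (𝓝 (γ u - γ t)) := by
    intro u hu
    have h1 : Tendsto (fun a => t + (tr t u (MM μ η k m a) : ℝ) / 2^(MM μ η k m a)) atTop
        (𝓝[Set.Icc (0:ℝ) 1] u) := by
      rw [tendsto_nhdsWithin_iff]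
      refine ⟨?_, Eventually.of_forall (hmem u hu)⟩
      have := (tr_tendsto t u _ (MM_tendsto μ η k m)).const_add t
      rwa [add_sub_cancel] at this
    have h2 := (hγ u hu).tendsto.comp h1
    refine (h2.sub_const (γ t)).congr fun a => ?_
    rw [hval u hu a]
    rfl
  have hbp : ∀ j : ℕ, ((2:ℝ)^(4*μ))^(2*j) = 2^(2*(4*μ)*j) := by
    intro j; rw [← pow_mul]; congr 1; ring
  have hbp1 : ∀ j : ℕ, ((2:ℝ)^(4*μ))^j = 2^((4*μ)*j) := by
    intro j; rw [← pow_mul]
  have hr : ∀ a j, (PP μ η k m hη hμ a).r n j = Real.sqrt n / ((2:ℝ)^(4*μ))^j := by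
    intro a j
    rw [hbp1]
    rfl
  -- the windows
  have hw : ∀ a i, i ≤ k + 1 → (((PP μ η k m hη hμ a).w i : ℕ) : ℝ) =
      2^(2*μ) / 2^(2*(4*μ)*i) * 2^(MM μ η k m a) := by
    intro a i hi
    have h1 := (PP μ η k m hη hμ a).w_real (i := i) hi
    have h2 : (((PP μ η k m hη hμ a).vv : ℝ≥0) : ℝ) = (2^(MM μ η k m a))⁻¹ := by
      unfold PN.vv
      push_cast
      rfl
    rw [h2] at h1
    have h3 : (0:ℝ) < 2^(MM μ η k m a) := by positivity
    rw [← div_eq_mul_inv, div_eq_iff h3.ne'] at h1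
    exact h1
  have hnormlim : ∀ u ∈ Set.Icc (0:ℝ) 1, ∀ v ∈ Set.Icc (0:ℝ) 1,
      Tendsto (fun a => ‖S (x a) (tr t u (MM μ η k m a)) - S (x a) (tr t v (MM μ η k m a))‖) atTop
      (𝓝 (dist (γ u) (γ v))) := by
    intro u hu v hv
    have h1 := ((hlim u hu).sub (hlim v hv)).norm
    have e : ‖γ u - γ t - (γ v - γ t)‖ = dist (γ u) (γ v) := by
      rw [dist_eq_norm]; congr 1; abel
    rwa [e] at h1
  have hdifflim : ∀ u v : ℝ, Tendsto (fun a => |(tr t u (MM μ η k m a) : ℝ) / 2^(MM μ η k m a) -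
      (tr t v (MM μ η k m a) : ℝ) / 2^(MM μ η k m a)|) atTop (𝓝 |u - v|) := by
    intro u v
    have h1 := ((tr_tendsto t u _ (MM_tendsto μ η k m)).sub (tr_tendsto t v _ (MM_tendsto μ η k m))).abs
    have e : u - t - (v - t) = u - v := by ring
    rwa [e] at h1
  have hwin : ∀ u : ℝ, |u - t| ≤ 2^(2*μ) / ((2:ℝ)^(4*μ))^(2*j) → ∀ a,
      |tr t u (MM μ η k m a)| ≤ ((PP μ η k m hη hμ a).w j : ℤ) := by
    intro u hu a
    have h1 := tr_abs t u (MM μ η k m a)
    have h2 := hw a j (by omega)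
    have h3 : (0:ℝ) < 2^(MM μ η k m a) := by positivity
    rw [hbp] at hu
    have h4 : |(tr t u (MM μ η k m a) : ℝ)| ≤ (((PP μ η k m hη hμ a).w j : ℕ) : ℝ) := by
      rw [h2]
      exact h1.trans (mul_le_mul_of_nonneg_right hu h3.le)
    exact_mod_cast h4
  have hHc : ∀ a, (2:ℝ)^((PP μ η k m hη hμ a).Hc j) = 1/2^(21+η) / 2^(2*(4*μ)*j) * 2^(MM μ η k m a) := by
    intro a
    unfold PN.Hc
    have h5 := (PP μ η k m hη hμ a).exp_le' (i := j) (by show j ≤ k + 1; omega)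
    rw [hPβ a, hP a, hPη a] at *
    obtain ⟨e, he⟩ : ∃ e, MM μ η k m a = 2*(4*μ)*j + (21 + η) + e :=
      ⟨MM μ η k m a - (2*(4*μ)*j + (21 + η)), by omega⟩
    have e1 : MM μ η k m a - 2*(4*μ)*j - 21 - η = e := by omega
    rw [e1, he, pow_add 2 (2*(4*μ)*j + (21 + η)) e, pow_add 2 (2*(4*μ)*j) (21 + η)]
    field_simp
  have hHc1 : ∀ a, 1 ≤ (PP μ η k m hη hμ a).Hc j := by
    intro a
    unfold PN.Hc
    have h5 := (PP μ η k m hη hμ a).exp_le' (i := j) (by show j ≤ k + 1; omega)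
    rw [hPβ a, hP a, hPη a] at *
    omega
  refine ⟨?_, ?_, ?_⟩
  · intro u hu hd
    refine le_of_tendsto_of_frequently (hdifflim u t) ?_
    have htt : ∀ a, tr t t (MM μ η k m a) = 0 := by
      intro a; unfold tr; rw [if_pos le_rfl]; simp
    have hev : ∀ᶠ a in atTop, ‖S (x a) (tr t u (MM μ η k m a)) - S (x a) (tr t t (MM μ η k m a))‖ <
        5 * (Real.sqrt n / ((2:ℝ)^(4*μ))^j) := by
      refine (hnormlim u hu t ht01).eventually_lt_const ?_
      rwa [dist_comm]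
    refine (hf.and_eventually hev).mono ?_
    rintro a ⟨hG, h1⟩
    rw [htt a, S_zero, sub_zero, ← hr a j] at h1
    have h2 := hG.ret _ (by
      have h3 := tr_abs t u (MM μ η k m a)
      have h4 := hw a 0 (by omega)
      rw [mul_zero, pow_zero, div_one] at h4
      have h5 : |(tr t u (MM μ η k m a) : ℝ)| ≤ (((PP μ η k m hη hμ a).w 0 : ℕ) : ℝ) := by
        rw [h4]
        refine h3.trans (mul_le_mul_of_nonneg_right ?_ (by positivity))
        have h10 : (1:ℝ) ≤ 2^(2*μ) := one_le_pow₀ (by norm_num)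
        refine le_trans ?_ h10
        rw [abs_le]
        obtain ⟨h6, h7⟩ := hu
        obtain ⟨h8, h9⟩ := ht01
        constructor <;> linarith
      exact_mod_cast h5) h1
    have h3 : |(tr t u (MM μ η k m a) : ℝ)| ≤ (((PP μ η k m hη hμ a).w j : ℕ) : ℝ) := by exact_mod_cast h2
    rw [hw a j (by omega)] at h3
    rw [htt a]
    have h6 : (0:ℝ) < 2^(MM μ η k m a) := by positivity
    rw [Int.cast_zero, zero_div, sub_zero, abs_div, abs_of_pos h6, div_le_iff₀ h6, hbp]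
    exact h3
  · intro l c hcm hcw hcd hcs
    have hκ : (0:ℝ) < 1/2^(21+η) / ((2:ℝ)^(4*μ))^(2*j) := by positivity
    have hev1 : ∀ᶠ a in atTop, ∀ i' ∈ Finset.range l,
        ‖S (x a) (tr t (c i') (MM μ η k m a)) - S (x a) (tr t (c (i'+1)) (MM μ η k m a))‖ <
        5 * (Real.sqrt n / ((2:ℝ)^(4*μ))^(j+1)) := by
      rw [Filter.eventually_all_finset]
      intro i' hi'
      rw [Finset.mem_range] at hi'
      exact (hnormlim (c i') (hcm i' hi'.le) (c (i'+1)) (hcm (i'+1) hi')).eventually_lt_const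
        (hcd i' hi')
    have hev2 : ∀ᶠ a in atTop, (1/2^(21+η) / ((2:ℝ)^(4*μ))^(2*j)) / 2 <
        |(tr t (c 0) (MM μ η k m a) : ℝ) / 2^(MM μ η k m a) -
        (tr t (c l) (MM μ η k m a) : ℝ) / 2^(MM μ η k m a)| :=
      (hdifflim (c 0) (c l)).eventually_const_lt (lt_of_lt_of_le (by linarith) hcs)
    obtain ⟨a, hG, h1, h2⟩ := (hf.and_eventually (hev1.and hev2)).exists
    have h3 := hG.cross l (fun i' => tr t (c i') (MM μ η k m a))
      (fun i' hi' => hwin (c i') (hcw i' hi') a)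
      (fun i' hi' => by
        have := h1 i' (Finset.mem_range.mpr hi')
        rw [← hr a (j+1)] at this
        exact this) (by
        have h6 : (0:ℝ) < 2^(MM μ η k m a) := by positivity
        rw [← sub_div, abs_div, abs_of_pos h6, lt_div_iff₀ h6, hbp] at h2
        have h7 : (2:ℝ)^((PP μ η k m hη hμ a).Hc j - 1) =
            1/2^(21+η) / 2^(2*(4*μ)*j) / 2 * 2^(MM μ η k m a) := by
          have h8 : (2:ℝ)^((PP μ η k m hη hμ a).Hc j) = 2 * 2^((PP μ η k m hη hμ a).Hc j - 1) := by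
            rw [← pow_succ']
            congr 1
            have := hHc1 a
            omega
          have h9 := hHc a
          rw [h8] at h9
          linarith
        rw [← h7] at h2
        have h10 : ((2:ℤ)^((PP μ η k m hη hμ a).Hc j - 1) : ℤ) <
            |tr t (c 0) (MM μ η k m a) - tr t (c l) (MM μ η k m a)| := by
          exact_mod_cast h2
        exact h10.le)
    unfold Lam
    have h4 : ((2^((PP μ η k m hη hμ a).KK - 1) : ℕ) : ℝ) ≤ ((l + 1 : ℕ) : ℝ) := by exact_mod_cast h3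
    have h5 : (PP μ η k m hη hμ a).KK - 1 = 8*μ - 63 - 2*η - 1 := rfl
    rw [h5] at h4
    push_cast at h4
    linarith
  · intro u hu v hv hut hvt hd
    refine ge_of_tendsto_of_frequently (hdifflim u v) ?_
    have hev : ∀ᶠ a in atTop, (Real.sqrt n / ((2:ℝ)^(4*μ))^j) / 2 <
        ‖S (x a) (tr t u (MM μ η k m a)) - S (x a) (tr t v (MM μ η k m a))‖ :=
      (hnormlim u hu v hv).eventually_const_lt hd
    refine (hf.and_eventually hev).mono ?_
    rintro a ⟨hG, h1⟩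
    rw [← hr a j] at h1
    have h2 := hG.osc _ _ (hwin u hut a) (hwin v hvt a) h1
    have h3 : (2:ℝ)^((PP μ η k m hη hμ a).Hc j) ≤ |((tr t u (MM μ η k m a) : ℝ)) - (tr t v (MM μ η k m a) : ℝ)| := by
      exact_mod_cast h2
    rw [hHc a] at h3
    have h6 : (0:ℝ) < 2^(MM μ η k m a) := by positivity
    rw [← sub_div, abs_div, abs_of_pos h6, le_div_iff₀ h6, hbp]
    exact h3

end Pool.Agent.J6H8.CDim
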