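import Pool.Agent.J6H8.CDim.MajN
import Pool.Agent.R966.CD.Upper

/-!
Brownian traces in fixed high dimension have small conformal dimension.
-/

set_option autoImplicit false

namespace Pool.Agent.J6H8.CDim

open MeasureTheory ProbabilityTheory Filter Topology
open scoped NNReal ENNReal
open Pool.Agent.R966.CD (E gam IsBM path continuous_path Wt sq_le_two_pow pow_swap cover_majorant)

theorem exists_par (q : ℝ) (hq : 1 < q) (hq2 : q ≤ 2) : ∃ μ η : ℕ, 4*μ ≤ 2^η ∧ 100*(η+10) ≤ μ ∧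
    ((65 + 2*η : ℕ) : ℝ) * q + 3 ≤ 2 * ((4*μ : ℕ) : ℝ) * (q - 1) := by
  have h1 := tendsto_pow_const_div_const_pow_of_one_lt 1 (show (1:ℝ) < 2 by norm_num)
  have h0 : 0 < (q - 1) / 100 := by
    have : 0 < q - 1 := by linarith
    positivity
  have h2 := ((h1.eventually_lt_const h0).and (eventually_ge_atTop 120)).exists
  obtain ⟨η, h3, h4⟩ := h2
  rw [pow_one, div_lt_iff₀ (by positivity)] at h3
  obtain ⟨e, he⟩ : ∃ e, η = e + 2 := ⟨η - 2, by omega⟩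
  refine ⟨2^e, η, ?_, ?_, ?_⟩
  · rw [he, pow_add]
    omega
  · have h5 := sq_le_two_pow e (by omega)
    refine le_trans ?_ h5
    have : 118 ≤ e := by omega
    rw [he]
    nlinarith
  · have h6 : ((4 * 2^e : ℕ) : ℝ) = 2^η := by
      rw [he, pow_add]
      push_cast
      ring
    rw [h6]
    have h7 : (120:ℝ) ≤ η := by exact_mod_cast h4
    push_cast
    nlinarith

/-- the constants -/
theorem cst (μ η n : ℕ) (hμ : 100*(η+10) ≤ μ) (hn : 1 ≤ n) : Cst (Real.sqrt n) (2^(4*μ)) (Lam μ η)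
    (2^(65 + 2*η) / (2^(4*μ))^2) (8 / 2^(4*μ)) := by
  have hn' : (0:ℝ) < n := by exact_mod_cast hn
  have h0 : (0:ℝ) < 2^(4*μ) := by positivity
  obtain ⟨e, he⟩ : ∃ e, 4*μ = 65 + 2*η + e := ⟨4*μ - (65 + 2*η), by omega⟩
  have h1 : (2:ℝ)^65 ≤ 2^(4*μ) := pow_le_pow_right₀ (by norm_num) (by omega)
  have h2 : (8 / (2:ℝ)^(4*μ)) / (2^(65 + 2*η) / (2^(4*μ))^2) = 2^(e + 3) := by
    rw [he, pow_add 2 (65 + 2*η) e, pow_add 2 e 3]
    field_simp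
    norm_num
  refine ⟨Real.sqrt_pos.mpr hn', ?_, by positivity, ?_, ?_, ?_, ?_, ?_⟩
  · refine le_trans ?_ h1
    norm_num
  · rw [div_le_div_iff₀ (by positivity) h0]
    have h3 : (2:ℝ)^(65 + 2*η) ≤ 2^(4*μ) := pow_le_pow_right₀ (by norm_num) (by omega)
    nlinarith
  · rw [div_lt_one h0]
    refine lt_of_lt_of_le ?_ h1
    norm_num
  · rw [div_mul_cancel₀ _ h0.ne']
  · rw [h2, Real.log_pow]
    have hlog : 0 < Real.log 2 := Real.log_pos (by norm_num)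
    have h3 : (4:ℝ) * ((e + 3 : ℕ) : ℝ) ≤ 2^(4*μ) - 1 := by
      have h4 : (e:ℝ) + 1 ≤ 2^e := by exact_mod_cast Nat.lt_two_pow_self
      have h5 : (2:ℝ)^(4*μ) = 2^(65 + 2*η) * 2^e := by rw [he, pow_add 2 (65 + 2*η) e]
      have h6 : (2:ℝ)^65 ≤ 2^(65 + 2*η) := pow_le_pow_right₀ (by norm_num) (by omega)
      have h7 : (2:ℝ)^65 * 2^e ≤ 2^(65 + 2*η) * 2^e := mul_le_mul_of_nonneg_right h6 (by positivity)
      have h8 : (36893488147419103232:ℝ) = 2^65 := by norm_num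
      rw [h5]
      push_cast
      have h9 : (1:ℝ) ≤ 2^e := one_le_pow₀ (by norm_num)
      nlinarith
    calc 4 * (((e + 3 : ℕ) : ℝ) * Real.log 2) = (4 * ((e + 3 : ℕ) : ℝ)) * Real.log 2 := by ring
      _ ≤ _ := mul_le_mul_of_nonneg_right h3 hlog.le
  · apply le_of_eq
    unfold Lam
    rw [sub_add_cancel]
    have e1 : (2:ℝ)^(2*(4*μ)) = 2^(8*μ - 63 - 2*η - 1) * 2^(64 + 2*η) := by
      rw [← pow_add]; congr 1; omega
    have e2 : ((2:ℝ)^(4*μ))^2 = 2^(8*μ - 63 - 2*η - 1) * 2^(64 + 2*η) := by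
      rw [← e1, ← pow_mul]; congr 1; ring
    have e3 : (2:ℝ)^(65 + 2*η) = 2 * 2^(64 + 2*η) := by
      rw [← pow_succ']; congr 1; ring
    rw [e2, e3]
    field_simp

theorem s_bound (E β : ℕ) (q : ℝ) (h : (E:ℝ) * q + 3 ≤ 2 * β * (q - 1)) (k : ℕ) :
    (((2:ℝ)^E / (2^β)^2)^k)^q * (2^((2*β+1)*k) + 1) * 2^(k+2) ≤ 8 * (1/2)^k := by
  have h2 : (0:ℝ) < 2 := by norm_num
  have e1 : (2:ℝ)^E / (2^β)^2 = (2:ℝ)^((E:ℝ) - 2*β) := by
    rw [Real.rpow_sub h2]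
    congr 1
    · exact (Real.rpow_natCast _ _).symm
    · rw [← pow_mul, ← Real.rpow_natCast]
      congr 1
      push_cast
      ring
  have e2 : (((2:ℝ)^E / (2^β)^2)^k)^q = (2:ℝ)^(((E:ℝ) - 2*β)*q*k) := by
    rw [e1, ← Real.rpow_natCast, ← Real.rpow_mul h2.le, ← Real.rpow_mul h2.le]
    congr 1
    ring
  have e3 : (2:ℝ)^((2*β+1)*k) + 1 ≤ 2 * 2^((2*β+1)*k) := by
    have : (1:ℝ) ≤ 2^((2*β+1)*k) := one_le_pow₀ (by norm_num)
    linarith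
  have e4 : (2:ℝ)^((2*β+1)*k) = (2:ℝ)^((2*(β:ℝ)+1)*k) := by
    rw [← Real.rpow_natCast]
    congr 1
    push_cast
    ring
  have e5 : (2:ℝ)^(k+2) = 4 * (2:ℝ)^(k:ℝ) := by
    rw [pow_add, Real.rpow_natCast]
    ring
  have e6 : (1/2:ℝ)^k = (2:ℝ)^(-(k:ℝ)) := by
    rw [Real.rpow_neg h2.le, Real.rpow_natCast, one_div, inv_pow]
  have hpos1 : (0:ℝ) < (2:ℝ)^(((E:ℝ) - 2*β)*q*k) := Real.rpow_pos_of_pos h2 _
  rw [e2, e5, e6]
  calc (2:ℝ)^(((E:ℝ) - 2*β)*q*k) * (2^((2*β+1)*k) + 1) * (4 * (2:ℝ)^(k:ℝ))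
      ≤ (2:ℝ)^(((E:ℝ) - 2*β)*q*k) * (2 * 2^((2*β+1)*k)) * (4 * (2:ℝ)^(k:ℝ)) := by
        gcongr
    _ = 8 * ((2:ℝ)^(((E:ℝ) - 2*β)*q*k) * (2:ℝ)^((2*(β:ℝ)+1)*k) * (2:ℝ)^(k:ℝ)) := by
        rw [e4]; ring
    _ = 8 * (2:ℝ)^((((E:ℝ) - 2*β)*q*k) + ((2*(β:ℝ)+1)*k) + (k:ℝ)) := by
        rw [← Real.rpow_add h2, ← Real.rpow_add h2]
    _ ≤ 8 * (2:ℝ)^(-(k:ℝ)) := by
        apply mul_le_mul_of_nonneg_left _ (by norm_num)
        apply Real.rpow_le_rpow_of_exponent_le (by norm_num)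
        have hk : (0:ℝ) ≤ k := Nat.cast_nonneg _
        have h3 : ((E:ℝ) - 2*β)*q + (2*(β:ℝ)+1) + 1 + 1 ≤ 0 := by nlinarith
        nlinarith

/-- **upper bound** -/
theorem upper (q : ℝ≥0) (hq : 1 < q) (hq2 : q ≤ 2) {n : ℕ} (hn : 100 ≤ n) {Ω : Type*}
    [MeasurableSpace Ω] (P : Measure Ω) [IsProbabilityMeasure P] (B : ℝ≥0 → Ω → E n) (hB : IsBM P B) :
    ∀ᵐ ω ∂P, ∃ W : Wt (Tr (path B ω)), (∃ η : ℝ≥0 ≃ₜ ℝ≥0, ∀ (x a c : Tr (path B ω)) (t : ℝ≥0),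
      dist x a ≤ t * dist x c →
      dist (W.homeo x) (W.homeo a) ≤ η t * dist (W.homeo x) (W.homeo c)) ∧
      dimH (Set.univ : Set W.Y) ≤ q := by
  have hq' : (1:ℝ) < q := by exact_mod_cast hq
  have hq2' : (q:ℝ) ≤ 2 := by exact_mod_cast hq2
  obtain ⟨μ, η, hη, hμ, hβq⟩ := exists_par q hq' hq2'
  obtain ⟨s, hs⟩ : ∃ s : ℝ, s = 2^(65 + 2*η) / (2^(4*μ))^2 := ⟨_, rfl⟩
  obtain ⟨τ, hτ⟩ : ∃ τ : ℝ, τ = 8 / 2^(4*μ) := ⟨_, rfl⟩
  obtain ⟨cr, hcr⟩ : ∃ cr : ℝ, cr = (τ / s)^(q:ℝ) := ⟨_, rfl⟩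
  have hn2 : 2 ≤ n := by omega
  have C : Cst (Real.sqrt n) (2^(4*μ)) (Lam μ η) s τ := by
    rw [hs, hτ]; exact cst μ η n hμ (by omega)
  have hts : 1 ≤ τ / s := by
    rw [le_div_iff₀ C.hs, one_mul]; exact C.hsτ
  have hcr1 : 1 ≤ cr := by rw [hcr]; exact Real.one_le_rpow hts q.2
  obtain ⟨c0, hc0⟩ : ∃ c0 : ℝ≥0∞, c0 = ENNReal.ofReal cr := ⟨_, rfl⟩
  have hc01 : 1 ≤ c0 := by rw [hc0, ← ENNReal.ofReal_one]; exact ENNReal.ofReal_le_ofReal hcr1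
  have hcr2 : cr ≤ 2^(8*μ) := by
    have h1 : τ / s ≤ 2^(4*μ) := by
      rw [hs, hτ]
      have h3 : (8:ℝ) ≤ 2^(65 + 2*η) := by
        calc (8:ℝ) = 2^3 := by norm_num
          _ ≤ _ := pow_le_pow_right₀ (by norm_num) (by omega)
      have h4 : (0:ℝ) < 2^(4*μ) := by positivity
      rw [div_div_div_eq, div_le_iff₀ (by positivity)]
      nlinarith [mul_pos h4 h4]
    have h2 : cr ≤ (2^(4*μ))^(q:ℝ) := by
      rw [hcr]
      exact Real.rpow_le_rpow (by linarith) h1 q.2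
    refine h2.trans ?_
    have h3 : (1:ℝ) ≤ 2^(4*μ) := one_le_pow₀ (by norm_num)
    calc ((2:ℝ)^(4*μ))^(q:ℝ) ≤ ((2:ℝ)^(4*μ))^(2:ℝ) := Real.rpow_le_rpow_of_exponent_le h3 hq2'
      _ = 2^(8*μ) := by
        have : (2:ℝ) = ((2:ℕ):ℝ) := by norm_num
        nth_rewrite 2 [this]
        rw [Real.rpow_natCast, ← pow_mul]
        congr 1
        ring
  have hc09 : c0^9 * ENNReal.ofReal ((1/2 : ℝ)^(80*μ)) ≤ 2⁻¹ := by
    rw [hc0, ← ENNReal.ofReal_pow (by linarith), ← ENNReal.ofReal_mul (by positivity)]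
    have e : (2⁻¹ : ℝ≥0∞) = ENNReal.ofReal (1/2) := by
      rw [one_div, ENNReal.ofReal_inv_of_pos (by norm_num)]
      norm_num
    rw [e]
    apply ENNReal.ofReal_le_ofReal
    have h1 : cr^9 ≤ 2^(72*μ) := by
      have := pow_le_pow_left₀ (by linarith : (0:ℝ) ≤ cr) hcr2 9
      refine this.trans (le_of_eq ?_)
      rw [← pow_mul]
      congr 1
      ring
    refine (mul_le_mul_of_nonneg_right h1 (by positivity)).trans ?_
    have h2 := pow_cmp (72*μ) (80*μ) 1 (by omega)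
    rwa [pow_one] at h2
  -- the majorants
  have hmaj : ∀ k i : ℕ, ∃ H : Ω → ℝ≥0∞, Measurable H ∧ ∫⁻ ω, H ω ∂P ≤ 2^(k+2) ∧
      (i ≤ 2^((2*(4*μ)+1)*k) → ∀ ω, (Continuous fun t => B t ω) →
      c0^(badCount (path B ω) (Real.sqrt n) (2^(4*μ)) (2^(2*μ)) (Lam μ η) (1/2^(21+η)) k
        ((i:ℝ)/2^((2*(4*μ)+1)*k))) ≤ H ω) := by
    intro k i
    by_cases hi : i ≤ 2^((2*(4*μ)+1)*k)
    · obtain ⟨H, h1, h2, h3⟩ := majorant hB hn μ η k ((2*(4*μ)+1)*k) i hη hμ hi c0 hc01 hc09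
      exact ⟨H, h1, h2, fun _ => h3⟩
    · exact ⟨fun _ => 0, measurable_const, by simp, fun h => absurd h hi⟩
  choose H hH1 hH2 hH3 using hmaj
  obtain ⟨k1, hk1⟩ : ∃ k1 : ℕ, k1 = max 4 (1152 * (2*(4*μ)+1)) := ⟨_, rfl⟩
  have hk1' : ∀ k, k1 ≤ k → 1 ≤ k ∧ 1152 * ((2*(4*μ)+1)*k) ≤ 2^k := by
    intro k hk
    have h4 : 4 ≤ k := le_trans (le_trans (le_max_left _ _) hk1.ge) hk
    have h5 : 1152 * (2*(4*μ)+1) ≤ k := le_trans (le_trans (le_max_right _ _) hk1.ge) hk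
    refine ⟨by omega, le_trans ?_ (sq_le_two_pow k h4)⟩
    rw [← mul_assoc]
    exact Nat.mul_le_mul_right _ h5
  have hcov : ∀ k : ℕ, ∃ H : Ω → ℝ≥0∞, Measurable H ∧ ∫⁻ ω, H ω ∂P ≤ ENNReal.ofReal (2 * (1/2)^k) ∧
      (k1 ≤ k → ∀ ω, (Continuous fun t => B t ω) →
      (∃ u ∈ Set.Icc (0:ℝ) 1, Real.sqrt n / ((2:ℝ)^(4*μ))^k <
        dist (path B ω ((⌊u * 2^((2*(4*μ)+1)*k)⌋₊ : ℝ) / 2^((2*(4*μ)+1)*k))) (path B ω u)) → 1 ≤ H ω) := by
    intro k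
    by_cases hk : k1 ≤ k
    · obtain ⟨H, h1, h2, h3⟩ := cover_majorant hB hn2 (4*μ) k ((2*(4*μ)+1)*k) (hk1' k hk).1 rfl (hk1' k hk).2
      exact ⟨H, h1, h2, fun _ => h3⟩
    · exact ⟨fun _ => 0, measurable_const, by simp, fun h => absurd h hk⟩
  choose H' hH'1 hH'2 hH'3 using hcov
  obtain ⟨A, hA⟩ : ∃ A : ℕ → Ω → ℝ≥0∞, A = fun k ω => ENNReal.ofReal ((s^k)^(q:ℝ)) *
      ∑ i ∈ Finset.range (2^((2*(4*μ)+1)*k) + 1), H k i ω + H' k ω := ⟨_, rfl⟩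
  have hAm : ∀ k, Measurable (A k) := by
    intro k
    rw [hA]
    exact ((Finset.measurable_fun_sum _ fun i _ => hH1 k i).const_mul _).add (hH'1 k)
  have hAint : ∀ k, ∫⁻ ω, A k ω ∂P ≤ ENNReal.ofReal (10 * (1/2)^k) := by
    intro k
    have h1 : ∫⁻ ω, A k ω ∂P = ENNReal.ofReal ((s^k)^(q:ℝ)) *
        ∑ i ∈ Finset.range (2^((2*(4*μ)+1)*k) + 1), ∫⁻ ω, H k i ω ∂P + ∫⁻ ω, H' k ω ∂P := by
      rw [hA]
      rw [lintegral_add_right _ (hH'1 k), lintegral_const_mul _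
        (Finset.measurable_fun_sum _ fun i _ => hH1 k i), lintegral_finsetSum _ fun i _ => hH1 k i]
    rw [h1]
    have h2 : ∑ i ∈ Finset.range (2^((2*(4*μ)+1)*k) + 1), ∫⁻ ω, H k i ω ∂P ≤
        ENNReal.ofReal ((2^((2*(4*μ)+1)*k) + 1) * 2^(k+2)) := by
      refine (Finset.sum_le_sum fun i _ => hH2 k i).trans (le_of_eq ?_)
      rw [Finset.sum_const, Finset.card_range, nsmul_eq_mul, ENNReal.ofReal_mul (by positivity)]
      congr 1
      · rw [← ENNReal.ofReal_natCast]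
        congr 1
        push_cast
        ring
      · rw [ENNReal.ofReal_pow (by norm_num)]
        norm_num
    have h3 : ENNReal.ofReal ((s^k)^(q:ℝ)) * ENNReal.ofReal ((2^((2*(4*μ)+1)*k) + 1) * 2^(k+2)) ≤
        ENNReal.ofReal (8 * (1/2)^k) := by
      rw [← ENNReal.ofReal_mul (by have := C.hs; positivity)]
      apply ENNReal.ofReal_le_ofReal
      have := s_bound (65 + 2*η) (4*μ) q hβq k
      rw [← hs] at this
      rwa [← mul_assoc]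
    calc _ ≤ ENNReal.ofReal ((s^k)^(q:ℝ)) * ENNReal.ofReal ((2^((2*(4*μ)+1)*k) + 1) * 2^(k+2)) +
          ENNReal.ofReal (2 * (1/2)^k) := add_le_add (mul_le_mul_right h2 _) (hH'2 k)
      _ ≤ ENNReal.ofReal (8 * (1/2)^k) + ENNReal.ofReal (2 * (1/2)^k) := add_le_add_left h3 _
      _ = ENNReal.ofReal (10 * (1/2)^k) := by
          rw [← ENNReal.ofReal_add (by positivity) (by positivity)]
          congr 1
          ring
  have hfin : ∫⁻ ω, ∑' k, A k ω ∂P ≠ ∞ := by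
    rw [lintegral_tsum fun k => (hAm k).aemeasurable]
    refine ne_top_of_le_ne_top ?_ (ENNReal.tsum_le_tsum hAint)
    have hsum : Summable fun k : ℕ => 10 * (1/2:ℝ)^k :=
      (summable_geometric_of_lt_one (by norm_num) (by norm_num)).mul_left _
    exact hsum.tsum_ofReal_ne_top
  have hae := ae_lt_top (Measurable.tsum hAm) hfin
  filter_upwards [hae, hB.cont] with ω hω hcont
  have hlim := ENNReal.tendsto_atTop_zero_of_tsum_ne_top hω.ne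
  refine det (M := 2^(2*μ)) (κ := 1/2^(21+η)) (path B ω) (continuous_path hcont).continuousOn C q ?_
  intro ε k0 hε
  have hε' : (0:ℝ≥0∞) < min (ENNReal.ofReal ε) 1 := lt_min (ENNReal.ofReal_pos.mpr hε) (by norm_num)
  have hev := (hlim.eventually_lt_const hε').and (eventually_ge_atTop (max k0 k1))
  obtain ⟨k, hk, hkk⟩ := hev.exists
  have hkA1 := lt_of_lt_of_le hk (min_le_left _ _)
  have hkA2 := lt_of_lt_of_le hk (min_le_right _ _)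
  have hkk1 : k1 ≤ k := le_trans (le_max_right _ _) hkk
  refine ⟨k, 2^((2*(4*μ)+1)*k), le_trans (le_max_left _ _) hkk, by positivity, ?_, ?_⟩
  · intro u hu
    refine ⟨⌊u * 2^((2*(4*μ)+1)*k)⌋₊, ?_, ?_⟩
    · rw [Finset.mem_range]
      have h1 : u * 2^((2*(4*μ)+1)*k) ≤ ((2^((2*(4*μ)+1)*k) : ℕ) : ℝ) := by
        push_cast
        have h0 : (0:ℝ) < 2^((2*(4*μ)+1)*k) := by positivity
        exact (mul_le_mul_of_nonneg_right hu.2 h0.le).trans (one_mul _).le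
      exact Nat.lt_succ_of_le (Nat.floor_le_of_le h1)
    · by_contra hcon
      push Not at hcon
      have h1 := hH'3 k hkk1 ω hcont ⟨u, hu, by
        push_cast at hcon
        exact hcon⟩
      have h2 : H' k ω ≤ A k ω := by
        rw [hA]
        exact le_add_self
      exact absurd (lt_of_le_of_lt (h1.trans h2) hkA2) (lt_irrefl _)
  · have h1 : ENNReal.ofReal (∑ i ∈ Finset.range (2^((2*(4*μ)+1)*k) + 1), (s^k * (τ / s)^(badCount
        (path B ω) (Real.sqrt n) (2^(4*μ)) (2^(2*μ)) (Lam μ η) (1/2^(21+η)) k ((i:ℝ) /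
          ((2^((2*(4*μ)+1)*k) : ℕ) : ℝ))))^(q:ℝ)) ≤ A k ω := by
      have hsp := C.hs
      rw [ENNReal.ofReal_sum_of_nonneg (fun i _ => by positivity), hA]
      refine le_trans ?_ le_self_add
      rw [Finset.mul_sum]
      apply Finset.sum_le_sum
      intro i hi
      rw [Finset.mem_range] at hi
      rw [Real.mul_rpow (by positivity) (by positivity), ENNReal.ofReal_mul (by positivity)]
      apply mul_le_mul_right
      have h2 := hH3 k i (by omega) ω hcont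
      refine le_trans (le_of_eq ?_) h2
      push_cast
      rw [hc0, ← ENNReal.ofReal_pow (by linarith)]
      congr 1
      rw [hcr]
      exact pow_swap (τ / s) (by linarith) q _
    have h3 := lt_of_le_of_lt h1 hkA1
    exact ((ENNReal.ofReal_lt_ofReal_iff hε).mp h3).le

end Pool.Agent.J6H8.CDim
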